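import Mathlib.Algebra.Group.Action.Pointwise.Finset
import Mathlib.Algebra.Order.Archimedean.Real.Hom
import Mathlib.Algebra.Order.Star.Real
import Mathlib.Combinatorics.Hall.Basic
import Mathlib.Analysis.InnerProductSpace.l2Space
import Mathlib.Order.CompletePartialOrder
import Mathlib.Tactic.Algebra.Basic

-- ======== part 0: formerly Pool.Agent.PolNA.Basic
section MrgPart0

/-!
# Orthogonal projections, isometric representations and finite averages
-/

set_option autoImplicit false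

namespace Pool.Agent.PolNA

open scoped commutatorElement

variable {V : Type} [NormedAddCommGroup V] [InnerProductSpace ℝ V]

/-- Orthogonal projection. -/
structure IsOP (E : Module.End ℝ V) : Prop where
  idem : E * E = E
  symm : ∀ x y, inner ℝ (E x) y = inner ℝ x (E y)

namespace IsOP

variable {E F : Module.End ℝ V}

theorem app (h : IsOP E) (v : V) : E (E v) = E v := by
  rw [← Module.End.mul_apply, h.idem]

theorem one : IsOP (1 : Module.End ℝ V) := ⟨mul_one _, fun _ _ => rfl⟩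

theorem zero : IsOP (0 : Module.End ℝ V) := ⟨mul_zero _, fun _ _ => by simp⟩

theorem one_sub (h : IsOP E) : IsOP (1 - E) :=
  ⟨by rw [mul_sub, sub_mul, sub_mul, h.idem]; simp, fun x y => by
    simp only [LinearMap.sub_apply, Module.End.one_apply, inner_sub_left, inner_sub_right,
      h.symm]⟩

theorem mul (h : IsOP E) (h' : IsOP F) (hc : Commute E F) : IsOP (E * F) :=
  ⟨by rw [mul_assoc, ← mul_assoc F, ← hc.eq, mul_assoc, h'.idem, ← mul_assoc, h.idem],
    fun x y => by
      rw [Module.End.mul_apply, h.symm, h'.symm, ← Module.End.mul_apply F, ← hc.eq]⟩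

theorem inner_self (h : IsOP E) (v : V) : inner ℝ (E v) v = ‖E v‖ ^ 2 := by
  rw [← real_inner_self_eq_norm_sq, h.symm (v) (E v), h.app, h.symm]

theorem pyth (h : IsOP E) (v : V) : ‖v‖ ^ 2 = ‖E v‖ ^ 2 + ‖v - E v‖ ^ 2 := by
  rw [norm_sub_sq_real, real_inner_comm, h.inner_self]; ring

theorem norm_le (h : IsOP E) (v : V) : ‖E v‖ ≤ ‖v‖ := by
  have := h.pyth v
  exact abs_le_of_sq_le_sq' (by nlinarith [sq_nonneg ‖v - E v‖]) (norm_nonneg _) |>.2

theorem norm_sub_le (h : IsOP E) (v : V) : ‖v - E v‖ ≤ ‖v‖ := h.one_sub.norm_le v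

theorem ext (h : IsOP E) (h' : IsOP F) (H : ∀ v, E v = v ↔ F v = v) : E = F := by
  refine LinearMap.ext fun v => ext_inner_right ℝ fun y => ?_
  have h1 : F (E v) = E v := (H _).mp (h.app v)
  have h2 : E (F y) = F y := (H _).mpr (h'.app y)
  rw [← h1, h'.symm, h.symm, h2, h'.symm]

/-- If every vector fixed by `F` is fixed by `E`, then `v` is closer to the range of `E`. -/
theorem sub_le_sub (h : IsOP E) (H : ∀ v, E (F v) = F v) (v : V) :
    ‖v - E v‖ ≤ ‖v - F v‖ := by
  have : v - E v = (v - F v) - E (v - F v) := by rw [map_sub, H]; abel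
  rw [this]; exact h.norm_sub_le _

end IsOP

section Rep

variable {G : Type} [Group G]

/-- Representation by linear isometries. -/
def Iso (π : G →* Module.End ℝ V) : Prop := ∀ g v, ‖π g v‖ = ‖v‖

/-- Displacement of `v` by `g`. -/
def err (π : G →* Module.End ℝ V) (g : G) (v : V) : ℝ := ‖π g v - v‖

theorem Iso.comp {π : G →* Module.End ℝ V} (h : Iso π) {H : Type} [Group H] (f : H →* G) :
    Iso (π.comp f) := fun g v => h (f g) v

@[simp] theorem err_comp (π : G →* Module.End ℝ V) {H : Type} [Group H] (f : H →* G) (g : H)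
    (v : V) : err (π.comp f) g v = err π (f g) v := rfl

theorem rep_mul (π : G →* Module.End ℝ V) (g h : G) (v : V) : π (g * h) v = π g (π h v) := by
  rw [map_mul, Module.End.mul_apply]

theorem rep_inv (π : G →* Module.End ℝ V) (g : G) (v : V) : π g⁻¹ (π g v) = v := by
  rw [← rep_mul, inv_mul_cancel, map_one, Module.End.one_apply]

theorem rep_inv' (π : G →* Module.End ℝ V) (g : G) (v : V) : π g (π g⁻¹ v) = v := by
  rw [← rep_mul, mul_inv_cancel, map_one, Module.End.one_apply]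

theorem Iso.inner {π : G →* Module.End ℝ V} (h : Iso π) (g : G) (x y : V) :
    inner ℝ (π g x) (π g y) = inner ℝ x y :=
  (LinearMap.norm_map_iff_inner_map_map (π g)).mp (h g) x y

theorem Iso.adj {π : G →* Module.End ℝ V} (h : Iso π) (g : G) (x y : V) :
    Inner.inner ℝ (π g x) y = Inner.inner ℝ x (π g⁻¹ y) := by
  rw [← h.inner g x, rep_inv']

theorem err_nonneg (π : G →* Module.End ℝ V) (g : G) (v : V) : 0 ≤ err π g v := norm_nonneg _

@[simp] theorem err_one (π : G →* Module.End ℝ V) (v : V) : err π 1 v = 0 := by simp [err]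

theorem err_of_fix {π : G →* Module.End ℝ V} {g : G} {v : V} (h : π g v = v) : err π g v = 0 := by
  simp [err, h]

theorem Iso.err_mul {π : G →* Module.End ℝ V} (h : Iso π) (a b : G) (v : V) :
    err π (a * b) v ≤ err π a v + err π b v := by
  have : π (a * b) v - v = (π a v - v) + π a (π b v - v) := by rw [rep_mul, map_sub]; abel
  unfold err
  rw [this]
  exact (norm_add_le _ _).trans (by rw [h])

theorem Iso.err_inv {π : G →* Module.End ℝ V} (h : Iso π) (a : G) (v : V) :
    err π a⁻¹ v = err π a v := by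
  unfold err
  rw [← h a, map_sub, rep_inv', norm_sub_rev]

theorem Iso.err_conj {π : G →* Module.End ℝ V} (h : Iso π) (a b : G) (v : V) :
    err π (a * b * a⁻¹) v ≤ 2 * err π a v + err π b v := by
  have h1 := h.err_mul (a * b) a⁻¹ v
  have h2 := h.err_mul a b v
  rw [h.err_inv] at h1
  linarith

theorem Iso.err_comm {π : G →* Module.End ℝ V} (h : Iso π) (a b : G) (v : V) :
    err π ⁅a, b⁆ v ≤ 2 * err π a v + 2 * err π b v := by
  have h1 := h.err_mul (a * b * a⁻¹) b⁻¹ v
  have h2 := h.err_conj a b v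
  rw [h.err_inv] at h1
  rw [commutatorElement_def]
  linarith

theorem Iso.err_near {π : G →* Module.End ℝ V} (h : Iso π) (a : G) (v w : V) :
    err π a v ≤ err π a w + 2 * ‖v - w‖ := by
  have : π a v - v = (π a w - w) + (π a (v - w) - (v - w)) := by rw [map_sub]; abel
  unfold err
  rw [this]
  refine (norm_add_le _ _).trans ?_
  have := norm_sub_le (π a (v - w)) (v - w)
  rw [h] at this
  linarith

theorem Iso.err_le_two {π : G →* Module.End ℝ V} (h : Iso π) (a : G) (v : V) :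
    err π a v ≤ 2 * ‖v‖ := by
  have := h.err_near a v 0
  simpa [err] using this

/-- A contraction commuting with `π a` does not increase the displacement. -/
theorem err_contr {π : G →* Module.End ℝ V} {a : G} {T : Module.End ℝ V} (hc : Commute T (π a))
    (hT : ∀ v, ‖T v‖ ≤ ‖v‖) (v : V) : err π a (T v) ≤ err π a v := by
  unfold err
  rw [← Module.End.mul_apply, ← hc.eq, Module.End.mul_apply, ← map_sub]
  exact hT _

/-- Pythagoras for displacements. -/
theorem err_pyth {π : G →* Module.End ℝ V} {a : G} {T : Module.End ℝ V} (hc : Commute T (π a))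
    (hT : IsOP T) (v : V) : err π a v ^ 2 = err π a (T v) ^ 2 + err π a (v - T v) ^ 2 := by
  unfold err
  have h1 : π a (T v) = T (π a v) := by
    rw [← Module.End.mul_apply, ← hc.eq, Module.End.mul_apply]
  rw [hT.pyth (π a v - v), map_sub (π a), h1, map_sub T]
  congr 2
  congr 1
  abel

end Rep

section Avg

variable {Γ : Type} [Group Γ]

/-- Average of a representation of a finite group. -/
noncomputable def avg (β : Γ →* Module.End ℝ V) : Module.End ℝ V :=
  (Nat.card Γ : ℝ)⁻¹ • ∑ᶠ γ, β γ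

theorem avg_apply [Fintype Γ] (β : Γ →* Module.End ℝ V) (v : V) :
    avg β v = (Fintype.card Γ : ℝ)⁻¹ • ∑ γ, β γ v := by
  rw [avg, finsum_eq_sum_of_fintype, Nat.card_eq_fintype_card, LinearMap.smul_apply,
    LinearMap.sum_apply]

theorem avg_fix [Finite Γ] (β : Γ →* Module.End ℝ V) (γ : Γ) (v : V) :
    β γ (avg β v) = avg β v := by
  let _ := Fintype.ofFinite Γ
  rw [avg_apply, map_smul, map_sum]
  congr 1
  simp only [← rep_mul]
  exact Equiv.sum_comp (Equiv.mulLeft γ) (fun x => β x v)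

theorem avg_near [Finite Γ] (β : Γ →* Module.End ℝ V) (v w : V) (c : ℝ)
    (h : ∀ γ, ‖β γ v - w‖ ≤ c) : ‖avg β v - w‖ ≤ c := by
  let _ := Fintype.ofFinite Γ
  have hc : (0 : ℝ) < Fintype.card Γ := by exact_mod_cast Fintype.card_pos
  have : avg β v - w = (Fintype.card Γ : ℝ)⁻¹ • ∑ γ, (β γ v - w) := by
    rw [avg_apply, Finset.sum_sub_distrib, smul_sub, Finset.sum_const, Finset.card_univ,
      ← Nat.cast_smul_eq_nsmul ℝ, smul_smul, inv_mul_cancel₀ hc.ne', one_smul]
  rw [this, norm_smul, Real.norm_of_nonneg (inv_nonneg.mpr hc.le), inv_mul_le_iff₀ hc]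
  refine (norm_sum_le _ _).trans ((Finset.sum_le_sum fun γ _ => h γ).trans ?_)
  simp

theorem avg_eq_self [Finite Γ] (β : Γ →* Module.End ℝ V) (v : V) (h : ∀ γ, β γ v = v) :
    avg β v = v := by
  have := avg_near β v v 0 fun γ => by simp [h]
  exact sub_eq_zero.mp (norm_le_zero_iff.mp this)

theorem avg_eq_self_iff [Finite Γ] (β : Γ →* Module.End ℝ V) (v : V) :
    avg β v = v ↔ ∀ γ, β γ v = v :=
  ⟨fun h γ => by rw [← h, avg_fix], avg_eq_self β v⟩

theorem avg_isOP [Finite Γ] {β : Γ →* Module.End ℝ V} (h : Iso β) : IsOP (avg β) := by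
  refine ⟨LinearMap.ext fun v => avg_eq_self β _ fun γ => avg_fix β γ v, fun x y => ?_⟩
  let _ := Fintype.ofFinite Γ
  rw [avg_apply, avg_apply, real_inner_smul_left, real_inner_smul_right, sum_inner, inner_sum]
  congr 1
  simp only [h.adj]
  exact Equiv.sum_comp (Equiv.inv Γ) (fun γ => inner ℝ x (β γ y))

theorem norm_sub_avg_le [Finite Γ] (β : Γ →* Module.End ℝ V) (v : V) (c : ℝ)
    (h : ∀ γ, err β γ v ≤ c) : ‖v - avg β v‖ ≤ c := by
  rw [norm_sub_rev]; exact avg_near β v v c h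

theorem err_le_avg [Finite Γ] {β : Γ →* Module.End ℝ V} (h : Iso β) (γ : Γ) (v : V) :
    err β γ v ≤ 2 * ‖v - avg β v‖ := by
  have := h.err_near γ v (avg β v)
  rwa [err_of_fix (avg_fix β γ v), zero_add] at this

theorem avg_intertwine [Finite Γ] {β β' : Γ →* Module.End ℝ V} {T : Module.End ℝ V}
    (h : ∀ γ, T * β γ = β' γ * T) : T * avg β = avg β' * T := by
  let _ := Fintype.ofFinite Γ
  refine LinearMap.ext fun v => ?_
  rw [Module.End.mul_apply, Module.End.mul_apply, avg_apply, avg_apply, map_smul, map_sum]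
  congr 1
  refine Finset.sum_congr rfl fun γ _ => ?_
  rw [← Module.End.mul_apply, h, Module.End.mul_apply]

theorem avg_commute [Finite Γ] {β : Γ →* Module.End ℝ V} {T : Module.End ℝ V}
    (h : ∀ γ, Commute T (β γ)) : Commute T (avg β) := avg_intertwine h

theorem avg_apply_congr [Finite Γ] {β β' : Γ →* Module.End ℝ V} {v : V}
    (h : ∀ γ, β γ v = β' γ v) : avg β v = avg β' v := by
  let _ := Fintype.ofFinite Γ
  simp only [avg_apply, h]

theorem avg_congr [Finite Γ] {Γ' : Type} [Group Γ'] [Finite Γ'] {β : Γ →* Module.End ℝ V}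
    {β' : Γ' →* Module.End ℝ V} (h : Iso β) (h' : Iso β')
    (H : ∀ v, (∀ γ, β γ v = v) ↔ ∀ γ, β' γ v = v) : avg β = avg β' :=
  (avg_isOP h).ext (avg_isOP h') fun v => by rw [avg_eq_self_iff, avg_eq_self_iff, H]

theorem avg_eq_mul [Finite Γ] {Γ₁ Γ₂ : Type} [Group Γ₁] [Finite Γ₁] [Group Γ₂] [Finite Γ₂]
    {β : Γ →* Module.End ℝ V} {β₁ : Γ₁ →* Module.End ℝ V} {β₂ : Γ₂ →* Module.End ℝ V}
    (h : Iso β) (h₁ : Iso β₁) (h₂ : Iso β₂) (hc : ∀ a b, Commute (β₁ a) (β₂ b))
    (H : ∀ v, (∀ γ, β γ v = v) ↔ (∀ γ, β₁ γ v = v) ∧ ∀ γ, β₂ γ v = v) :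
    avg β = avg β₁ * avg β₂ := by
  have hc' : Commute (avg β₁) (avg β₂) :=
    avg_commute fun b => (avg_commute fun a => (hc a b).symm).symm
  refine (avg_isOP h).ext ((avg_isOP h₁).mul (avg_isOP h₂) hc') fun v => ?_
  rw [avg_eq_self_iff, H]
  refine ⟨fun hv => ?_, fun hv => ⟨fun a => ?_, fun b => ?_⟩⟩
  · rw [Module.End.mul_apply, avg_eq_self _ _ hv.2, avg_eq_self _ _ hv.1]
  · rw [← hv, Module.End.mul_apply, avg_fix]
  · rw [← hv, hc'.eq, Module.End.mul_apply, avg_fix]

end Avg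

section AvgS

variable {G : Type} [Group G]

/-- Average over a finite subgroup. -/
noncomputable def avgS (π : G →* Module.End ℝ V) (Θ : Subgroup G) : Module.End ℝ V :=
  avg (π.comp Θ.subtype)

variable {π π' : G →* Module.End ℝ V} {Θ : Subgroup G} [Finite Θ]

theorem avgS_isOP (h : Iso π) : IsOP (avgS π Θ) := avg_isOP (h.comp _)

theorem avgS_fix {g : G} (hg : g ∈ Θ) (v : V) : π g (avgS π Θ v) = avgS π Θ v :=
  avg_fix (π.comp Θ.subtype) ⟨g, hg⟩ v

theorem avgS_eq_self {v : V} (h : ∀ g ∈ Θ, π g v = v) : avgS π Θ v = v :=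
  avg_eq_self _ v fun γ => h γ.1 γ.2

theorem norm_sub_avgS_le {v : V} {c : ℝ} (h : ∀ g ∈ Θ, err π g v ≤ c) :
    ‖v - avgS π Θ v‖ ≤ c := norm_sub_avg_le _ v c fun γ => h γ.1 γ.2

theorem err_le_avgS (h : Iso π) {g : G} (hg : g ∈ Θ) (v : V) :
    err π g v ≤ 2 * ‖v - avgS π Θ v‖ := err_le_avg (h.comp Θ.subtype) ⟨g, hg⟩ v

theorem avgS_intertwine {T : Module.End ℝ V} (h : ∀ g ∈ Θ, T * π g = π' g * T) :
    T * avgS π Θ = avgS π' Θ * T := avg_intertwine fun γ => h γ.1 γ.2

theorem avgS_commute {T : Module.End ℝ V} (h : ∀ g ∈ Θ, Commute T (π g)) :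
    Commute T (avgS π Θ) := avgS_intertwine h

instance finite_map {H : Type} [Group H] (f : G →* H) : Finite (Θ.map f) :=
  Finite.of_surjective _ (f.subgroupMap_surjective Θ)

theorem avgS_map {H : Type} [Group H] (f : G →* H) {ρ : H →* Module.End ℝ V} (h : Iso ρ) :
    avgS ρ (Θ.map f) = avgS (ρ.comp f) Θ :=
  avg_congr (h.comp _) ((h.comp _).comp _) fun v =>
    ⟨fun H γ => H ⟨f γ.1, γ.1, γ.2, rfl⟩, fun H ⟨_, g, hg, e⟩ => by
      subst e; exact H ⟨g, hg⟩⟩

end AvgS

end Pool.Agent.PolNA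

end MrgPart0

-- ======== part 1: formerly Pool.Agent.PolNA.Spec
section MrgPart1

/-!
# Statements of the three self-contained analytic blocks, and the abstract tree structure
-/

set_option autoImplicit false

namespace Pool.Agent.PolNA

/-- Smoothing by independent walks (block SMOOTH of the note). -/
def SmoothStmt : Prop :=
  ∀ J : ℕ, ∃ C : ℝ, 1 ≤ C ∧
    ∀ (V : Type) [NormedAddCommGroup V] [InnerProductSpace ℝ V] (A G ι : Type) [Group A] [Finite A]
      [Group G] [Fintype ι] [DecidableEq ι] (Ψ : (ι → G) →* Module.End ℝ V), Iso Ψ →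
      ∀ (gen : ℕ → A →* G) (ξ : V) (ε c ρ : ℝ) (t : ℕ), 0 ≤ ε → 0 ≤ c → 0 ≤ ρ →
      (2 : ℝ) ^ t ≤ ρ ^ 2 →
      (∀ j < J, ∀ a : A, err Ψ (fun _ => gen j a) ξ ≤ ε) →
      (∀ j < J, ∀ s : ι → A, err Ψ (fun i => gen j (s i)) ξ ≤ c) →
      ∃ (y : V) (δ : ι → ℝ), (∀ i, 0 ≤ δ i) ∧ ‖ξ - y‖ ≤ C * (t + 1) * (ρ * ε + c) ∧
        (2 : ℝ) ^ t * ∑ i, δ i ^ 2 ≤ (C * (t + 1) * (ρ * ε + c)) ^ 2 ∧
        (2 : ℝ) ^ t * ∑ i, δ i ^ 2 ≤ C * ‖ξ‖ ^ 2 ∧
        ∀ i, ∀ j < J, ∀ a : A, err Ψ (Pi.mulSingle i (gen j a)) y ≤ δ i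

/-- The same with a finite subgroup for each type. -/
theorem SmoothStmt.sub (hs : SmoothStmt) (J : ℕ) : ∃ C : ℝ, 1 ≤ C ∧
    ∀ (V : Type) [NormedAddCommGroup V] [InnerProductSpace ℝ V] (G ι : Type)
      [Group G] [Fintype ι] [DecidableEq ι] (Ψ : (ι → G) →* Module.End ℝ V), Iso Ψ →
      ∀ (R : ℕ → Subgroup G), (∀ j, Finite (R j)) →
      ∀ (gen : ℕ → G →* G) (ξ : V) (ε c ρ : ℝ) (t : ℕ), 0 ≤ ε → 0 ≤ c → 0 ≤ ρ →
      (2 : ℝ) ^ t ≤ ρ ^ 2 →
      (∀ j < J, ∀ a ∈ R j, err Ψ (fun _ => gen j a) ξ ≤ ε) →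
      (∀ j < J, ∀ s : ι → G, (∀ i, s i ∈ R j) → err Ψ (fun i => gen j (s i)) ξ ≤ c) →
      ∃ (y : V) (δ : ι → ℝ), (∀ i, 0 ≤ δ i) ∧ ‖ξ - y‖ ≤ C * (t + 1) * (ρ * ε + c) ∧
        (2 : ℝ) ^ t * ∑ i, δ i ^ 2 ≤ (C * (t + 1) * (ρ * ε + c)) ^ 2 ∧
        (2 : ℝ) ^ t * ∑ i, δ i ^ 2 ≤ C * ‖ξ‖ ^ 2 ∧
        ∀ i, ∀ j < J, ∀ a ∈ R j, err Ψ (Pi.mulSingle i (gen j a)) y ≤ δ i := by
  classical
  obtain ⟨C, hC, hs⟩ := hs J
  refine ⟨C, hC, fun V _ _ G ι _ _ _ Ψ hΨ R hR gen ξ ε c ρ t h1 h2 h3 h4 h5 h6 => ?_⟩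
  let g : ℕ → ((j : Fin J) → R j) →* G := fun j =>
    if h : j < J then (gen j).comp ((R j).subtype.comp (Pi.evalMonoidHom _ (⟨j, h⟩ : Fin J)))
    else 1
  have hg : ∀ j (h : j < J) (a : (j : Fin J) → R j), g j a = gen j (a ⟨j, h⟩) := fun j h a => by
    simp [g, h]
  obtain ⟨y, δ, k1, k2, k3, k4, k5⟩ := hs V ((j : Fin J) → R j) G ι Ψ hΨ g ξ ε c ρ t h1 h2 h3 h4
    (fun j hj a => by simp only [hg j hj]; exact h5 j hj _ (a ⟨j, hj⟩).2)
    (fun j hj s => by simp only [hg j hj]; exact h6 j hj _ fun i => (s i ⟨j, hj⟩).2)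
  refine ⟨y, δ, k1, k2, k3, k4, fun i j hj a ha => ?_⟩
  have := k5 i j hj (Pi.mulSingle (⟨j, hj⟩ : Fin J) ⟨a, ha⟩)
  rwa [hg j hj, Pi.mulSingle_eq_same] at this

/-- Events built from commuting projections (block PVM of the note). -/
def PvmStmt : Prop :=
  ∀ (V : Type) [NormedAddCommGroup V] [InnerProductSpace ℝ V] (n D : ℕ), 0 < n →
    ∀ (rz re : ℕ → Module.End ℝ V), (∀ i, IsOP (rz i)) → (∀ i, IsOP (re i)) →
    (∀ i j, Commute (rz i) (rz j)) → (∀ i j, Commute (re i) (re j)) →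
    (∀ i j, Commute (rz i) (re j)) → ∀ ψ : V,
    ∃ i < n, ∃ H Lo : Module.End ℝ V, IsOP H ∧ IsOP Lo ∧
      (∀ T : Module.End ℝ V, (∀ j < i, Commute T (rz j)) → Commute T H) ∧
      (n : ℝ) * ‖rz i (ψ - H ψ)‖ ^ 2 ≤ 4 * D * ‖ψ‖ ^ 2 ∧
      (∀ y : V, (D : ℝ) * ‖y - Lo y‖ ^ 2 ≤ ∑ j ∈ Finset.range i, ‖re j y‖ ^ 2) ∧
      ∀ (φ : V) (U : ℕ → Module.End ℝ V),
        (∀ j < i, (∀ v, ‖U j v‖ = ‖v‖) ∧ U j φ = φ ∧ U j * rz j = re j * U j ∧
          U j * re j = rz j * U j ∧
          ∀ l, l ≠ j → Commute (U j) (rz l) ∧ Commute (U j) (re l)) →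
        ‖Lo (H φ)‖ ^ 2 ≤ (1 / 2 : ℝ) ^ D * ‖φ‖ ^ 2

/-- There is a left-invariant finitely additive probability measure on all subsets. -/
def Amen (G : Type) [Group G] : Prop :=
  ∃ m : Set G → ℝ, (∀ A, 0 ≤ m A) ∧ m Set.univ = 1 ∧
    (∀ A B, Disjoint A B → m (A ∪ B) = m A + m B) ∧
    ∀ (g : G) (A : Set G), m ((fun x => g * x) '' A) = m A

/-- The regular representation has almost invariant vectors of finite support for every amenable
subgroup (block FOLNER). -/
def FolnerStmt : Prop :=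
  ∀ (G : Type) [Group G], ∃ (V : Type) (_ : NormedAddCommGroup V) (_ : InnerProductSpace ℝ V)
    (π : G →* Module.End ℝ V), Iso π ∧ ∀ P : Subgroup G, Amen P → ∀ S : Set G, S.Finite →
      S ⊆ P → ∀ ε : ℝ, 0 < ε →
      ∃ ψ : V, ‖ψ‖ = 1 ∧ (∀ s ∈ S, err π s ψ ≤ ε) ∧ {g : G | err π g ψ ≤ 1}.Finite

open scoped commutatorElement in
/-- `x` is a product of `w` commutators of elements of `Θ`. -/
def Cw {G : Type} [Group G] (Θ : Set G) : ℕ → G → Prop
  | 0, x => x = 1
  | w + 1, x => ∃ a ∈ Θ, ∃ b ∈ Θ, ∃ y, Cw Θ w y ∧ x = ⁅a, b⁆ * y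

/-- Abstract self-similar structure: `root` is the rooted action of `A`, `spread` places one
element below each letter, `L h` acts as `h` below every vertex `o ... o e`; `R` is a chain of
finite subgroups, each of the first `top` ones made of products of commutators of the next. -/
structure TS (X A G : Type) [DecidableEq X] [Group A] [MulAction A X] [Group G] where
  root : A →* G
  spread : (X → G) →* G
  L : G →* G
  o : X
  e : X
  z : X
  c : A
  g : A
  conj : ∀ (σ : A) (u : X → G), root σ * spread u * (root σ)⁻¹ = spread (fun x => u (σ⁻¹ • x))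
  lift : ∀ h : G, L h = spread (Pi.mulSingle e h) * spread (Pi.mulSingle o (L h))
  R : ℕ → Subgroup G
  top : ℕ
  w : ℕ → ℕ
  R_fin : ∀ j, Finite (R j)
  R_mono : ∀ j, R j ≤ R (j + 1)
  root_R : ∀ σ, root σ ∈ R 0
  cw : ∀ j < top, ∀ x ∈ R j, Cw (R (j + 1) : Set G) (w j) x
  trans : ∀ x y : X, ∃ τ : A, τ • x = y
  oe : o ≠ e
  oz : o ≠ z
  ez : e ≠ z
  c_o : c • o = o
  c_z : c • z = z
  c_e : c • e ≠ e
  c_ee : c • c • e ≠ e
  g_o : g • o = o
  g_e : g • e = z
  g_z : g • z = e

namespace TS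

variable {X A G : Type} [DecidableEq X] [Group A] [MulAction A X] [Group G] (S : TS X A G)

/-- Place an element below the letter `x`. -/
def atx (x : X) : G →* G := S.spread.comp (MonoidHom.mulSingle (fun _ : X => G) x)

/-- Place an element below `o ^ n`. -/
def sh : ℕ → (G →* G)
  | 0 => MonoidHom.id G
  | n + 1 => (S.atx S.o).comp (sh n)

/-- Place an element below `o ^ l x`. -/
def fib (l : ℕ) (x : X) : G →* G := (S.sh l).comp (S.atx x)

/-- The rooted action at the vertex `o ^ n`. -/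
def phi (n : ℕ) : A →* G := (S.sh n).comp S.root

/-- The iterates of `L`; the generators of degree `j - 1` are the images of `R j`. -/
def gen : ℕ → (G →* G)
  | 0 => MonoidHom.id G
  | j + 1 => S.L.comp (gen j)

instance finite_R (j : ℕ) : Finite (S.R j) := S.R_fin j

end TS

end Pool.Agent.PolNA

end MrgPart1

-- ======== part 2: formerly Pool.Agent.PolNA.Pvm
section MrgPart2

/-!
# Threshold events of commuting projections
-/

set_option autoImplicit false

namespace Pool.Agent.PolNA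

open Finset

variable {V : Type} [NormedAddCommGroup V] [InnerProductSpace ℝ V]

/-- The event that at least `c` of the first `i` projections fire. -/
def thr (r : ℕ → Module.End ℝ V) : ℕ → ℕ → Module.End ℝ V
  | 0, c => if c = 0 then 1 else 0
  | i + 1, c => r i * thr r i (c - 1) + (1 - r i) * thr r i c

variable {r s : ℕ → Module.End ℝ V} {T E : Module.End ℝ V}

theorem thr_comm {i : ℕ} (h : ∀ j < i, Commute T (r j)) (c : ℕ) : Commute T (thr r i c) := by
  induction i generalizing c with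
  | zero =>
    rw [thr]
    split_ifs
    exacts [Commute.one_right _, Commute.zero_right _]
  | succ i ih =>
    have h1 := h i (Nat.lt_succ_self i)
    have h2 := ih fun j hj => h j (Nat.lt_succ_of_lt hj)
    exact (h1.mul_right (h2 _)).add_right (((Commute.one_right _).sub_right h1).mul_right (h2 _))

theorem comm_app (h : Commute T E) (v : V) : T (E v) = E (T v) := by
  rw [← Module.End.mul_apply, h.eq, Module.End.mul_apply]

theorem IsOP.add {F : Module.End ℝ V} (h : IsOP E) (h' : IsOP F) (h1 : E * F = 0)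
    (h2 : F * E = 0) : IsOP (E + F) :=
  ⟨by rw [add_mul, mul_add, mul_add, h.idem, h'.idem, h1, h2, add_zero, zero_add], fun x y => by
    simp only [LinearMap.add_apply, inner_add_left, inner_add_right, h.symm, h'.symm]⟩

theorem thr_op (hr : ∀ i, IsOP (r i)) (hc : ∀ i j, Commute (r i) (r j)) (i c : ℕ) :
    IsOP (thr r i c) := by
  induction i generalizing c with
  | zero =>
    rw [thr]
    split_ifs
    exacts [IsOP.one, IsOP.zero]
  | succ i ih =>
    have h1 : ∀ c, Commute (r i) (thr r i c) := thr_comm fun j _ => hc i j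
    have h2 : ∀ c, Commute (1 - r i) (thr r i c) := fun c => (Commute.one_left _).sub_left (h1 c)
    refine ((hr i).mul (ih _) (h1 _)).add ((hr i).one_sub.mul (ih _) (h2 _)) ?_ ?_
    · rw [(h1 _).eq, mul_assoc, ← mul_assoc (r i), mul_sub, mul_one, (hr i).idem, sub_self,
        zero_mul, mul_zero]
    · rw [(h2 _).eq, mul_assoc, ← mul_assoc (1 - r i), sub_mul, one_mul, (hr i).idem, sub_self,
        zero_mul, mul_zero]

theorem thr_nil (i : ℕ) : thr r i 0 = 1 := by
  induction i with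
  | zero => simp [thr]
  | succ i ih => simp [thr, ih]

theorem thr_on (hc : ∀ i j, Commute (r i) (r j)) {i : ℕ} {w : V} (h : r i w = w) (c : ℕ) :
    thr r (i + 1) c w = thr r i (c - 1) w := by
  have h1 : ∀ c, r i (thr r i c w) = thr r i c w := fun c => by
    rw [comm_app (thr_comm (fun j _ => hc i j) c), h]
  simp [thr, h1]

theorem thr_off (hc : ∀ i j, Commute (r i) (r j)) {i : ℕ} {w : V} (h : r i w = 0) (c : ℕ) :
    thr r (i + 1) c w = thr r i c w := by
  have h1 : ∀ c, r i (thr r i c w) = 0 := fun c => by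
    rw [comm_app (thr_comm (fun j _ => hc i j) c), h, map_zero]
  simp [thr, h1]

theorem IsOP.off (h : IsOP E) (v : V) : E (v - E v) = 0 := by rw [map_sub, h.app, sub_self]

theorem IsOP.split (h : IsOP E) (hc : Commute E T) (v : V) :
    ‖T v‖ ^ 2 = ‖T (E v)‖ ^ 2 + ‖T (v - E v)‖ ^ 2 := by
  rw [h.pyth (T v), comm_app hc, map_sub]

theorem IsOP.sq_le (h : IsOP E) (v : V) : ‖E v‖ ^ 2 ≤ ‖v‖ ^ 2 :=
  pow_le_pow_left₀ (norm_nonneg _) (h.norm_le v) 2

theorem thr_step (hr : ∀ i, IsOP (r i)) (hc : ∀ i j, Commute (r i) (r j)) (i c : ℕ) (v : V) :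
    ‖thr r (i + 1) c v‖ ^ 2 = ‖thr r i (c - 1) (r i v)‖ ^ 2 + ‖thr r i c (v - r i v)‖ ^ 2 := by
  rw [(hr i).split (thr_comm (fun j _ => hc i j) c) v, thr_on hc ((hr i).app v),
    thr_off hc ((hr i).off v)]

theorem thr_markov (hr : ∀ i, IsOP (r i)) (hc : ∀ i j, Commute (r i) (r j)) (i c : ℕ) (v : V) :
    (c : ℝ) * ‖thr r i c v‖ ^ 2 ≤ ∑ j ∈ range i, ‖r j v‖ ^ 2 := by
  induction i generalizing c v with
  | zero => cases c <;> simp [thr]
  | succ i ih =>
    cases c with
    | zero => simpa using sum_nonneg fun j _ => sq_nonneg ‖r j v‖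
    | succ c =>
      have h1 := ih c (r i v)
      have h2 := ih (c + 1) (v - r i v)
      have h3 := (thr_op hr hc i c).sq_le (r i v)
      rw [thr_step hr hc, sum_range_succ, sum_congr rfl fun j _ => (hr i).split (hc i j) v,
        sum_add_distrib, Nat.add_sub_cancel]
      push_cast at h2 ⊢
      linarith

theorem thr_count (hr : ∀ i, IsOP (r i)) (hc : ∀ i j, Commute (r i) (r j)) (n c : ℕ) (v : V) :
    ∑ i ∈ range n, ‖r i (v - thr r i c v)‖ ^ 2 = ∑ b ∈ range c, ‖thr r n (b + 1) v‖ ^ 2 := by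
  induction n with
  | zero => simp [thr]
  | succ n ih =>
    have h1 : ∀ b, Commute (r n) (thr r n b) := thr_comm fun j _ => hc n j
    have h2 := sum_range_sub' (fun b => ‖thr r n b (r n v)‖ ^ 2) c
    have h3 := (thr_op hr hc n c).pyth (r n v)
    rw [sum_range_succ, ih, sum_congr rfl fun b _ => thr_step hr hc n (b + 1) v,
      sum_congr rfl fun b _ => (hr n).split (h1 (b + 1)) v, map_sub, comm_app (h1 c)]
    simp only [Nat.add_sub_cancel, sum_add_distrib, sum_sub_distrib, thr_nil,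
      Module.End.one_apply] at h2 ⊢
    linarith

theorem thr_pigeon (hr : ∀ i, IsOP (r i)) (hc : ∀ i j, Commute (r i) (r j)) {n : ℕ} (hn : 0 < n)
    (c : ℕ) (v : V) : ∃ i < n, (n : ℝ) * ‖r i (v - thr r i c v)‖ ^ 2 ≤ c * ‖v‖ ^ 2 := by
  have h : ∑ i ∈ range n, (n : ℝ) * ‖r i (v - thr r i c v)‖ ^ 2 ≤
      ∑ _i ∈ range n, (c : ℝ) * ‖v‖ ^ 2 := by
    rw [← mul_sum, thr_count hr hc, sum_const, card_range, nsmul_eq_mul]
    refine mul_le_mul_of_nonneg_left ?_ n.cast_nonneg
    simpa using sum_le_card_nsmul (range c) _ _ fun b _ => (thr_op hr hc n (b + 1)).sq_le v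
  obtain ⟨i, hi, h'⟩ := exists_le_of_sum_le ⟨0, mem_range.2 hn⟩ h
  exact ⟨i, mem_range.1 hi, h'⟩

theorem thr_theta (hr : ∀ i, IsOP (r i)) (hs : ∀ i, IsOP (s i)) (hc : ∀ i j, Commute (r i) (r j))
    (hd : ∀ i j, Commute (s i) (s j)) (he : ∀ i j, Commute (r i) (s j)) (U : ℕ → Module.End ℝ V)
    (i : ℕ) (hU : ∀ j < i, (∀ v, ‖U j v‖ = ‖v‖) ∧ U j * r j = s j * U j ∧ U j * s j = r j * U j ∧
      ∀ l, l ≠ j → Commute (U j) (r l) ∧ Commute (U j) (s l))
    (a b : ℕ) (φ : V) (hφ : ∀ j < i, U j φ = φ) :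
    ‖((1 - thr s i a) * thr r i b) φ‖ ^ 2 ≤ 2 ^ a * (2 / 3) ^ b * ‖φ‖ ^ 2 := by
  induction i generalizing a b φ with
  | zero =>
    cases b with
    | zero =>
      have h1 := (thr_op hs hd 0 a).one_sub.sq_le φ
      have h2 : (1 : ℝ) ≤ 2 ^ a := one_le_pow₀ one_le_two
      rw [thr_nil, mul_one, pow_zero, mul_one]
      nlinarith [sq_nonneg ‖φ‖]
    | succ b =>
      have : thr r 0 (b + 1) = 0 := by simp [thr]
      rw [this, mul_zero, LinearMap.zero_apply, norm_zero, zero_pow two_ne_zero]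
      positivity
  | succ i ih =>
    cases a with
    | zero =>
      rw [thr_nil, sub_self, zero_mul, LinearMap.zero_apply, norm_zero, zero_pow two_ne_zero]
      positivity
    | succ a =>
    have lt := fun j (hj : j < i) => Nat.lt_succ_of_lt hj
    replace ih := ih fun j hj => hU j (lt j hj)
    obtain ⟨u0, u1, u2, -⟩ := hU i (Nat.lt_succ_self i)
    have u3 := hφ i (Nat.lt_succ_self i)
    have fr : ∀ w, (∀ j < i, U j w = w) → ∀ j < i, U j (r i w) = r i w := fun w hw j hj => by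
      rw [comm_app ((hU j (lt j hj)).2.2.2 i hj.ne').1, hw j hj]
    have fs : ∀ w, (∀ j < i, U j w = w) → ∀ j < i, U j (s i w) = s i w := fun w hw j hj => by
      rw [comm_app ((hU j (lt j hj)).2.2.2 i hj.ne').2, hw j hj]
    have fm : ∀ w w', (∀ j < i, U j w = w) → (∀ j < i, U j w' = w') →
        ∀ j < i, U j (w - w') = w - w' := fun w w' h h' j hj => by rw [map_sub, h j hj, h' j hj]
    have f0 : ∀ j < i, U j φ = φ := fun j hj => hφ j (lt j hj)
    have f1 := fr φ f0
    have f2 := fm _ _ f0 f1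
    have cs : ∀ n c, Commute (s i) (thr r n c) := fun n => thr_comm fun j _ => (he j i).symm
    have c1 : Commute (r i) ((1 - thr s (i + 1) (a + 1)) * thr r (i + 1) b) :=
      ((Commute.one_right _).sub_right (thr_comm (fun j _ => he i j) _)).mul_right
        (thr_comm (fun j _ => hc i j) _)
    have c2 : Commute (s i) ((1 - thr s (i + 1) (a + 1)) * thr r (i + 1) b) :=
      ((Commute.one_right _).sub_right (thr_comm (fun j _ => hd i j) _)).mul_right (cs _ _)
    have on : ∀ w c, s i w = w → thr s (i + 1) (a + 1) (thr r i c w) = thr s i a (thr r i c w) :=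
      fun w c h => thr_on hd (by rw [comm_app (cs _ _), h]) _
    have off : ∀ w c, s i w = 0 →
        thr s (i + 1) (a + 1) (thr r i c w) = thr s i (a + 1) (thr r i c w) :=
      fun w c h => thr_off hd (by rw [comm_app (cs _ _), h, map_zero]) _
    have r1 : r i (s i (r i φ)) = s i (r i φ) := by rw [comm_app (he i i), (hr i).app]
    have r2 : r i (r i φ - s i (r i φ)) = r i φ - s i (r i φ) := by rw [map_sub, r1, (hr i).app]
    have r3 : r i (s i (φ - r i φ)) = 0 := by rw [comm_app (he i i), (hr i).off, map_zero]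
    have r4 : r i (φ - r i φ - s i (φ - r i φ)) = 0 := by rw [map_sub, r3, (hr i).off, sub_self]
    have h1 := ih a (b - 1) _ (fs _ f1)
    have h2 := ih (a + 1) (b - 1) _ (fm _ _ f1 (fs _ f1))
    have h3 := ih a b _ (fs _ f2)
    have h4 := ih (a + 1) b _ (fm _ _ f2 (fs _ f2))
    have sw : ‖r i φ - s i (r i φ)‖ = ‖s i (φ - r i φ)‖ := by
      have e1 : ∀ w, U i (r i w) = s i (U i w) := fun w => LinearMap.congr_fun u1 w
      have e2 : ∀ w, U i (s i w) = r i (U i w) := fun w => LinearMap.congr_fun u2 w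
      rw [← u0, map_sub, e2, e1, u3, map_sub, comm_app (he i i)]
    have p0 := (hr i).pyth φ
    have p1 := (hs i).pyth (r i φ)
    have p2 := (hs i).pyth (φ - r i φ)
    have k : (2 / 3 : ℝ) ^ (b - 1) ≤ 3 / 2 * (2 / 3) ^ b := by
      cases b with
      | zero => norm_num
      | succ b => rw [Nat.add_sub_cancel, pow_succ]; linarith
    rw [(hr i).split c1, (hs i).split c2 (r i φ), (hs i).split c2 (φ - r i φ)]
    simp only [Module.End.mul_apply, LinearMap.sub_apply, Module.End.one_apply] at h1 h2 h3 h4 ⊢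
    rw [thr_on hc r1, thr_on hc r2, thr_off hc r3, thr_off hc r4, on _ _ ((hs i).app _),
      off _ _ ((hs i).off _), on _ _ ((hs i).app _), off _ _ ((hs i).off _), p0, p1, p2]
    rw [sw] at h2 ⊢
    rw [pow_succ (2 : ℝ) a] at h2 h4 ⊢
    have k0 : (0 : ℝ) ≤ 2 ^ a := by positivity
    have k1 : (0 : ℝ) ≤ 2 ^ a * (2 / 3) ^ b * ‖s i (r i φ)‖ ^ 2 := by positivity
    have k2 := mul_le_mul_of_nonneg_right (mul_le_mul_of_nonneg_left k k0)
      (sq_nonneg ‖s i (r i φ)‖)
    have k3 := mul_le_mul_of_nonneg_right (mul_le_mul_of_nonneg_left k k0)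
      (sq_nonneg ‖s i (φ - r i φ)‖)
    linarith

theorem pvm : PvmStmt := by
  intro V _ _ n D hn rz re hz he czz cee cze ψ
  obtain ⟨i, hi, h⟩ := thr_pigeon hz czz hn (4 * D) ψ
  refine ⟨i, hi, thr rz i (4 * D), 1 - thr re i D, thr_op hz czz _ _, (thr_op he cee _ _).one_sub,
    fun T hT => thr_comm hT _, by simpa using h, fun y => ?_, fun φ U hU => ?_⟩
  · simpa using thr_markov he cee i D y
  · refine (thr_theta hz he czz cee cze U i (fun j hj => ⟨(hU j hj).1, (hU j hj).2.2⟩) D (4 * D) φ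
      fun j hj => (hU j hj).2.1).trans (mul_le_mul_of_nonneg_right ?_ (sq_nonneg _))
    rw [pow_mul, ← mul_pow]
    exact pow_le_pow_left₀ (by norm_num) (by norm_num) D

end Pool.Agent.PolNA

end MrgPart2

-- ======== part 3: formerly Pool.Agent.PolNA.Folner
section MrgPart3

/-!
# Block FOLNER: almost invariant finitely supported vectors of the regular representation
-/

set_option autoImplicit false

namespace Pool.Agent.PolNA

namespace Folner

open scoped Pointwise

/-- A piecewise translation that is injective preserves an invariant measure. -/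
theorem m_image {H : Type} [Group H] (m : Set H → ℝ)
    (hadd : ∀ A B, Disjoint A B → m (A ∪ B) = m A + m B)
    (hinv : ∀ (g : H) (A : Set H), m ((fun x => g * x) '' A) = m A)
    (φ : H → H) (hφ : Function.Injective φ) (K : Finset H) :
    ∀ A : Set H, (∀ x ∈ A, ∃ k ∈ K, φ x = k * x) → m (φ '' A) = m A := by
  classical
  induction K using Finset.induction_on with
  | empty =>
    intro A hA
    have : A = ∅ := Set.eq_empty_of_forall_notMem fun x hx => by simpa using hA x hx
    rw [this, Set.image_empty]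
  | insert k K _ ih =>
    intro A hA
    have hd : Disjoint {x | x ∈ A ∧ φ x = k * x} {x | x ∈ A ∧ φ x ≠ k * x} :=
      Set.disjoint_left.mpr fun x h1 h2 => h2.2 h1.2
    have hu : A = {x | x ∈ A ∧ φ x = k * x} ∪ {x | x ∈ A ∧ φ x ≠ k * x} := by
      ext x
      simp only [Set.mem_union, Set.mem_ofPred_eq]
      tauto
    have h1 : φ '' {x | x ∈ A ∧ φ x = k * x} = (fun x => k * x) '' {x | x ∈ A ∧ φ x = k * x} :=
      Set.image_congr fun x hx => hx.2
    have h2 := ih {x | x ∈ A ∧ φ x ≠ k * x} fun x hx => by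
      obtain ⟨k', hk', e⟩ := hA x hx.1
      rcases Finset.mem_insert.mp hk' with rfl | hk'
      · exact absurd e hx.2
      · exact ⟨k', hk', e⟩
    calc m (φ '' A) = m (φ '' {x | x ∈ A ∧ φ x = k * x} ∪ φ '' {x | x ∈ A ∧ φ x ≠ k * x}) := by
          rw [← Set.image_union, ← hu]
      _ = m {x | x ∈ A ∧ φ x = k * x} + m {x | x ∈ A ∧ φ x ≠ k * x} := by
          rw [hadd _ _ ((Set.disjoint_image_iff hφ).mpr hd), h1, hinv, h2]
      _ = m A := by rw [← hadd _ _ hd, ← hu]

/-- No finite set doubles all finite sets in an amenable group. -/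
theorem no_double {H : Type} [Group H] [DecidableEq H] (h : Amen H) (K : Finset H) :
    ∃ F : Finset H, (K * F).card < 2 * F.card := by
  obtain ⟨m, h0, h1, hadd, hinv⟩ := h
  by_contra hc
  push Not at hc
  obtain ⟨f, hf, hm⟩ := (Finset.all_card_le_biUnion_card_iff_exists_injective
    (fun p : H × Bool => K.image fun k => k * p.1)).mp fun s => by
      have a1 : s ⊆ (s.image Prod.fst) ×ˢ (Finset.univ : Finset Bool) := fun p hp =>
        Finset.mem_product.mpr ⟨Finset.mem_image_of_mem _ hp, Finset.mem_univ _⟩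
      have a2 := Finset.card_le_card a1
      rw [Finset.card_product, Finset.card_univ, Fintype.card_bool] at a2
      have a3 : K * s.image Prod.fst ⊆ s.biUnion fun p : H × Bool => K.image fun k => k * p.1 := by
        intro y hy
        obtain ⟨k, hk, x, hx, rfl⟩ := Finset.mem_mul.mp hy
        obtain ⟨p, hp, rfl⟩ := Finset.mem_image.mp hx
        exact Finset.mem_biUnion.mpr ⟨p, hp, Finset.mem_image_of_mem _ hk⟩
      have a4 := Finset.card_le_card a3
      have a5 := hc (s.image Prod.fst)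
      omega
  have key : ∀ b : Bool, m ((fun x => f (x, b)) '' Set.univ) = 1 := fun b => by
    rw [m_image m hadd hinv (fun x => f (x, b)) (fun x y e => (Prod.ext_iff.mp (hf e)).1) K
      Set.univ fun x _ => by
        obtain ⟨k, hk, e⟩ := Finset.mem_image.mp (hm (x, b))
        exact ⟨k, hk, e.symm⟩, h1]
  have hd : Disjoint ((fun x => f (x, true)) '' Set.univ) ((fun x => f (x, false)) '' Set.univ) :=
    Set.disjoint_left.mpr fun _ ⟨x, _, e1⟩ ⟨y, _, e2⟩ => by
      have := (Prod.ext_iff.mp (hf (e1.trans e2.symm))).2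
      simp at this
  have e1 := hadd _ _ hd
  have e2 := hadd _ _ (disjoint_compl_right (a := (fun x => f (x, true)) '' Set.univ ∪
    (fun x => f (x, false)) '' Set.univ))
  rw [Set.union_compl_self, h1, e1, key, key] at e2
  have := h0 ((fun x => f (x, true)) '' Set.univ ∪ (fun x => f (x, false)) '' Set.univ)ᶜ
  linarith

/-- Invariant measure gives sets of small growth. -/
theorem small_growth {H : Type} [Group H] [DecidableEq H] (h : Amen H) (T : Finset H)
    (hT : T.Nonempty) (η : ℝ) (hη : 0 < η) :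
    ∃ F : Finset H, F.Nonempty ∧ ((T * F).card : ℝ) ≤ (1 + η) * F.card := by
  by_contra hc
  push Not at hc
  have grow : ∀ (n : ℕ) (F : Finset H), F.Nonempty →
      (1 + η) ^ n * (F.card : ℝ) ≤ (T ^ n * F).card := by
    intro n F hF
    induction n with
    | zero => simp
    | succ n ih =>
      have hne : (T ^ n * F).Nonempty := (hT.pow).mul hF
      have := hc _ hne
      rw [pow_succ' T, mul_assoc T, pow_succ' (1 + η), mul_assoc]
      exact (mul_le_mul_of_nonneg_left ih (by linarith)).trans this.le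
  obtain ⟨n, hn⟩ := pow_unbounded_of_one_lt (2 : ℝ) (show 1 < 1 + η by linarith)
  obtain ⟨F, hF⟩ := no_double h (T ^ n)
  have hne : F.Nonempty := Finset.card_pos.mp (by omega)
  have a1 := grow n F hne
  have a2 : ((T ^ n * F).card : ℝ) < 2 * F.card := by exact_mod_cast hF
  have a3 : (0 : ℝ) < F.card := by exact_mod_cast hne.card_pos
  nlinarith

/-- Square summable real functions. -/
abbrev L2 (G : Type) : Type := lp (fun _ : G => ℝ) 2

theorem two_pos' : 0 < (2 : ENNReal).toReal := by simp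

/-- Left translation. -/
noncomputable def tr {G : Type} [Group G] (g : G) : Module.End ℝ (L2 G) where
  toFun f := ⟨fun x => f (g⁻¹ * x), (memℓp_gen_iff two_pos').mpr
    ((Equiv.mulLeft g⁻¹).summable_iff.mpr ((memℓp_gen_iff two_pos').mp (lp.memℓp f)))⟩
  map_add' _ _ := rfl
  map_smul' _ _ := rfl

theorem tr_apply {G : Type} [Group G] (g : G) (f : L2 G) (x : G) : tr g f x = f (g⁻¹ * x) := rfl

/-- The left regular representation. -/
noncomputable def reg (G : Type) [Group G] : G →* Module.End ℝ (L2 G) where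
  toFun := tr
  map_one' := LinearMap.ext fun f => lp.ext (funext fun x => by simp [tr_apply])
  map_mul' a b := LinearMap.ext fun f => lp.ext (funext fun x => by
    simp [tr_apply, mul_assoc])

theorem reg_apply {G : Type} [Group G] (g : G) (f : L2 G) (x : G) :
    reg G g f x = f (g⁻¹ * x) := rfl

theorem reg_iso (G : Type) [Group G] : Iso (reg G) := fun g f => by
  rw [lp.norm_eq_tsum_rpow two_pos', lp.norm_eq_tsum_rpow two_pos']
  congr 1
  exact (Equiv.mulLeft g⁻¹).tsum_eq fun x => ‖f x‖ ^ (2 : ENNReal).toReal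

/-- Indicator of a finite set. -/
noncomputable def ind {G : Type} [DecidableEq G] (F : Finset G) : L2 G :=
  ∑ x ∈ F, lp.single 2 x (1 : ℝ)

theorem ind_apply {G : Type} [DecidableEq G] (F : Finset G) (y : G) :
    ind F y = if y ∈ F then 1 else 0 := by
  rw [ind, lp.coeFn_sum, Finset.sum_apply]
  simp only [lp.coeFn_single]
  exact Finset.sum_pi_single y (fun _ => (1 : ℝ)) F

theorem inner_ind {G : Type} [DecidableEq G] (A B : Finset G) :
    inner ℝ (ind A) (ind B) = ((A ∩ B).card : ℝ) := by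
  rw [ind, sum_inner]
  simp only [lp.inner_single_left, ind_apply]
  simp [Finset.sum_ite_mem]

theorem reg_ind {G : Type} [Group G] [DecidableEq G] (g : G) (F : Finset G) :
    reg G g (ind F) = ind (g • F) := lp.ext (funext fun x => by
  rw [reg_apply, ind_apply, ind_apply]
  simp only [Finset.mem_smul_finset, smul_eq_mul]
  congr 1
  exact propext ⟨fun h => ⟨_, h, by simp⟩, fun ⟨y, hy, e⟩ => by simpa [← e] using hy⟩)

theorem err_sq {G : Type} [Group G] [DecidableEq G] (g : G) (F : Finset G) (c : ℝ)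
    (hc : c ^ 2 * F.card = 1) :
    err (reg G) g (c • ind F) ^ 2 = 2 - 2 * c ^ 2 * ((g • F ∩ F).card : ℝ) := by
  have h1 : ‖ind F‖ ^ 2 = F.card := by
    rw [← real_inner_self_eq_norm_sq, inner_ind, Finset.inter_self]
  rw [err, norm_sub_sq_real, reg_iso, map_smul, reg_ind, real_inner_smul_left,
    real_inner_smul_right, inner_ind, norm_smul, mul_pow, h1, Real.norm_eq_abs, sq_abs, hc]
  ring

end Folner

open scoped Pointwise in
theorem folner : FolnerStmt := by
  classical
  intro G _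
  refine ⟨Folner.L2 G, inferInstance, inferInstance, Folner.reg G, Folner.reg_iso G, ?_⟩
  intro P hP S hS hSP ε hε
  have hfin : (P.subtype ⁻¹' S).Finite := hS.preimage P.subtype_injective.injOn
  obtain ⟨F₀, hne, hF⟩ := Folner.small_growth hP (insert 1 hfin.toFinset)
    (Finset.insert_nonempty _ _) (ε ^ 2 / 2) (by positivity)
  set F : Finset G := F₀.image P.subtype with hFd
  have hcard : F.card = F₀.card := Finset.card_image_of_injective _ P.subtype_injective
  have hpos : (0 : ℝ) < F.card := by rw [hcard]; exact_mod_cast hne.card_pos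
  set c : ℝ := (Real.sqrt F.card)⁻¹ with hcd
  have hc : c ^ 2 * F.card = 1 := by
    rw [hcd, inv_pow, Real.sq_sqrt hpos.le, inv_mul_cancel₀ hpos.ne']
  refine ⟨c • Folner.ind F, ?_, fun s hs => ?_, ?_⟩
  · have h1 : ‖Folner.ind F‖ ^ 2 = F.card := by
      rw [← real_inner_self_eq_norm_sq, Folner.inner_ind, Finset.inter_self]
    have h2 : ‖c • Folner.ind F‖ ^ 2 = 1 := by
      rw [norm_smul, mul_pow, h1, Real.norm_eq_abs, sq_abs, hc]
    exact (pow_eq_one_iff_of_nonneg (norm_nonneg _) two_ne_zero).mp h2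
  · have a1 : s • F ∪ F ⊆ (insert 1 hfin.toFinset * F₀).image P.subtype := by
      intro y hy
      rcases Finset.mem_union.mp hy with hy | hy
      · obtain ⟨x, hx, rfl⟩ := Finset.mem_smul_finset.mp hy
        obtain ⟨x₀, hx₀, rfl⟩ := Finset.mem_image.mp hx
        exact Finset.mem_image.mpr ⟨⟨s, hSP hs⟩ * x₀, Finset.mul_mem_mul
          (Finset.mem_insert_of_mem (hfin.mem_toFinset.mpr hs)) hx₀, rfl⟩
      · obtain ⟨x₀, hx₀, rfl⟩ := Finset.mem_image.mp hy
        exact Finset.mem_image.mpr ⟨1 * x₀, Finset.mul_mem_mul (Finset.mem_insert_self _ _) hx₀,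
          by simp⟩
    have a2 : ((s • F ∪ F).card : ℝ) ≤ (1 + ε ^ 2 / 2) * F.card := by
      rw [hcard]
      refine le_trans ?_ hF
      exact_mod_cast (Finset.card_le_card a1).trans Finset.card_image_le
    have a3 : ((s • F ∪ F).card : ℝ) + (s • F ∩ F).card = F.card + F.card := by
      have := Finset.card_union_add_card_inter (s • F) F
      rw [Finset.card_smul_finset] at this
      exact_mod_cast this
    have a4 := Folner.err_sq s F c hc
    have a5 : (1 - ε ^ 2 / 2) * F.card ≤ ((s • F ∩ F).card : ℝ) := by linarith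
    have a6 := mul_le_mul_of_nonneg_left a5 (sq_nonneg c)
    have a7 : c ^ 2 * ((1 - ε ^ 2 / 2) * F.card) = 1 - ε ^ 2 / 2 := by
      rw [mul_left_comm, hc, mul_one]
    exact abs_le_of_sq_le_sq' (by linarith) hε.le |>.2
  · refine (F * F⁻¹).finite_toSet.subset fun g hg => ?_
    have a4 := Folner.err_sq g F c hc
    have a5 : err (Folner.reg G) g (c • Folner.ind F) ≤ 1 := hg
    have a6 := err_nonneg (Folner.reg G) g (c • Folner.ind F)
    have hn : (g • F ∩ F).Nonempty := by
      rw [Finset.nonempty_iff_ne_empty]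
      intro e
      rw [e] at a4
      simp only [Finset.card_empty, Nat.cast_zero, mul_zero, sub_zero] at a4
      nlinarith
    obtain ⟨y, hy⟩ := hn
    obtain ⟨hy1, hy2⟩ := Finset.mem_inter.mp hy
    obtain ⟨x, hx, rfl⟩ := Finset.mem_smul_finset.mp hy1
    exact Finset.mem_coe.mpr (Finset.mem_mul.mpr ⟨g • x, hy2, x⁻¹, Finset.inv_mem_inv hx, by simp⟩)

end Pool.Agent.PolNA

end MrgPart3

-- marker of a merged file
example : 731051 + 594518 = 731051 + 594518 := rfl
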