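import Pool.Agent.PolNA.Defs
import Pool.Agent.PolNA.Folner

-- ======== part 0: formerly Pool.Agent.PolNA.Model
section MrgPart0

set_option autoImplicit false

namespace Pool.Agent.PolNA

section Build

variable {X : Type}

/-- Act on the first letter. -/
def rootF (s : Equiv.Perm X) : List X → List X
  | [] => []
  | x :: w => s x :: w

/-- Act below each letter. -/
def spreadF (u : X → Equiv.Perm (List X)) : List X → List X
  | [] => []
  | x :: w => x :: u x w

theorem rootF_mul (s t : Equiv.Perm X) (w : List X) : rootF (s * t) w = rootF s (rootF t w) := by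
  cases w <;> rfl

theorem rootF_one (w : List X) : rootF 1 w = w := by
  cases w <;> rfl

theorem spreadF_mul (s t : X → Equiv.Perm (List X)) (w : List X) :
    spreadF (s * t) w = spreadF s (spreadF t w) := by
  cases w <;> rfl

theorem spreadF_one (w : List X) : spreadF 1 w = w := by
  cases w <;> rfl

/-- A multiplicative family of maps is a homomorphism to the permutation group. -/
def homOf {G Y : Type} [Group G] (f : G → Y → Y) (h1 : ∀ y, f 1 y = y)
    (hm : ∀ a b y, f (a * b) y = f a (f b y)) : G →* Equiv.Perm Y where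
  toFun a := ⟨f a, f a⁻¹, fun y => by rw [← hm, inv_mul_cancel, h1],
    fun y => by rw [← hm, mul_inv_cancel, h1]⟩
  map_one' := Equiv.ext h1
  map_mul' a b := Equiv.ext (hm a b)

/-- The rooted action. -/
def rootH : Equiv.Perm X →* Equiv.Perm (List X) := homOf rootF rootF_one rootF_mul

/-- The action below the letters. -/
def spreadH : (X → Equiv.Perm (List X)) →* Equiv.Perm (List X) :=
  homOf spreadF spreadF_one spreadF_mul

theorem rootH_nil (s : Equiv.Perm X) : rootH s [] = [] := rfl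

theorem rootH_cons (s : Equiv.Perm X) (x : X) (w : List X) : rootH s (x :: w) = s x :: w := rfl

theorem spreadH_nil (u : X → Equiv.Perm (List X)) : spreadH u [] = [] := rfl

theorem spreadH_cons (u : X → Equiv.Perm (List X)) (x : X) (w : List X) :
    spreadH u (x :: w) = x :: u x w := rfl

theorem rootH_tree (s : Equiv.Perm X) : IsTreeAut (rootH s) := by
  refine ⟨fun v => by cases v <;> rfl, fun u v => ?_⟩
  cases u with
  | nil => simp [rootH_nil]
  | cons x u =>
    cases v with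
    | nil => simp [rootH_nil, rootH_cons]
    | cons y v => simp [rootH_cons, List.cons_prefix_cons]

theorem spreadH_tree {u : X → Equiv.Perm (List X)} (hu : ∀ x, IsTreeAut (u x)) :
    IsTreeAut (spreadH u) := by
  refine ⟨fun v => ?_, fun v v' => ?_⟩
  · cases v with
    | nil => rfl
    | cons x v => simp [spreadH_cons, (hu x).1]
  · cases v with
    | nil => simp [spreadH_nil]
    | cons x v =>
      cases v' with
      | nil => simp [spreadH_nil, spreadH_cons]
      | cons y v' =>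
        simp only [spreadH_cons, List.cons_prefix_cons]
        refine and_congr_right fun hxy => ?_
        subst hxy
        exact (hu x).2 _ _

/-- A recursive description of the sections gives finite-state and polynomial activity. -/
theorem pol_of_rec [Finite X] {g h : Equiv.Perm (List X)} (tg : IsTreeAut g) (th : IsTreeAut h)
    (hf : IsFiniteState h) (hp : IsPolyActive h) (o e : List X) (hb : 0 < o.length)
    (hoe : e.length ≤ o.length)
    (H : ∀ v : List X, o.length ≤ v.length →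
      (∃ v', v = o ++ v' ∧ ∀ s, IsSection g v' s → IsSection g v s) ∨
      (∃ v', v = e ++ v' ∧ ∀ s, IsSection h v' s → IsSection g v s) ∨ IsSection g v 1) :
    IsFiniteState g ∧ IsPolyActive g := by
  constructor
  · choose sec hsec using tg.exists_section
    have key : ∀ n, ∀ v : List X, v.length ≤ n → sec v ∈ sec '' {v | v.length < o.length} ∪
        insert 1 {s | ∃ v, IsSection h v s} := by
      intro n
      induction n with
      | zero => exact fun v hv => Or.inl ⟨v, show v.length < _ by omega, rfl⟩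
      | succ n ih =>
        intro v hv
        by_cases hl : v.length < o.length
        · exact Or.inl ⟨v, hl, rfl⟩
        rcases H v (by omega) with ⟨v', rfl, h1⟩ | ⟨v', rfl, h1⟩ | h1
        · rw [(hsec _).unique (h1 _ (hsec v'))]
          exact ih v' (by simp only [List.length_append] at hv; omega)
        · obtain ⟨s, hs⟩ := th.exists_section v'
          exact Or.inr (Or.inr ⟨v', by rwa [(hsec _).unique (h1 _ hs)]⟩)
        · exact Or.inr (Or.inl ((hsec _).unique h1))
    refine (((List.finite_length_lt X o.length).image sec).union (Set.Finite.insert 1 hf)).subset ?_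
    rintro s ⟨v, hv⟩
    rw [hv.unique (hsec v)]
    exact key _ v le_rfl
  · obtain ⟨C, d, hC⟩ := hp
    obtain ⟨C0, hC0⟩ := ((Set.finite_lt_nat o.length).image (activity g)).bddAbove
    have step : ∀ n, activity g (n + o.length) ≤
        activity g n + activity h (n + o.length - e.length) := by
      intro n
      have hsub : {v : List X | v.length = n + o.length ∧ ¬ IsSection g v 1} ⊆
          (fun u => o ++ u) '' {v : List X | v.length = n ∧ ¬ IsSection g v 1} ∪
            (fun u => e ++ u) ''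
              {v : List X | v.length = n + o.length - e.length ∧ ¬ IsSection h v 1} := by
        rintro v ⟨hl, hv⟩
        rcases H v (by omega) with ⟨v', rfl, h1⟩ | ⟨v', rfl, h1⟩ | h1
        · exact Or.inl ⟨v', ⟨by simp only [List.length_append] at hl; omega,
            fun h' => hv (h1 _ h')⟩, rfl⟩
        · exact Or.inr ⟨v', ⟨by simp only [List.length_append] at hl; omega,
            fun h' => hv (h1 _ h')⟩, rfl⟩
        · exact absurd h1 hv
      refine (Set.ncard_le_ncard hsub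
        (((active_finite _ n).image _).union ((active_finite h _).image _))).trans ?_
      refine (Set.ncard_union_le _ _).trans ?_
      exact Nat.add_le_add (Set.ncard_image_le (active_finite _ n))
        (Set.ncard_image_le (active_finite h _))
    refine ⟨C0 + C, d + 1, fun n => ?_⟩
    induction n using Nat.strong_induction_on with
    | _ n ih =>
      by_cases hn : n < o.length
      · exact (hC0 ⟨n, hn, rfl⟩).trans ((Nat.le_add_right _ _).trans
          (Nat.le_mul_of_pos_right _ (by positivity)))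
      obtain ⟨m, rfl⟩ : ∃ m, n = m + o.length := ⟨n - o.length, by omega⟩
      set N := m + o.length with hN
      have h1 : (m + 1) ^ (d + 1) ≤ (N + 1) ^ d * N := by
        rw [pow_succ]
        exact Nat.mul_le_mul (Nat.pow_le_pow_left (by omega) d) (by omega)
      have h2 : (N - e.length + 1) ^ d ≤ (N + 1) ^ d := Nat.pow_le_pow_left (by omega) d
      calc activity g N ≤ activity g m + activity h (N - e.length) := step m
        _ ≤ (C0 + C) * ((N + 1) ^ d * N) + (C0 + C) * (N + 1) ^ d :=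
          Nat.add_le_add ((ih m (by omega)).trans (Nat.mul_le_mul_left _ h1))
            ((hC _).trans (Nat.mul_le_mul (Nat.le_add_left _ _) h2))
        _ = (C0 + C) * (N + 1) ^ (d + 1) := by ring

/-- Automorphisms with trivial sections on level `n`. -/
def Fn (X : Type) (n : ℕ) : Subgroup (Equiv.Perm (List X)) where
  carrier := {g | IsTreeAut g ∧ ∀ v : List X, v.length = n → IsSection g v 1}
  mul_mem' := fun {a b} ha hb => ⟨ha.1.mul hb.1, fun v hv => by
    simpa using (ha.2 (b v) ((hb.1.1 v).trans hv)).mul (hb.2 v hv)⟩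
  one_mem' := ⟨IsTreeAut.one, fun v _ => IsSection.one v⟩
  inv_mem' := fun {a} ha => ⟨ha.1.inv, fun v hv => by
    have := (ha.2 (a⁻¹ v) ((ha.1.inv.1 v).trans hv)).inv
    rwa [app_inv, inv_one] at this⟩

theorem Fn_section {n : ℕ} {g : Equiv.Perm (List X)} (hg : g ∈ Fn X n) {v : List X}
    (hv : n ≤ v.length) : IsSection g v 1 := fun w => by
  have h1 := hg.2 (v.take n) (by simp [hv])
  have h2 := h1 (v.drop n ++ w)
  have h3 := h1 (v.drop n)
  rw [← List.append_assoc, List.take_append_drop] at h2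
  rw [List.take_append_drop] at h3
  rw [h2, h3]
  simp

instance finite_Fn [Finite X] (n : ℕ) : Finite (Fn X n) := by
  have : Finite {v : List X | v.length ≤ n} := (List.finite_length_le X n).to_subtype
  refine Finite.of_injective (fun (g : Fn X n) (v : {v : List X | v.length ≤ n}) =>
    (⟨g.1 v, (g.2.1.1 v).trans_le v.2⟩ : {v : List X | v.length ≤ n})) fun g h e => ?_
  have e' : ∀ v : List X, v.length ≤ n → g.1 v = h.1 v := fun v hv =>
    congrArg Subtype.val (congrFun e ⟨v, hv⟩)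
  refine Subtype.ext (Equiv.ext fun v => ?_)
  by_cases hv : v.length ≤ n
  · exact e' v hv
  · have hl : (v.take n).length = n := by simp; omega
    rw [← List.take_append_drop n v, g.2.2 _ hl, h.2.2 _ hl, e' _ hl.le]

theorem rootH_mem_Fn (s : Equiv.Perm X) (n : ℕ) : rootH s ∈ Fn X (n + 1) :=
  ⟨rootH_tree s, fun v hv => by
    cases v with
    | nil => simp at hv
    | cons x v => exact fun _ => rfl⟩

variable [DecidableEq X]

/-- Act below the vertex `w`. -/
def aw : List X → (Equiv.Perm (List X) →* Equiv.Perm (List X))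
  | [] => MonoidHom.id _
  | x :: w => (spreadH.comp (MonoidHom.mulSingle (fun _ : X => Equiv.Perm (List X)) x)).comp (aw w)

theorem aw_cons (x : X) (w : List X) (h : Equiv.Perm (List X)) :
    aw (x :: w) h = spreadH (Pi.mulSingle x (aw w h)) := rfl

theorem aw_append (u w : List X) (h : Equiv.Perm (List X)) : aw (u ++ w) h = aw u (aw w h) := by
  induction u with
  | nil => rfl
  | cons x u ih => rw [List.cons_append, aw_cons, aw_cons, ih]

theorem aw_pre (w : List X) (h : Equiv.Perm (List X)) (u : List X) :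
    aw w h (w ++ u) = w ++ h u := by
  induction w with
  | nil => rfl
  | cons x w ih => rw [List.cons_append, aw_cons, spreadH_cons, Pi.mulSingle_eq_same, ih]; rfl

theorem aw_not {w v : List X} (hv : ¬ w <+: v) (h : Equiv.Perm (List X)) : aw w h v = v := by
  induction w generalizing v with
  | nil => simp at hv
  | cons x w ih =>
    cases v with
    | nil => rfl
    | cons y v =>
      rw [aw_cons, spreadH_cons]
      by_cases hy : y = x
      · subst hy
        rw [Pi.mulSingle_eq_same, ih fun h' => hv (List.cons_prefix_cons.mpr ⟨rfl, h'⟩)]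
      · rw [Pi.mulSingle_eq_of_ne hy]; rfl

theorem aw_tree (w : List X) {h : Equiv.Perm (List X)} (th : IsTreeAut h) :
    IsTreeAut (aw w h) := by
  induction w with
  | nil => exact th
  | cons x w ih =>
    rw [aw_cons]
    refine spreadH_tree fun y => ?_
    by_cases hy : y = x
    · subst hy; rwa [Pi.mulSingle_eq_same]
    · rw [Pi.mulSingle_eq_of_ne hy]; exact IsTreeAut.one

theorem aw_injective (w : List X) : Function.Injective (aw w) := fun g h e =>
  Equiv.ext fun u => List.append_cancel_left (as := w) (by rw [← aw_pre, ← aw_pre, e])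

omit [DecidableEq X] in
theorem not_pre {w v : List X} (hl : w.length ≤ v.length) (hv : ¬ w <+: v) (u : List X) :
    ¬ w <+: v ++ u := fun h => hv (List.prefix_of_prefix_length_le h (List.prefix_append v u) hl)

omit [DecidableEq X] in
theorem not_pre_ne {w v : List X} (hl : w.length = v.length) (hv : w ≠ v) (u : List X) :
    ¬ w <+: v ++ u := not_pre hl.le (fun h => hv (h.eq_of_length hl)) u

theorem aw_section (w : List X) {h s : Equiv.Perm (List X)} {v : List X} (hv : IsSection h v s) :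
    IsSection (aw w h) (w ++ v) s := fun u => by
  rw [List.append_assoc, aw_pre, aw_pre, hv u, List.append_assoc]

theorem aw_section_not {w v : List X} (hl : w.length ≤ v.length) (hv : ¬ w <+: v)
    (h : Equiv.Perm (List X)) : IsSection (aw w h) v 1 := fun u => by
  rw [aw_not hv, aw_not (not_pre hl hv u)]; rfl

theorem aw_mem_Fn (w : List X) {n : ℕ} {h : Equiv.Perm (List X)} (hh : h ∈ Fn X n) :
    aw w h ∈ Fn X (w.length + n) :=
  ⟨aw_tree w hh.1, fun v hv => by
    by_cases hw : w <+: v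
    · obtain ⟨v', rfl⟩ := hw
      exact aw_section w (hh.2 v' (by simpa using hv))
    · exact aw_section_not (by omega) hw h⟩

theorem aw_commute {w v : List X} (hl : w.length = v.length) (hv : w ≠ v)
    (g h : Equiv.Perm (List X)) : Commute (aw w g) (aw v h) := by
  refine Equiv.ext fun u => ?_
  simp only [Equiv.Perm.mul_apply]
  by_cases h1 : w <+: u
  · obtain ⟨u, rfl⟩ := h1
    rw [aw_not (not_pre_ne hl.symm hv.symm u), aw_pre, aw_not (not_pre_ne hl.symm hv.symm _)]
  · by_cases h2 : v <+: u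
    · obtain ⟨u, rfl⟩ := h2
      rw [aw_not h1, aw_pre, aw_not (not_pre_ne hl hv _)]
    · rw [aw_not h1, aw_not h2, aw_not h1]

theorem conj_aw {g : Equiv.Perm (List X)} (tg : IsTreeAut g) {w : List X} (hw : IsSection g w 1)
    (h : Equiv.Perm (List X)) : g * aw w h * g⁻¹ = aw (g w) h := by
  refine Equiv.ext fun u => ?_
  obtain ⟨u, rfl⟩ := g.surjective u
  simp only [Equiv.Perm.mul_apply, inv_app]
  by_cases h1 : w <+: u
  · obtain ⟨u, rfl⟩ := h1
    rw [aw_pre, hw, hw, aw_pre]; rfl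
  · rw [aw_not h1, aw_not fun h' => h1 ((tg.2 _ _).1 h')]

/-- Act below every vertex `o ... o e`. -/
def liftF (o e : List X) (h : Equiv.Perm (List X)) (w : List X) : List X :=
  if _ : o ≠ [] ∧ o <+: w then o ++ liftF o e h (w.drop o.length) else aw e h w
termination_by w.length
decreasing_by
  rename_i H
  have := H.2.length_le
  have := List.length_pos_iff.mpr H.1
  simp only [List.length_drop]
  omega

theorem liftF_o {o : List X} (ho : o ≠ []) (e : List X) (h : Equiv.Perm (List X)) (w : List X) :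
    liftF o e h (o ++ w) = o ++ liftF o e h w := by
  rw [liftF, dif_pos ⟨ho, List.prefix_append _ _⟩, List.drop_left]

theorem liftF_not {o w : List X} (hw : ¬ o <+: w) (e : List X) (h : Equiv.Perm (List X)) :
    liftF o e h w = aw e h w := by
  rw [liftF, dif_neg fun h' => hw h'.2]

omit [DecidableEq X] in
theorem ray_induction {o : List X} (ho : o ≠ []) {P : List X → Prop}
    (h1 : ∀ w, P w → P (o ++ w)) (h2 : ∀ w, ¬ o <+: w → P w) (w : List X) : P w := by
  induction hn : w.length using Nat.strong_induction_on generalizing w with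
  | _ n ih =>
    by_cases hw : o <+: w
    · obtain ⟨w', rfl⟩ := hw
      have := List.length_pos_iff.mpr ho
      exact h1 _ (ih w'.length (by simp only [List.length_append] at hn; omega) w' rfl)
    · exact h2 w hw

theorem aw_keep {o e w : List X} (hl : o.length = e.length) (hoe : o ≠ e) (hw : ¬ o <+: w)
    (h : Equiv.Perm (List X)) : ¬ o <+: aw e h w := by
  by_cases h1 : e <+: w
  · obtain ⟨u, rfl⟩ := h1
    rw [aw_pre]
    exact not_pre_ne hl hoe _
  · rwa [aw_not h1]

section Lift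

variable {o e : List X} (ho : o ≠ []) (hl : o.length = e.length) (hoe : o ≠ e)

/-- The action along the ray of `o`. -/
def liftH : Equiv.Perm (List X) →* Equiv.Perm (List X) :=
  homOf (liftF o e)
    (ray_induction ho (fun w h => by rw [liftF_o ho, h]) fun w hw => by
      rw [liftF_not hw, map_one]; rfl)
    fun a b => ray_induction ho (fun w h => by rw [liftF_o ho, liftF_o ho, liftF_o ho, h])
      fun w hw => by
        rw [liftF_not hw, liftF_not hw, liftF_not (aw_keep hl hoe hw b), map_mul]; rfl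

theorem liftH_o (h : Equiv.Perm (List X)) (w : List X) :
    liftH ho hl hoe h (o ++ w) = o ++ liftH ho hl hoe h w := liftF_o ho e h w

theorem liftH_not (h : Equiv.Perm (List X)) {w : List X} (hw : ¬ o <+: w) :
    liftH ho hl hoe h w = aw e h w := liftF_not hw e h

theorem liftH_eq (h : Equiv.Perm (List X)) :
    liftH ho hl hoe h = aw e h * aw o (liftH ho hl hoe h) := by
  refine Equiv.ext fun w => ?_
  rw [Equiv.Perm.mul_apply]
  by_cases hw : o <+: w
  · obtain ⟨w, rfl⟩ := hw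
    rw [liftH_o, aw_pre, aw_not (not_pre_ne hl.symm hoe.symm _)]
  · rw [liftH_not _ _ _ _ hw, aw_not hw]

theorem liftH_tree {h : Equiv.Perm (List X)} (th : IsTreeAut h) :
    IsTreeAut (liftH ho hl hoe h) := by
  have key : ∀ n, ∃ p, IsTreeAut p ∧ ∀ w : List X, w.length < n → liftH ho hl hoe h w = p w := by
    intro n
    induction n with
    | zero => exact ⟨1, IsTreeAut.one, fun _ hw => by omega⟩
    | succ n ih =>
      obtain ⟨p, tp, hp⟩ := ih
      refine ⟨aw e h * aw o p, (aw_tree e th).mul (aw_tree o tp), fun w hw => ?_⟩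
      rw [liftH_eq, Equiv.Perm.mul_apply, Equiv.Perm.mul_apply]
      congr 1
      by_cases h1 : o <+: w
      · obtain ⟨w, rfl⟩ := h1
        have := List.length_pos_iff.mpr ho
        rw [aw_pre, aw_pre, hp w (by simp only [List.length_append] at hw; omega)]
      · rw [aw_not h1, aw_not h1]
  refine ⟨fun v => ?_, fun u v => ?_⟩
  · obtain ⟨p, tp, hp⟩ := key (v.length + 1)
    rw [hp v (by omega), tp.1]
  · obtain ⟨p, tp, hp⟩ := key (u.length + v.length + 1)
    rw [hp u (by omega), hp v (by omega), tp.2]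

end Lift

end Build

section InPol

variable {k : ℕ}

theorem Fn_le_Pol (x : Fin k) (n : ℕ) : Fn (Fin k) n ≤ Pol k := fun g hg =>
  ⟨hg.1, pol_of_rec hg.1 IsTreeAut.one IsFiniteState.one IsPolyActive.one
    (List.replicate (n + 1) x) [] (by simp) (by simp) fun v hv =>
      Or.inr (Or.inr (Fn_section hg (by simp at hv; omega)))⟩

theorem lift_mem_Pol {o e : List (Fin k)} (ho : o ≠ []) (hl : o.length = e.length) (hoe : o ≠ e)
    {h : Equiv.Perm (List (Fin k))} (hh : h ∈ Pol k) : liftH ho hl hoe h ∈ Pol k := by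
  refine ⟨liftH_tree ho hl hoe hh.1, pol_of_rec (liftH_tree ho hl hoe hh.1) hh.1 hh.2.1 hh.2.2 o e
    (List.length_pos_iff.mpr ho) hl.ge fun v hv => ?_⟩
  by_cases h1 : o <+: v
  · obtain ⟨v, rfl⟩ := h1
    refine Or.inl ⟨v, rfl, fun s hs u => ?_⟩
    rw [List.append_assoc, liftH_o, liftH_o, hs u, List.append_assoc]
  · have e1 : ∀ s, IsSection (aw e h) v s → IsSection (liftH ho hl hoe h) v s := fun s hs u => by
      rw [liftH_not _ _ _ _ h1, liftH_not _ _ _ _ (not_pre hv h1 u), hs u]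
    by_cases h2 : e <+: v
    · obtain ⟨v, rfl⟩ := h2
      exact Or.inr (Or.inl ⟨v, rfl, fun s hs => e1 s (aw_section e hs)⟩)
    · exact Or.inr (Or.inr (e1 1 (aw_section_not (by omega) h2 h)))

end InPol

end Pool.Agent.PolNA

end MrgPart0

-- ======== part 1: formerly Pool.Agent.PolNA.Tree
section MrgPart1

/-!
# Group-level facts in the abstract self-similar structure
-/

set_option autoImplicit false

namespace Pool.Agent.PolNA

open scoped commutatorElement

theorem mem_sup_norm {G : Type} [Group G] {H N : Subgroup G}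
    (hn : ∀ h ∈ H, ∀ n ∈ N, h * n * h⁻¹ ∈ N) {x : G} :
    x ∈ H ⊔ N ↔ ∃ h ∈ H, ∃ n ∈ N, x = h * n := by
  refine ⟨fun hx => ?_, fun ⟨h, hh, n, hn', e⟩ =>
    e ▸ mul_mem (Subgroup.mem_sup_left hh) (Subgroup.mem_sup_right hn')⟩
  let P : Subgroup G :=
    { carrier := {x | ∃ h ∈ H, ∃ n ∈ N, x = h * n}
      mul_mem' := by
        rintro _ _ ⟨h, hh, n, hn1, rfl⟩ ⟨h', hh', n', hn2, rfl⟩
        refine ⟨h * h', mul_mem hh hh', h'⁻¹ * n * h'⁻¹⁻¹ * n',
          mul_mem (hn _ (inv_mem hh') _ hn1) hn2, by group⟩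
      one_mem' := ⟨1, one_mem _, 1, one_mem _, by simp⟩
      inv_mem' := by
        rintro _ ⟨h, hh, n, hn1, rfl⟩
        exact ⟨h⁻¹, inv_mem hh, h * n⁻¹ * h⁻¹, hn _ hh _ (inv_mem hn1), by group⟩ }
  exact (sup_le (fun h hh => ⟨h, hh, 1, one_mem _, by simp⟩)
    (fun n hn' => ⟨1, one_mem _, n, hn', by simp⟩) : H ⊔ N ≤ P) hx

theorem finite_sup_norm {G : Type} [Group G] {H N : Subgroup G} [Finite H] [Finite N]
    (hn : ∀ h ∈ H, ∀ n ∈ N, h * n * h⁻¹ ∈ N) : Finite ↥(H ⊔ N) := by
  refine Finite.of_surjective (fun p : H × N => (⟨p.1 * p.2,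
    mul_mem (Subgroup.mem_sup_left p.1.2) (Subgroup.mem_sup_right p.2.2)⟩ : ↥(H ⊔ N))) ?_
  rintro ⟨x, hx⟩
  obtain ⟨h, hh, n, hn', rfl⟩ := (mem_sup_norm hn).mp hx
  exact ⟨(⟨h, hh⟩, ⟨n, hn'⟩), rfl⟩

namespace TS

variable {X A G : Type} [DecidableEq X] [Group A] [MulAction A X] [Group G] (S : TS X A G)

theorem atx_apply (x : X) (h : G) : S.atx x h = S.spread (Pi.mulSingle x h) := rfl

theorem atx_commute {x y : X} (hxy : x ≠ y) (a b : G) : Commute (S.atx x a) (S.atx y b) :=
  (Pi.mulSingle_commute (f := fun _ : X => G) hxy a b).map S.spread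

theorem root_atx (σ : A) (x : X) (h : G) :
    S.root σ * S.atx x h = S.atx (σ • x) h * S.root σ := by
  rw [← mul_inv_eq_iff_eq_mul, atx_apply, S.conj, atx_apply]
  congr 1
  funext y
  by_cases hy : y = σ • x
  · subst hy; simp
  · rw [Pi.mulSingle_eq_of_ne hy, Pi.mulSingle_eq_of_ne]
    intro e
    exact hy (by rw [← e, smul_inv_smul])

theorem L_eq (h : G) : S.L h = S.atx S.e h * S.atx S.o (S.L h) := S.lift h

theorem sh_zero (g : G) : S.sh 0 g = g := rfl

theorem sh_succ (n : ℕ) (g : G) : S.sh (n + 1) g = S.atx S.o (S.sh n g) := rfl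

theorem sh_add (n m : ℕ) (g : G) : S.sh (n + m) g = S.sh n (S.sh m g) := by
  induction n with
  | zero => rw [Nat.zero_add]; rfl
  | succ n ih => rw [Nat.succ_add, sh_succ, ih]; rfl

theorem sh_succ' (n : ℕ) (g : G) : S.sh (n + 1) g = S.sh n (S.atx S.o g) := S.sh_add n 1 g

theorem fib_apply (l : ℕ) (x : X) (h : G) : S.fib l x h = S.sh l (S.atx x h) := rfl

theorem fib_succ (l : ℕ) (x : X) (h : G) : S.fib (l + 1) x h = S.atx S.o (S.fib l x h) := rfl

theorem fib_add (a l : ℕ) (x : X) (h : G) : S.fib (a + l) x h = S.sh a (S.fib l x h) :=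
  S.sh_add a l _

theorem phi_apply (l : ℕ) (σ : A) : S.phi l σ = S.sh l (S.root σ) := rfl

theorem phi_succ (l : ℕ) (σ : A) : S.phi (l + 1) σ = S.atx S.o (S.phi l σ) := rfl

theorem phi_add (a l : ℕ) (σ : A) : S.phi (a + l) σ = S.sh a (S.phi l σ) := S.sh_add a l _

theorem gen_succ (j : ℕ) (σ : G) : S.gen (j + 1) σ = S.L (S.gen j σ) := rfl

theorem fib_sh_commute {x : X} (hx : x ≠ S.o) {l n : ℕ} (hl : l < n) (h g : G) :
    Commute (S.fib l x h) (S.sh n g) := by
  obtain ⟨m, rfl⟩ := Nat.exists_eq_add_of_lt hl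
  rw [add_assoc, sh_add, fib_apply, sh_succ]
  exact (S.atx_commute hx _ _).map _

theorem fib_commute {x y : X} (hx : x ≠ S.o) (hy : y ≠ S.o) {l l' : ℕ} (hl : l ≠ l' ∨ x ≠ y)
    (h h' : G) : Commute (S.fib l x h) (S.fib l' y h') := by
  rcases lt_trichotomy l l' with h1 | rfl | h1
  · exact S.fib_sh_commute hx h1 _ _
  · exact (S.atx_commute (hl.resolve_left fun e => e rfl) _ _).map (S.sh l)
  · exact (S.fib_sh_commute hy h1 _ _).symm

theorem L_fib_z (h : G) (l : ℕ) (g : G) : Commute (S.L h) (S.fib l S.z g) := by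
  induction l with
  | zero =>
    rw [L_eq]
    exact (S.atx_commute S.ez _ _).mul_left (S.atx_commute S.oz _ _)
  | succ l ih =>
    rw [L_eq, fib_succ]
    exact (S.atx_commute S.oe.symm _ _).mul_left (ih.map _)

theorem phi_fib (l : ℕ) (σ : A) (x : X) (h : G) :
    S.phi l σ * S.fib l x h = S.fib l (σ • x) h * S.phi l σ := by
  rw [phi_apply, fib_apply, fib_apply, ← map_mul, ← map_mul, root_atx]

/-! ### Columns -/

/-- Elements commuting with everything placed below `o`. -/
def K : Subgroup G := Subgroup.centralizer (Set.range (S.atx S.o))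

theorem K_commute (k : S.K) (g : G) : Commute (k : G) (S.atx S.o g) :=
  (k.2 _ ⟨g, rfl⟩).symm

theorem atx_mem_K {x : X} (hx : x ≠ S.o) (h : G) : S.atx x h ∈ S.K := by
  rintro _ ⟨g, rfl⟩
  exact (S.atx_commute hx h g).symm

theorem root_mem_K {σ : A} (hσ : σ • S.o = S.o) : S.root σ ∈ S.K := by
  rintro _ ⟨g, rfl⟩
  rw [root_atx, hσ]

/-- The product over the levels `l < n` of `u l` placed below `o ^ l`. -/
def col : ℕ → ((ℕ → S.K) →* G)
  | 0 => 1
  | n + 1 =>
    { toFun := fun u => (u 0 : G) * S.atx S.o (col n fun l => u (l + 1))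
      map_one' := by
        have : (fun l => (1 : ℕ → S.K) (l + 1)) = 1 := rfl
        rw [this, map_one, map_one]; simp
      map_mul' := fun u v => by
        have : (fun l => (u * v) (l + 1)) = (fun l => u (l + 1)) * fun l => v (l + 1) := rfl
        rw [this, map_mul, map_mul, Pi.mul_apply, Subgroup.coe_mul, mul_assoc, mul_assoc,
          ← mul_assoc (v 0 : G), (S.K_commute (v 0) _).eq, mul_assoc] }

theorem col_zero (u : ℕ → S.K) : S.col 0 u = 1 := rfl

theorem col_succ (n : ℕ) (u : ℕ → S.K) :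
    S.col (n + 1) u = (u 0 : G) * S.atx S.o (S.col n fun l => u (l + 1)) := rfl

theorem col_sh_commute (n : ℕ) (u : ℕ → S.K) (g : G) : Commute (S.col n u) (S.sh n g) := by
  induction n generalizing u with
  | zero => exact Commute.one_left _
  | succ n ih =>
    rw [col_succ, sh_succ]
    exact (S.K_commute _ _).mul_left ((ih _).map _)

theorem col_single {n l : ℕ} (hl : l < n) (k : S.K) :
    S.col n (Pi.mulSingle l k) = S.sh l k := by
  induction n generalizing l with
  | zero => omega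
  | succ n ih =>
    rw [col_succ]
    rcases l with _ | l
    · have : (fun l => (Pi.mulSingle 0 k : ℕ → S.K) (l + 1)) = 1 := by
        funext l; simp
      rw [this, map_one, map_one]; simp [sh_zero]
    · have : (fun i => (Pi.mulSingle (l + 1) k : ℕ → S.K) (i + 1)) = Pi.mulSingle l k := by
        funext i; simp [Pi.mulSingle_apply]
      rw [this, ih (by omega), sh_succ]; simp

/-- `atx e` with values in `K`. -/
def eK : G →* S.K := (S.atx S.e).codRestrict S.K (S.atx_mem_K S.oe.symm)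

/-- The product over the levels `l < n` of `u l` placed below `o ^ l e`. -/
def colE (n : ℕ) : (ℕ → G) →* G := (S.col n).comp (S.eK.compLeft ℕ)

theorem colE_apply (n : ℕ) (u : ℕ → G) : S.colE n u = S.col n fun l => S.eK (u l) := rfl

theorem colE_single {n l : ℕ} (hl : l < n) (h : G) :
    S.colE n (Pi.mulSingle l h) = S.fib l S.e h := by
  have : (fun i => S.eK ((Pi.mulSingle l h : ℕ → G) i)) = Pi.mulSingle l (S.eK h) := by
    funext i
    by_cases hi : i = l
    · subst hi; simp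
    · simp [Pi.mulSingle_eq_of_ne hi]
  rw [colE_apply, this, S.col_single hl]; rfl

theorem L_eq_col (n : ℕ) (h : G) : S.L h = S.colE n (fun _ => h) * S.sh n (S.L h) := by
  induction n with
  | zero => simp [colE_apply, col_zero, sh_zero]
  | succ n ih =>
    rw [colE_apply, col_succ, sh_succ, mul_assoc, ← map_mul, ← colE_apply, ← ih]
    exact S.L_eq h

/-- The column of rooted permutations fixing `o`. -/
def colR (n : ℕ) (s : ℕ → A) (hs : ∀ l, s l • S.o = S.o) : G :=
  S.col n fun l => ⟨S.root (s l), S.root_mem_K (hs l)⟩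

theorem colR_fib (n : ℕ) (s : ℕ → A) (hs : ∀ l, s l • S.o = S.o) {x : X} (hx : x ≠ S.o) (l : ℕ)
    (h : G) : S.colR n s hs * S.fib l x h =
      S.fib l (if l < n then s l • x else x) h * S.colR n s hs := by
  induction n generalizing s l with
  | zero => simp [colR, col_zero]
  | succ n ih =>
    have e : S.colR (n + 1) s hs =
        S.root (s 0) * S.atx S.o (S.colR n (fun l => s (l + 1)) fun l => hs (l + 1)) := rfl
    rw [e]
    rcases l with _ | l
    · rw [if_pos (Nat.succ_pos n), fib_apply, fib_apply, sh_zero, sh_zero, mul_assoc,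
        ← (S.atx_commute hx _ _).eq, ← mul_assoc, root_atx, mul_assoc]
    · rw [fib_succ, fib_succ, mul_assoc, ← map_mul, ih, map_mul, ← mul_assoc,
        (S.K_commute ⟨_, S.root_mem_K (hs 0)⟩ _).eq, mul_assoc]
      simp only [Nat.succ_lt_succ_iff]

theorem sh_colR_fib (a n : ℕ) (s : ℕ → A) (hs : ∀ l, s l • S.o = S.o) {x : X} (hx : x ≠ S.o)
    (l : ℕ) (h : G) : S.sh a (S.colR n s hs) * S.fib l x h =
      S.fib l (if a ≤ l ∧ l < a + n then s (l - a) • x else x) h * S.sh a (S.colR n s hs) := by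
  by_cases hl : l < a
  · rw [if_neg (by omega)]
    exact (S.fib_sh_commute hx hl _ _).symm
  · obtain ⟨l, rfl⟩ := Nat.exists_eq_add_of_le (not_lt.mp hl)
    rw [fib_add, fib_add, ← map_mul, S.colR_fib n s hs hx, map_mul]
    simp

/-! ### Isolation of fibres -/

theorem iso_local (a b : G) :
    ⁅⁅S.atx S.e a, S.root S.c⁆, ⁅S.atx S.e b, (S.root S.c)⁻¹⁆⁆ = S.atx S.e ⁅a, b⁆ := by
  have h1 : ∀ (σ : A) (a : G), ⁅S.atx S.e a, S.root σ⁆ = S.atx S.e a * S.atx (σ • S.e) a⁻¹ := by
    intro σ a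
    rw [commutatorElement_def, mul_assoc (S.atx S.e a), ← map_inv, root_atx]; group
  have n1 : S.c • S.e ≠ S.e := S.c_e
  have n2 : S.c⁻¹ • S.e ≠ S.e := fun e => S.c_e (by rw [← e, smul_inv_smul, e])
  have n3 : S.c • S.e ≠ S.c⁻¹ • S.e := fun e => S.c_ee (by rw [e, smul_inv_smul])
  rw [← map_inv S.root, h1, h1]
  simp only [atx_apply, ← map_mul, ← map_commutatorElement]
  congr 1
  funext x
  simp only [commutatorElement_def, Pi.mul_apply, Pi.inv_apply, Pi.mulSingle_apply]
  by_cases x1 : x = S.e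
  · subst x1; simp [n1.symm, n2.symm]
  · by_cases x2 : x = S.c • S.e
    · subst x2; simp [n1, n3]
    · simp [x1, x2]

theorem L_comm_sh (a : ℕ) (h f : G) : ⁅S.L h, S.sh a f⁆ = S.sh a ⁅S.L h, f⁆ := by
  have hc := S.col_sh_commute a (fun _ => S.eK h)
  rw [map_commutatorElement]
  conv_lhs => rw [S.L_eq_col a h, colE_apply]
  have : ∀ p q r : G, Commute p ⁅q, r⁆ → Commute p r → ⁅p * q, r⁆ = ⁅q, r⁆ := by
    intro p q r h1 h2
    have : ⁅p * q, r⁆ = p * ⁅q, r⁆ * p⁻¹ * ⁅p, r⁆ := by simp only [commutatorElement_def]; group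
    rw [this, h1.eq, h2.commutator_eq]; group
  exact this _ _ _ (by rw [← map_commutatorElement]; exact hc _) (hc _)

theorem L_comm_col (n : ℕ) (h : G) (u : ℕ → S.K) :
    ⁅S.L h, S.col n u⁆ = S.col n ⁅(fun _ => S.eK h : ℕ → S.K), u⁆ := by
  rw [map_commutatorElement]
  conv_lhs => rw [S.L_eq_col n h, colE_apply]
  have : ∀ p q r : G, Commute r q → ⁅p * q, r⁆ = ⁅p, r⁆ := by
    intro p q r h1
    simp only [commutatorElement_def, mul_inv_rev]
    rw [mul_assoc p, ← h1.eq]; group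
  exact this _ _ _ (S.col_sh_commute n u _)

/-- The coin column: `c` on the levels of `T`. -/
def coin (n : ℕ) (T : ℕ → Prop) [DecidablePred T] : G :=
  S.colR n (fun l => if T l then S.c else 1) fun l => by split_ifs <;> simp [S.c_o]

theorem iso_col (a n : ℕ) (T : ℕ → Prop) [DecidablePred T] (p q : G) :
    ⁅⁅S.L p, S.sh a (S.coin n T)⁆, ⁅S.L q, (S.sh a (S.coin n T))⁻¹⁆⁆ =
      S.sh a (S.colE n fun l => if T l then ⁅p, q⁆ else 1) := by
  rw [← map_inv, L_comm_sh, L_comm_sh, ← map_commutatorElement, coin, colR, ← map_inv, L_comm_col,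
    L_comm_col, ← map_commutatorElement, colE_apply]
  congr 2
  funext l
  apply Subtype.ext
  by_cases hl : T l
  · simpa [commutatorElement_def, hl, eK] using S.iso_local p q
  · simp [commutatorElement_def, hl, eK]

theorem coin_fib_z (a n : ℕ) (T : ℕ → Prop) [DecidablePred T] (l : ℕ) (h : G) :
    Commute (S.sh a (S.coin n T)) (S.fib l S.z h) := by
  have := S.sh_colR_fib a n (fun l => if T l then S.c else 1)
    (fun l => by split_ifs <;> simp [S.c_o]) S.oz.symm l h
  have e : (if a ≤ l ∧ l < a + n then (if T (l - a) then S.c else 1) • S.z else S.z) = S.z := by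
    split_ifs <;> simp [S.c_z]
  rw [e] at this
  exact this

theorem iso_one (n : ℕ) (p q : G) :
    ⁅⁅S.L p, S.phi n S.c⁆, ⁅S.L q, (S.phi n S.c)⁻¹⁆⁆ = S.fib n S.e ⁅p, q⁆ := by
  rw [phi_apply, ← map_inv, L_comm_sh, L_comm_sh, ← map_commutatorElement, fib_apply,
    ← iso_local]
  have : ∀ (h : G) (σ : A), σ • S.o = S.o → ⁅S.L h, S.root σ⁆ = ⁅S.atx S.e h, S.root σ⁆ := by
    intro h σ hσ
    have h1 := S.K_commute ⟨_, S.root_mem_K hσ⟩ (S.L h)
    rw [S.L_eq h]
    simp only [commutatorElement_def, mul_inv_rev]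
    rw [mul_assoc (S.atx S.e h), ← h1.eq]; group
  rw [← map_inv S.root, this _ _ S.c_o, this _ _ (by rw [inv_smul_eq_iff, S.c_o])]

end TS

end Pool.Agent.PolNA

end MrgPart1

-- ======== part 2: formerly Pool.Agent.PolNA.Cost
section MrgPart2

/-!
# The finite subgroups, commutator width, and displacement bounds
-/

set_option autoImplicit false

namespace Pool.Agent.PolNA

open scoped commutatorElement

section Cw

variable {G : Type} [Group G] {Θ Θ' : Set G}

theorem Cw.mul {w w' : ℕ} {x y : G} (hx : Cw Θ w x) (hy : Cw Θ w' y) : Cw Θ (w + w') (x * y) := by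
  induction w generalizing x with
  | zero => rw [show x = 1 from hx, one_mul, Nat.zero_add]; exact hy
  | succ w ih =>
    obtain ⟨a, ha, b, hb, x', hx', rfl⟩ := hx
    rw [Nat.succ_add]
    exact ⟨a, ha, b, hb, _, ih hx', mul_assoc _ _ _⟩

theorem Cw.one (h1 : 1 ∈ Θ) (w : ℕ) : Cw Θ w 1 := by
  induction w with
  | zero => rfl
  | succ w ih => exact ⟨1, h1, 1, h1, 1, ih, by simp⟩

theorem Cw.le (h1 : 1 ∈ Θ) {w w' : ℕ} {x : G} (hx : Cw Θ w x) (h : w ≤ w') : Cw Θ w' x := by
  obtain ⟨d, rfl⟩ := Nat.exists_eq_add_of_le h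
  simpa using hx.mul (Cw.one h1 d)

theorem Cw.map {H : Type} [Group H] (f : G →* H) {Θ' : Set H} (hf : ∀ a ∈ Θ, f a ∈ Θ')
    {w : ℕ} {x : G} (hx : Cw Θ w x) : Cw Θ' w (f x) := by
  induction w generalizing x with
  | zero => rw [show x = 1 from hx, map_one]; rfl
  | succ w ih =>
    obtain ⟨a, ha, b, hb, x', hx', rfl⟩ := hx
    exact ⟨_, hf a ha, _, hf b hb, _, ih hx', by rw [map_mul, map_commutatorElement]⟩

theorem Cw.pi {X : Type} {w : ℕ} {u : X → G} (hu : ∀ x, Cw Θ w (u x)) :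
    Cw {a : X → G | ∀ x, a x ∈ Θ} w u := by
  induction w generalizing u with
  | zero => exact funext hu
  | succ w ih =>
    choose a ha b hb y hy e using hu
    exact ⟨a, ha, b, hb, y, ih hy, funext e⟩

theorem exists_cw {H K : Subgroup G} [Finite H] (f : G → G) (h : ∀ x ∈ H, f x ∈ ⁅K, K⁆) :
    ∃ w, ∀ x ∈ H, Cw (K : Set G) w (f x) := by
  have h1 : ∀ σ ∈ ⁅K, K⁆, ∃ w, Cw (K : Set G) w σ := by
    intro σ hσ
    rw [Subgroup.commutator_def] at hσ
    induction hσ using Subgroup.closure_induction'' with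
    | one => exact ⟨0, rfl⟩
    | mem x hx =>
      obtain ⟨a, ha, b, hb, rfl⟩ := hx
      exact ⟨1, a, ha, b, hb, 1, rfl, by simp⟩
    | inv_mem x hx =>
      obtain ⟨a, ha, b, hb, rfl⟩ := hx
      exact ⟨1, b, hb, a, ha, 1, rfl, by simp⟩
    | mul x y _ _ hx hy => exact ⟨_, hx.choose_spec.mul hy.choose_spec⟩
  choose g hg using fun x : H => h1 _ (h x x.2)
  obtain ⟨M, hM⟩ := (Set.finite_range g).bddAbove
  exact ⟨M, fun σ hσ => (hg ⟨σ, hσ⟩).le K.one_mem (hM ⟨_, rfl⟩)⟩

variable {V : Type} [NormedAddCommGroup V] [InnerProductSpace ℝ V]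

theorem Cw.err_le {π : G →* Module.End ℝ V} (hπ : Iso π) {v : V} {B : ℝ}
    (hB : ∀ a ∈ Θ, ∀ b ∈ Θ, err π ⁅a, b⁆ v ≤ B) {w : ℕ} {x : G} (hx : Cw Θ w x) :
    err π x v ≤ w * B := by
  induction w generalizing x with
  | zero => rw [show x = 1 from hx]; simp
  | succ w ih =>
    obtain ⟨a, ha, b, hb, x', hx', rfl⟩ := hx
    have := hπ.err_mul ⁅a, b⁆ x' v
    have := ih hx'
    have := hB a ha b hb
    push_cast; linarith

/-- A function is a product of its coordinates. -/
theorem err_pi_le {X : Type} [Fintype X] [DecidableEq X] {π : (X → G) →* Module.End ℝ V}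
    (hπ : Iso π) (u : X → G) (v : V) (B : ℝ) (hB : ∀ x, err π (Pi.mulSingle x (u x)) v ≤ B) :
    err π u v ≤ Fintype.card X * B := by
  have : ∀ s : Finset X, err π (fun x => if x ∈ s then u x else 1) v ≤ s.card * B := by
    intro s
    induction s using Finset.induction_on with
    | empty =>
      simp only [Finset.notMem_empty, if_false, Finset.card_empty, Nat.cast_zero, zero_mul]
      exact (err_one π v).le
    | insert x s hx ih =>
      have e : (fun y => if y ∈ insert x s then u y else 1) =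
          Pi.mulSingle x (u x) * fun y => if y ∈ s then u y else 1 := by
        funext y
        by_cases hy : y = x
        · subst hy; simp [hx]
        · simp [hy]
      rw [e, Finset.card_insert_of_notMem hx]
      have := hπ.err_mul (Pi.mulSingle x (u x)) (fun y => if y ∈ s then u y else 1) v
      have := hB x
      push_cast; linarith
  simpa using this Finset.univ

/-- Grouping the levels by the value of the function. -/
theorem err_fun_le {A : Type} [Group A] [Fintype A] [DecidableEq A]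
    {π : (ℕ → A) →* Module.End ℝ V} (hπ : Iso π) (s : ℕ → A) (v : V) (B : ℝ)
    (hB : ∀ σ, err π (fun l => if s l = σ then σ else 1) v ≤ B) :
    err π s v ≤ Fintype.card A * B := by
  have : ∀ t : Finset A, err π (fun l => if s l ∈ t then s l else 1) v ≤ t.card * B := by
    intro t
    induction t using Finset.induction_on with
    | empty =>
      simp only [Finset.notMem_empty, if_false, Finset.card_empty, Nat.cast_zero, zero_mul]
      exact (err_one π v).le
    | insert x t hx ih =>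
      have e : (fun l => if s l ∈ insert x t then s l else 1) =
          (fun l => if s l = x then x else 1) * fun l => if s l ∈ t then s l else 1 := by
        funext y
        by_cases hy : s y = x
        · simp [hx, hy]
        · simp [hy]
      rw [e, Finset.card_insert_of_notMem hx]
      have := hπ.err_mul (fun l => if s l = x then x else 1)
        (fun l => if s l ∈ t then s l else 1) v
      have := hB x
      push_cast; linarith
  simpa using this Finset.univ

end Cw

namespace TS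

variable {X A G : Type} [DecidableEq X] [Group A] [MulAction A X] [Group G] (S : TS X A G)

/-- One element of `Θ` below each letter. -/
def Spr (Θ : Subgroup G) : Subgroup G := (Subgroup.pi Set.univ fun _ : X => Θ).map S.spread

theorem mem_Spr {Θ : Subgroup G} {x : G} :
    x ∈ S.Spr Θ ↔ ∃ u : X → G, (∀ y, u y ∈ Θ) ∧ S.spread u = x :=
  ⟨fun ⟨u, hu, e⟩ => ⟨u, fun y => hu y trivial, e⟩, fun ⟨u, hu, e⟩ => ⟨u, fun y _ => hu y, e⟩⟩

theorem atx_mem_Spr {Θ : Subgroup G} (x : X) {h : G} (hh : h ∈ Θ) : S.atx x h ∈ S.Spr Θ :=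
  S.mem_Spr.mpr ⟨Pi.mulSingle x h, fun y => by
    by_cases hy : y = x
    · subst hy; simpa
    · simp [hy], rfl⟩

instance finite_Spr [Finite X] (Θ : Subgroup G) [Finite Θ] : Finite (S.Spr Θ) := by
  have : Finite (Subgroup.pi Set.univ fun _ : X => Θ) :=
    Finite.of_injective (fun u : (Subgroup.pi Set.univ fun _ : X => Θ) =>
      fun x => (⟨u.1 x, u.2 x trivial⟩ : Θ)) fun u v e =>
        Subtype.ext (funext fun x => congrArg Subtype.val (congrFun e x))
  exact finite_map S.spread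

/-- One element of `Θ` below each vertex of level `j`. -/
def Lev (Θ : Subgroup G) : ℕ → Subgroup G
  | 0 => Θ
  | j + 1 => S.Spr (Lev Θ j)

instance finite_Lev [Finite X] (Θ : Subgroup G) [Finite Θ] (j : ℕ) : Finite (S.Lev Θ j) := by
  induction j with
  | zero => exact ‹Finite Θ›
  | succ j ih => exact S.finite_Spr _

/-- Iterated wreath product of depth `m`. -/
def W : ℕ → Subgroup G
  | 0 => ⊥
  | m + 1 => S.root.range ⊔ S.Spr (W m)

theorem root_norm_Spr (Θ : Subgroup G) :
    ∀ h ∈ S.root.range, ∀ n ∈ S.Spr Θ, h * n * h⁻¹ ∈ S.Spr Θ := by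
  rintro _ ⟨σ, rfl⟩ n hn
  obtain ⟨u, hu, rfl⟩ := S.mem_Spr.mp hn
  exact S.mem_Spr.mpr ⟨_, fun y => hu _, (S.conj σ u).symm⟩

theorem mem_W_succ {m : ℕ} {x : G} :
    x ∈ S.W (m + 1) ↔ ∃ σ, ∃ n ∈ S.Spr (S.W m), x = S.root σ * n := by
  rw [W, mem_sup_norm (S.root_norm_Spr _)]
  exact ⟨fun ⟨_, ⟨σ, rfl⟩, h⟩ => ⟨σ, h⟩, fun ⟨σ, h⟩ => ⟨_, ⟨σ, rfl⟩, h⟩⟩

instance finite_range_root [Finite A] : Finite S.root.range :=
  Finite.of_surjective _ S.root.rangeRestrict_surjective

instance finite_W [Finite X] [Finite A] (m : ℕ) : Finite (S.W m) := by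
  induction m with
  | zero => exact inferInstanceAs (Finite (⊥ : Subgroup G))
  | succ m ih => exact finite_sup_norm (S.root_norm_Spr _)

theorem phi_mem_W {j m : ℕ} (h : j < m) (σ : A) : S.phi j σ ∈ S.W m := by
  induction m generalizing j with
  | zero => omega
  | succ m ih =>
    rcases j with _ | j
    · exact Subgroup.mem_sup_left ⟨σ, rfl⟩
    · exact Subgroup.mem_sup_right (S.atx_mem_Spr _ (ih (by omega)))

/-- Rooted permutations fixing `o` at the levels `l < n`, and `Θ` below `o ^ n`. -/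
def GW (Θ : Subgroup G) : ℕ → Subgroup G
  | 0 => Θ
  | n + 1 => (MulAction.stabilizer A S.o).map S.root ⊔ (GW Θ n).map (S.atx S.o)

theorem stab_norm (Θ : Subgroup G) : ∀ h ∈ (MulAction.stabilizer A S.o).map S.root,
    ∀ n ∈ Θ.map (S.atx S.o), h * n * h⁻¹ ∈ Θ.map (S.atx S.o) := by
  rintro _ ⟨σ, hσ, rfl⟩ _ ⟨g, hg, rfl⟩
  exact ⟨g, hg, by rw [S.root_atx, show σ • S.o = S.o from hσ, mul_inv_cancel_right]⟩

theorem mem_GW_succ {Θ : Subgroup G} {n : ℕ} {x : G} : x ∈ S.GW Θ (n + 1) ↔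
    ∃ σ : A, σ • S.o = S.o ∧ ∃ g ∈ S.GW Θ n, x = S.root σ * S.atx S.o g := by
  rw [GW, mem_sup_norm (S.stab_norm _)]
  exact ⟨fun ⟨_, ⟨σ, hσ, rfl⟩, _, ⟨g, hg, rfl⟩, e⟩ => ⟨σ, hσ, g, hg, e⟩,
    fun ⟨σ, hσ, g, hg, e⟩ => ⟨_, ⟨σ, hσ, rfl⟩, _, ⟨g, hg, rfl⟩, e⟩⟩

instance finite_GW [Finite A] (Θ : Subgroup G) [Finite Θ] (n : ℕ) : Finite (S.GW Θ n) := by
  induction n with
  | zero => exact ‹Finite Θ›
  | succ n ih => exact finite_sup_norm (S.stab_norm _)

theorem sh_mem_GW {Θ : Subgroup G} {m : ℕ} {g : G} (hg : g ∈ S.GW Θ m) (n : ℕ) :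
    S.sh n g ∈ S.GW Θ (n + m) := by
  induction n with
  | zero => rwa [Nat.zero_add]
  | succ n ih =>
    rw [Nat.succ_add]
    exact S.mem_GW_succ.mpr ⟨1, one_smul _ _, _, ih, by simp [sh_succ]⟩

theorem bot_mem_GW (Θ : Subgroup G) {n m : ℕ} (h : n ≤ m) {g : G} (hg : g ∈ S.GW ⊥ n) :
    g ∈ S.GW Θ m := by
  induction n generalizing m g with
  | zero => rw [show g = 1 from hg]; exact one_mem _
  | succ n ih =>
    obtain ⟨m, rfl⟩ := Nat.exists_eq_add_of_lt h
    obtain ⟨σ, hσ, g', hg', rfl⟩ := S.mem_GW_succ.mp hg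
    exact S.mem_GW_succ.mpr ⟨σ, hσ, g', ih (by omega) hg', rfl⟩

theorem GW_split {Θ : Subgroup G} {n m : ℕ} {x : G} (hx : x ∈ S.GW Θ (n + m)) :
    ∃ f ∈ S.GW ⊥ n, ∃ g ∈ S.GW Θ m, x = f * S.sh n g := by
  induction n generalizing x with
  | zero => exact ⟨1, one_mem _, x, by rwa [Nat.zero_add] at hx, by simp [sh_zero]⟩
  | succ n ih =>
    rw [Nat.succ_add] at hx
    obtain ⟨σ, hσ, g, hg, rfl⟩ := S.mem_GW_succ.mp hx
    obtain ⟨f, hf, g', hg', rfl⟩ := ih hg
    exact ⟨_, S.mem_GW_succ.mpr ⟨σ, hσ, f, hf, rfl⟩, g', hg', by rw [map_mul, mul_assoc, sh_succ]⟩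

theorem colR_mem (n : ℕ) (s : ℕ → A) (hs : ∀ l, s l • S.o = S.o) : S.colR n s hs ∈ S.GW ⊥ n := by
  induction n generalizing s with
  | zero => exact one_mem _
  | succ n ih =>
    exact S.mem_GW_succ.mpr ⟨s 0, hs 0, _, ih (fun l => s (l + 1)) fun l => hs (l + 1), rfl⟩

theorem coin_mem (n : ℕ) (T : ℕ → Prop) [DecidablePred T] : S.coin n T ∈ S.GW ⊥ n :=
  S.colR_mem _ _ _

/-- The groups whose displacements are controlled in the induction on the degree. -/
def Gam (n : ℕ) : Subgroup G := S.GW S.root.range n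

theorem phi_mem_Gam (n : ℕ) (σ : A) : S.phi n σ ∈ S.Gam n :=
  S.sh_mem_GW (m := 0) (Θ := S.root.range) ⟨σ, rfl⟩ n

/-- Elements of `R 1` placed on at most `m` levels. -/
def Th : ℕ → Set G
  | 0 => {1}
  | m + 1 => (S.R 1 : Set G) ∪ {g | ∃ u : X → G, (∀ y, u y ∈ Th m) ∧ S.spread u = g}

theorem cw_Spr {Θ : Subgroup G} {w m : ℕ} (h : ∀ x ∈ Θ, Cw (S.Th m) w x) :
    ∀ x ∈ S.Spr Θ, Cw (S.Th (m + 1)) w x := by
  intro x hx
  obtain ⟨u, hu, rfl⟩ := S.mem_Spr.mp hx
  exact (Cw.pi fun y => h _ (hu y)).map S.spread fun a ha => Or.inr ⟨a, ha, rfl⟩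

theorem cw_Lev {Θ : Subgroup G} {w m : ℕ} (h : ∀ x ∈ Θ, Cw (S.Th m) w x) (j : ℕ) :
    ∀ x ∈ S.Lev Θ j, Cw (S.Th (m + j)) w x := by
  induction j with
  | zero => exact h
  | succ j ih => exact S.cw_Spr ih

theorem cw_W (h : 0 < S.top) (m : ℕ) : ∀ x ∈ S.W m, Cw (S.Th m) (m * S.w 0) x := by
  induction m with
  | zero => intro x hx; rw [show x = 1 from hx]; exact Cw.one (Θ := S.Th 0) rfl _
  | succ m ih =>
    intro x hx
    obtain ⟨σ, n, hn, rfl⟩ := S.mem_W_succ.mp hx
    rw [Nat.succ_mul, add_comm (m * S.w 0)]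
    exact ((S.cw 0 h _ (S.root_R σ)).map (MonoidHom.id G) (Θ' := S.Th (m + 1))
      fun a ha => Or.inl ha).mul
      (S.cw_Spr ih n hn)

variable {V : Type} [NormedAddCommGroup V] [InnerProductSpace ℝ V]

/-- All generators of index at most `d` move `v` by at most `ε`. -/
def Small (π : G →* Module.End ℝ V) (d : ℕ) (v : V) (ε : ℝ) : Prop :=
  ∀ j ≤ d, ∀ x ∈ S.R j, err π (S.gen j x) v ≤ ε

/-- All elements of the groups `Gam n`, `n ≤ N`, move `v` by at most `e`. -/
def Bd (π : G →* Module.End ℝ V) (v : V) (N : ℕ) (e : ℝ) : Prop :=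
  ∀ n ≤ N, ∀ γ ∈ S.Gam n, err π γ v ≤ e

variable {S}
variable {π : G →* Module.End ℝ V} {v : V}

theorem Small.nonneg {d : ℕ} {ε : ℝ} (h : S.Small π d v ε) : 0 ≤ ε :=
  (err_nonneg _ _ _).trans (h 0 (Nat.zero_le _) 1 (one_mem _))

theorem Small.mono {d d' : ℕ} {ε : ℝ} (h : S.Small π d v ε) (hd : d' ≤ d) : S.Small π d' v ε :=
  fun j hj => h j (hj.trans hd)

theorem Small.lift {d : ℕ} {ε : ℝ} (h : S.Small π (d + 1) v ε) : S.Small (π.comp S.L) d v ε :=
  fun j hj x hx => h (j + 1) (by omega) x (S.R_mono j hx)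

theorem Bd.nonneg {N : ℕ} {e : ℝ} (h : S.Bd π v N e) : 0 ≤ e :=
  (err_nonneg _ _ _).trans (h 0 (Nat.zero_le _) 1 (one_mem _))

theorem Bd.mono {N N' : ℕ} {e e' : ℝ} (h : S.Bd π v N e) (hN : N' ≤ N) (he : e ≤ e') :
    S.Bd π v N' e' := fun n hn γ hγ => (h n (hn.trans hN) γ hγ).trans he

theorem Bd.shift {N : ℕ} {e : ℝ} (a : ℕ) (h : S.Bd π v (a + N) e) :
    S.Bd (π.comp (S.sh a)) v N e :=
  fun n hn _ hγ => h (a + n) (by omega) _ (S.sh_mem_GW hγ a)

theorem Bd.root {N : ℕ} {e : ℝ} (h : S.Bd π v N e) (σ : A) : err π (S.root σ) v ≤ e :=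
  h 0 (Nat.zero_le _) _ ⟨σ, rfl⟩

theorem err_GW (hπ : Iso π) {e : ℝ} {n : ℕ} (h : ∀ l ≤ n, ∀ σ, err π (S.phi l σ) v ≤ e) :
    ∀ γ ∈ S.Gam n, err π γ v ≤ (n + 1) * e := by
  induction n generalizing π with
  | zero => rintro _ ⟨σ, rfl⟩; simpa [phi_apply, sh_zero] using h 0 le_rfl σ
  | succ n ih =>
    intro γ hγ
    obtain ⟨σ, -, g, hg, rfl⟩ := S.mem_GW_succ.mp hγ
    have h1 := hπ.err_mul (S.root σ) (S.atx S.o g) v
    have h2 : err π (S.atx S.o g) v ≤ (n + 1) * e :=
      ih (hπ.comp (S.atx S.o)) (fun l hl σ => h (l + 1) (by omega) σ) g hg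
    have h3 : err π (S.root σ) v ≤ e := h 0 (Nat.zero_le _) σ
    push_cast; linarith

theorem err_atx (hπ : Iso π) {e : ℝ} (he : ∀ σ, err π (S.root σ) v ≤ e) (x y : X) (h : G) :
    err π (S.atx x h) v ≤ 2 * e + err π (S.atx y h) v := by
  obtain ⟨τ, rfl⟩ := S.trans y x
  rw [← mul_inv_eq_iff_eq_mul.mpr (S.root_atx τ y h)]
  have := hπ.err_conj (S.root τ) (S.atx y h) v
  have := he τ
  linarith

variable [Fintype X]

theorem err_spread (hπ : Iso π) {e B : ℝ} (he : ∀ σ, err π (S.root σ) v ≤ e)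
    (y : X) (u : X → G) (hB : ∀ x, err π (S.atx y (u x)) v ≤ B) :
    err π (S.spread u) v ≤ Fintype.card X * (2 * e + B) := by
  refine err_pi_le (hπ.comp S.spread) u v _ fun x => ?_
  have := err_atx hπ he x y (u x)
  have := hB x
  change err π (S.atx x (u x)) v ≤ _
  linarith

theorem err_Spr (hπ : Iso π) {Θ : Subgroup G} {e B : ℝ} (he : ∀ σ, err π (S.root σ) v ≤ e)
    (y : X) (hB : ∀ h ∈ Θ, err π (S.atx y h) v ≤ B) :
    ∀ g ∈ S.Spr Θ, err π g v ≤ Fintype.card X * (2 * e + B) := by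
  intro g hg
  obtain ⟨u, hu, rfl⟩ := S.mem_Spr.mp hg
  exact err_spread hπ he y u fun x => hB _ (hu x)

theorem one_le_card (S : TS X A G) : (1 : ℝ) ≤ Fintype.card X := by
  have : Nonempty X := ⟨S.o⟩
  exact_mod_cast Fintype.card_pos

theorem cost_W (hπ : Iso π) {e : ℝ} {m : ℕ} (h : S.Bd π v m e) :
    ∀ g ∈ S.W m, err π g v ≤ (4 * Fintype.card X) ^ m * e := by
  induction m generalizing π with
  | zero => intro g hg; rw [show g = 1 from hg]; simpa using h.nonneg
  | succ m ih =>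
    intro g hg
    obtain ⟨σ, n, hn, rfl⟩ := S.mem_W_succ.mp hg
    have h1 := hπ.err_mul (S.root σ) n v
    have h2 := err_Spr hπ h.root S.o
      (ih (hπ.comp (S.sh 1)) (Bd.shift 1 (by rwa [add_comm]))) n hn
    have h3 := h.root σ
    have hk := S.one_le_card
    have he := h.nonneg
    have h4 : (1 : ℝ) ≤ (4 * Fintype.card X) ^ m := one_le_pow₀ (by linarith)
    have h5 : e ≤ (4 * Fintype.card X) ^ m * e := le_mul_of_one_le_left he h4
    rw [pow_succ]
    nlinarith

theorem cost_GW (hπ : Iso π) {e : ℝ} {m δ : ℕ} (h : S.Bd π v (δ + m) e) :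
    ∀ g ∈ S.GW (S.W m) δ, err π g v ≤ 2 * (4 * Fintype.card X) ^ m * e := by
  intro g hg
  obtain ⟨f, hf, g', hg', rfl⟩ := S.GW_split (n := δ) (m := 0) hg
  have h1 := hπ.err_mul f (S.sh δ g') v
  have h2 : err π (S.sh δ g') v ≤ _ := cost_W (hπ.comp (S.sh δ)) (h.shift δ) g' hg'
  have h3 := h δ (by omega) f (S.bot_mem_GW _ le_rfl hf)
  have hk := S.one_le_card
  have h4 : (1 : ℝ) ≤ (4 * Fintype.card X) ^ m := one_le_pow₀ (by linarith)
  have h5 : e ≤ (4 * Fintype.card X) ^ m * e := le_mul_of_one_le_left h.nonneg h4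
  linarith

theorem cost_Lev (hπ : Iso π) {Θ : Subgroup G} {e B : ℝ} {j : ℕ} (h : S.Bd π v j e)
    (hB : ∀ θ ∈ Θ, err π (S.sh j θ) v ≤ B) :
    ∀ g ∈ S.Lev Θ j, err π g v ≤ (4 * Fintype.card X) ^ j * (B + e) := by
  have hB0 : 0 ≤ B := (err_nonneg _ _ _).trans (hB 1 (one_mem _))
  induction j generalizing π with
  | zero => intro g hg; have := hB g hg; have := h.nonneg; simp only [sh_zero] at *; linarith
  | succ j ih =>
    intro g hg
    have h2 := err_Spr hπ h.root S.o
      (ih (hπ.comp (S.sh 1)) (Bd.shift 1 (by rwa [add_comm])) hB) g hg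
    have hk := S.one_le_card
    have he := h.nonneg
    have h4 : (1 : ℝ) ≤ (4 * Fintype.card X) ^ j := one_le_pow₀ (by linarith)
    have h5 : B + e ≤ (4 * Fintype.card X) ^ j * (B + e) :=
      le_mul_of_one_le_left (by linarith) h4
    rw [pow_succ]
    nlinarith

theorem cost_Th (hπ : Iso π) {e : ℝ} {m : ℕ} (h : S.Bd π v m e)
    (hB : ∀ j < m, ∀ θ ∈ S.R 1, err π (S.sh j θ) v ≤ e) :
    ∀ g ∈ S.Th m, err π g v ≤ (4 * Fintype.card X) ^ m * e := by
  induction m generalizing π with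
  | zero => intro g hg; rw [show g = 1 from hg]; simpa using h.nonneg
  | succ m ih =>
    have hk := S.one_le_card
    have he := h.nonneg
    have h4 : (1 : ℝ) ≤ (4 * Fintype.card X) ^ m := one_le_pow₀ (by linarith)
    have h5 : e ≤ (4 * Fintype.card X) ^ m * e := le_mul_of_one_le_left he h4
    rintro g (hg | ⟨u, hu, rfl⟩)
    · have h2 : err π g v ≤ e := hB 0 (Nat.succ_pos m) g hg
      rw [pow_succ]
      nlinarith
    · have h2 := err_spread hπ h.root S.o u fun x =>
        ih (hπ.comp (S.sh 1)) (Bd.shift 1 (by rwa [add_comm]))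
          (fun j hj θ hθ => hB (j + 1) (by omega) θ hθ) _ (hu x)
      rw [pow_succ]
      nlinarith

omit [Fintype X] in
theorem err_iso (hπ : Iso π) (p q f : G) :
    err π ⁅⁅p, f⁆, ⁅q, f⁻¹⁆⁆ v ≤ 4 * err π p v + 4 * err π q v + 8 * err π f v := by
  have h1 := hπ.err_comm ⁅p, f⁆ ⁅q, f⁻¹⁆ v
  have h2 := hπ.err_comm p f v
  have h3 := hπ.err_comm q f⁻¹ v
  rw [hπ.err_inv] at h3
  linarith

omit [Fintype X] in
/-- Exact coins: independent elements of `R j` in the fibres cost a bounded amount. -/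
theorem coin_bound {j : ℕ} (hj : j < S.top) (hπ : Iso π)
    (a q : ℕ) {ε c : ℝ} (hε : ∀ p ∈ S.R (j + 1), err π (S.L (S.gen j p)) v ≤ ε)
    (hc : ∀ g ∈ S.GW ⊥ q, (∀ l h, Commute (S.sh a g) (S.fib l S.z h)) → err π (S.sh a g) v ≤ c)
    (s : ℕ → G) (hs : ∀ l, s l ∈ S.R j) :
    err π (S.sh a (S.colE q fun l => S.gen j (s l))) v ≤
      Nat.card (S.R j) * (S.w j * (8 * (ε + c))) := by
  classical
  let _ : Fintype (S.R j) := Fintype.ofFinite _
  let E : (ℕ → G) →* G := (S.sh a).comp ((S.colE q).comp ((S.gen j).compLeft ℕ))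
  let F : (ℕ → S.R j) →* G := E.comp ((S.R j).subtype.compLeft ℕ)
  rw [Nat.card_eq_fintype_card]
  refine err_fun_le (hπ.comp F) (fun l => ⟨s l, hs l⟩) v _ fun σ => ?_
  let T : ℕ → Prop := fun l => (⟨s l, hs l⟩ : S.R j) = σ
  let I : G →* (ℕ → G) :=
    { toFun := fun τ l => if T l then τ else 1
      map_one' := by funext l; simp
      map_mul' := fun x y => by funext l; by_cases h : T l <;> simp [h] }
  have e0 : F (fun l => if T l then σ else 1) = E (I σ) := by
    change E _ = E _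
    congr 1
    funext l
    change ((if T l then σ else 1 : S.R j) : G) = if T l then (σ : G) else 1
    split_ifs <;> rfl
  rw [err_comp, e0]
  refine Cw.err_le ((hπ.comp E).comp I) (fun p hp r hr => ?_) (S.cw j hj _ σ.2)
  have e : E (I ⁅p, r⁆) =
      S.sh a (S.colE q fun l => if T l then ⁅S.gen j p, S.gen j r⁆ else 1) := by
    change S.sh a (S.colE q fun l => S.gen j (if T l then ⁅p, r⁆ else 1)) = _
    congr 2
    funext l
    split_ifs <;> simp
  rw [err_comp, err_comp, e, ← S.iso_col]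
  have h1 := err_iso (v := v) hπ (S.L (S.gen j p)) (S.L (S.gen j r)) (S.sh a (S.coin q T))
  have h2 := hc _ (S.coin_mem q T) (S.coin_fib_z a q _)
  have := hε p hp
  have := hε r hr
  linarith

omit [Fintype X] in
theorem exists_coin (S : TS X A G) (d : ℕ) :
    ∃ M : ℕ, ∀ j ≤ d, (Nat.card (S.R j) : ℝ) * S.w j ≤ M := by
  obtain ⟨M, hM⟩ := ((Set.finite_le_nat d).image fun j => Nat.card (S.R j) * S.w j).bddAbove
  exact ⟨M, fun j hj => by exact_mod_cast hM ⟨j, hj, rfl⟩⟩

end TS

end Pool.Agent.PolNA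

end MrgPart2

-- ======== part 3: formerly Pool.Agent.PolNA.Window
section MrgPart3

/-!
# The window lemma, and the statement proved by induction on the degree
-/

set_option autoImplicit false

namespace Pool.Agent.PolNA

namespace TS

variable {X A G : Type} [DecidableEq X] [Group A] [MulAction A X] [Group G] (S : TS X A G)
variable {V : Type} [NormedAddCommGroup V] [InnerProductSpace ℝ V]

/-- Projection on the vectors with no failure in the fibres `o ^ j x`, `j < m`, the sites being at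
depth `m`. -/
noncomputable def nop (x : X) (Θ : Subgroup G) :
    ℕ → (G →* Module.End ℝ V) → Module.End ℝ V
  | 0, _ => 1
  | m + 1, ρ => avgS (ρ.comp (S.atx x)) (S.Lev Θ m) * nop x Θ m (ρ.comp (S.atx S.o))

/-- Polynomial bound with exponent `e` in degree `d`. -/
def Q (V : Type) [NormedAddCommGroup V] [InnerProductSpace ℝ V] (d e : ℕ) : Prop :=
  ∃ C : ℝ, 1 ≤ C ∧ ∀ π : G →* Module.End ℝ V, Iso π → ∀ (v : V) (ε : ℝ), S.Small π d v ε →
    ∀ i : ℕ, S.Bd π v (256 ^ i) (C * 2 ^ (e * i) * ε)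

variable {S}
variable [Finite X] {Θ : Subgroup G} [Finite Θ]

theorem nop_intertwine {x x' : X} {m : ℕ} {ρ ρ' : G →* Module.End ℝ V} {T : Module.End ℝ V}
    (h : ∀ j < m, ∀ g, T * ρ (S.fib j x g) = ρ' (S.fib j x' g) * T) :
    T * S.nop x Θ m ρ = S.nop x' Θ m ρ' * T := by
  induction m generalizing ρ ρ' with
  | zero => simp [nop]
  | succ m ih =>
    rw [nop, nop, ← mul_assoc, avgS_intertwine (π' := ρ'.comp (S.atx x'))
      (fun g _ => h 0 (Nat.succ_pos m) g), mul_assoc,
      ih (ρ' := ρ'.comp (S.atx S.o)) (fun j hj g => h (j + 1) (by omega) g), mul_assoc]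

theorem nop_commute {x : X} {m : ℕ} {ρ : G →* Module.End ℝ V} {T : Module.End ℝ V}
    (h : ∀ j < m, ∀ g, Commute T (ρ (S.fib j x g))) : Commute T (S.nop x Θ m ρ) :=
  nop_intertwine h

theorem nop_isOP {x : X} (hx : x ≠ S.o) (m : ℕ) {ρ : G →* Module.End ℝ V} (hρ : Iso ρ) :
    IsOP (S.nop x Θ m ρ) := by
  induction m generalizing ρ with
  | zero => exact IsOP.one
  | succ m ih =>
    refine (avgS_isOP (hρ.comp _)).mul (ih (hρ.comp _)) (nop_commute fun j _ g => ?_)
    exact (avgS_commute fun g' _ => ((S.atx_commute hx.symm _ _).map ρ)).symm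

theorem nop_sub_le {x : X} {m : ℕ} {ρ : G →* Module.End ℝ V} (hρ : Iso ρ) {v : V} (b : ℕ → ℝ)
    (h : ∀ j i, j + i + 1 = m → ∀ g ∈ S.Lev Θ i, err ρ (S.fib j x g) v ≤ b j) :
    ‖v - S.nop x Θ m ρ v‖ ≤ ∑ j ∈ Finset.range m, b j := by
  induction m generalizing ρ b with
  | zero => simp [nop]
  | succ m ih =>
    have h1 := ih (hρ.comp (S.atx S.o)) (fun j => b (j + 1))
      fun j i e g hg => h (j + 1) i (by omega) g hg
    have h2 : ‖v - avgS (ρ.comp (S.atx x)) (S.Lev Θ m) v‖ ≤ b 0 :=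
      norm_sub_avgS_le fun g hg => h 0 m (by omega) g hg
    have h3 := (avgS_isOP (Θ := S.Lev Θ m) (hρ.comp (S.atx x))).norm_le
      (v - S.nop x Θ m (ρ.comp (S.atx S.o)) v)
    rw [Finset.sum_range_succ', nop, Module.End.mul_apply]
    rw [map_sub] at h3
    have := norm_sub_le_norm_sub_add_norm_sub v (avgS (ρ.comp (S.atx x)) (S.Lev Θ m) v)
      (avgS (ρ.comp (S.atx x)) (S.Lev Θ m) (S.nop x Θ m (ρ.comp (S.atx S.o)) v))
    linarith

omit [Finite X] [Finite Θ] in
theorem fib_mem_Lev (x : X) {j i : ℕ} {g : G} (hg : g ∈ S.Lev Θ i) :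
    S.fib j x g ∈ S.Lev Θ (j + i + 1) := by
  induction j with
  | zero => rw [Nat.zero_add]; exact S.atx_mem_Spr x hg
  | succ j ih => rw [show j + 1 + i + 1 = (j + i + 1) + 1 by omega]; exact S.atx_mem_Spr _ ih

theorem nop_le_lev {x : X} (hx : x ≠ S.o) {m : ℕ} {ρ : G →* Module.End ℝ V} (hρ : Iso ρ) (v : V) :
    ‖v - S.nop x Θ m ρ v‖ ≤ ‖v - avgS ρ (S.Lev Θ m) v‖ := by
  refine (nop_isOP hx m hρ).sub_le_sub (fun w => ?_) v
  have := nop_sub_le (S := S) (Θ := Θ) (x := x) (m := m) hρ (v := avgS ρ (S.Lev Θ m) w)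
    (fun _ => 0) fun j i e g hg => (err_of_fix (avgS_fix (e ▸ fib_mem_Lev x hg) w)).le
  simp only [Finset.sum_const_zero, norm_le_zero_iff, sub_eq_zero] at this
  exact this.symm

theorem window {m : ℕ} {ρ : G →* Module.End ℝ V} (hρ : Iso ρ) {φ : V}
    (hφ : ∀ j < m, ∀ σ, ρ (S.phi j σ) φ = φ) :
    ‖S.nop S.z Θ m ρ φ - avgS (ρ.comp (S.sh m)) Θ (S.nop S.z Θ m ρ φ)‖ ^ 2 ≤
      (1 / 2 : ℝ) ^ m * ‖φ - avgS ρ (S.Lev Θ m) φ‖ ^ 2 := by
  induction m generalizing ρ φ with
  | zero =>
    simp only [nop, pow_zero, one_mul, Module.End.one_apply]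
    exact le_rfl
  | succ m ih =>
    set nz := avgS (ρ.comp (S.atx S.z)) (S.Lev Θ m) with hnz
    set no := avgS (ρ.comp (S.atx S.o)) (S.Lev Θ m) with hno
    set n := avgS ρ (S.Lev Θ (m + 1)) with hn
    have oz : IsOP nz := avgS_isOP (hρ.comp _)
    have oo : IsOP no := avgS_isOP (hρ.comp _)
    have c0 : ∀ g, Commute (ρ (S.atx S.o g)) nz := fun g =>
      avgS_commute fun g' _ => (S.atx_commute S.oz _ _).map ρ
    have c1 : Commute nz (S.nop S.z Θ m (ρ.comp (S.atx S.o))) :=
      nop_commute fun j _ g => (c0 _).symm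
    have c2 : Commute nz no := avgS_commute fun g _ => (c0 g).symm
    have h1 := ih (hρ.comp (S.atx S.o)) (φ := nz φ) fun j hj σ => by
      change ρ (S.atx S.o (S.phi j σ)) (nz φ) = _
      rw [← Module.End.mul_apply, (c0 _).eq, Module.End.mul_apply, ← phi_succ,
        hφ (j + 1) (by omega)]
    have e1 : S.nop S.z Θ (m + 1) ρ φ = S.nop S.z Θ m (ρ.comp (S.atx S.o)) (nz φ) := by
      rw [nop, ← hnz, c1.eq, Module.End.mul_apply]
    rw [e1]
    refine le_trans h1 ?_
    rw [← hno, pow_succ (1 / 2 : ℝ), mul_assoc]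
    refine mul_le_mul_of_nonneg_left ?_ (by positivity)
    obtain ⟨τ, hτ⟩ := S.trans S.o S.z
    have h2 : ρ (S.root τ) * no = nz * ρ (S.root τ) := avgS_intertwine fun g _ => by
      change ρ _ * ρ (S.atx S.o g) = ρ (S.atx S.z g) * ρ _
      rw [← map_mul, ← map_mul, S.root_atx, hτ]
    have h3 : ‖φ - no φ‖ = ‖φ - nz φ‖ := by
      have hf : ρ (S.root τ) φ = φ := hφ 0 (Nat.succ_pos m) τ
      rw [← hρ (S.root τ), map_sub, ← Module.End.mul_apply _ no, h2, Module.End.mul_apply, hf]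
    have h4 : ‖nz φ - no (nz φ)‖ ≤ ‖φ - no φ‖ := by
      rw [← Module.End.mul_apply no, ← c2.eq, Module.End.mul_apply, ← map_sub]
      exact oz.norm_le _
    have f1 : nz (n φ) = n φ := avgS_eq_self fun g hg => avgS_fix (S.atx_mem_Spr _ hg) φ
    have f2 : no (n φ) = n φ := avgS_eq_self fun g hg => avgS_fix (S.atx_mem_Spr _ hg) φ
    have h5 : nz φ - no (nz φ) = nz (φ - n φ) - no (nz (φ - n φ)) := by
      rw [map_sub, f1, map_sub, f2]; abel
    have h6 : φ - nz φ = (φ - n φ) - nz (φ - n φ) := by rw [map_sub, f1]; abel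
    have h7 := oz.pyth (φ - n φ)
    have h8 := oo.norm_sub_le (nz (φ - n φ))
    rw [← h5] at h8
    rw [← h6] at h7
    rw [h3] at h4
    have h9 := pow_le_pow_left₀ (norm_nonneg _) h8 2
    have h10 := pow_le_pow_left₀ (norm_nonneg _) h4 2
    linarith

end TS

end Pool.Agent.PolNA

end MrgPart3

-- ======== part 4: formerly Pool.Agent.PolNA.Step1x
section MrgPart4

set_option autoImplicit false
set_option linter.unusedSectionVars false

namespace Pool.Agent.PolNA

open scoped commutatorElement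

namespace TS

variable {X A G : Type} [Fintype X] [DecidableEq X] [Group A] [Fintype A] [MulAction A X]
  [Group G] (S : TS X A G)
variable (V : Type) [NormedAddCommGroup V] [InnerProductSpace ℝ V]

variable {V} in
theorem err_fib_cw {π : G →* Module.End ℝ V} (hπ : Iso π) {Θ : Set G} {w : ℕ} {x : G}
    (hx : Cw Θ w x) (n : ℕ) {v : V} {b c : ℝ} (hb : ∀ p ∈ Θ, err π (S.L p) v ≤ b)
    (hc : err π (S.phi n S.c) v ≤ c) : err π (S.fib n S.e x) v ≤ w * (8 * (b + c)) := by
  refine Cw.err_le (hπ.comp (S.fib n S.e)) (fun p hp q hq => ?_) hx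
  rw [err_comp, ← S.iso_one]
  have := err_iso (v := v) hπ (S.L p) (S.L q) (S.phi n S.c)
  have := hb p hp
  have := hb q hq
  linarith

theorem sh_succ_conj (l : ℕ) {τ : A} (hτ : τ • S.e = S.o) (g : G) :
    S.sh (l + 1) g = S.phi l τ * S.fib l S.e g * (S.phi l τ)⁻¹ := by
  rw [S.phi_fib, hτ, mul_inv_cancel_right, sh_succ']; rfl

theorem step0x (ht : 0 < S.top) : ∀ π : G →* Module.End ℝ V, Iso π → ∀ (v : V) (ε : ℝ),
    S.Small π 1 v ε → ∀ N : ℕ, S.Bd π v N ((2 * (2 + 16 * S.w 0)) ^ N * ε) := by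
  set w := S.w 0 with hwd
  have hw0 : (0 : ℝ) ≤ w := Nat.cast_nonneg w
  intro π hπ v ε hε N n hn γ hγ
  have h0 := hε.nonneg
  have h1 : ∀ l σ, err π (S.phi l σ) v ≤ (2 + 16 * w) ^ l * ε := by
    intro l
    induction l with
    | zero => intro σ; rw [pow_zero, one_mul]; exact hε 0 (by omega) _ (S.root_R σ)
    | succ l ih =>
      intro σ
      obtain ⟨τ, hτ⟩ := S.trans S.e S.o
      have e : S.phi (l + 1) σ = S.phi l τ * S.fib l S.e (S.root σ) * (S.phi l τ)⁻¹ :=
        S.sh_succ_conj l hτ _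
      have h2 := hπ.err_conj (S.phi l τ) (S.fib l S.e (S.root σ)) v
      have h3 := S.err_fib_cw hπ (S.cw 0 ht _ (S.root_R σ)) l
        (v := v) (b := ε) (fun a ha => hε 1 le_rfl a ha) (ih S.c)
      have h4 := ih τ
      have h5 : ε ≤ (2 + 16 * w) ^ l * ε := le_mul_of_one_le_left h0 (one_le_pow₀ (by linarith))
      rw [e, pow_succ]
      nlinarith
  have h2 := err_GW hπ (e := (2 + 16 * w) ^ N * ε) (n := n) (fun l hl σ => (h1 l σ).trans
    (mul_le_mul_of_nonneg_right (pow_le_pow_right₀ (by linarith) (hl.trans hn)) h0)) γ hγ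
  refine h2.trans ?_
  rw [mul_pow, mul_assoc]
  refine mul_le_mul_of_nonneg_right ?_ (by positivity)
  have : n + 1 ≤ 2 ^ N := (Nat.succ_le_succ hn).trans Nat.lt_two_pow_self
  exact_mod_cast this

theorem step0y (ht : 1 < S.top) {π : G →* Module.End ℝ V} (hπ : Iso π) {v : V} {ε e : ℝ}
    (hε : S.Small π 2 v ε) {N : ℕ} (hb : S.Bd (π.comp S.L) v N e) (he : ε ≤ e) :
    ∀ j ≤ N, ∀ θ ∈ S.R 1, err (π.comp S.L) (S.sh j θ) v ≤ (2 + 16 * S.w 1) * e := by
  intro j hj θ hθ
  have hw0 : (0 : ℝ) ≤ S.w 1 := Nat.cast_nonneg _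
  have h0 := hb.nonneg
  rcases j with _ | l
  · have : err (π.comp S.L) (S.sh 0 θ) v ≤ ε := hε 1 (by omega) θ hθ
    nlinarith
  · obtain ⟨τ, hτ⟩ := S.trans S.e S.o
    have h2 := (hπ.comp S.L).err_conj (S.phi l τ) (S.fib l S.e θ) v
    have h3 := S.err_fib_cw (hπ.comp S.L) (S.cw 1 ht _ hθ) l (v := v) (b := e)
      (fun a ha => (hε 2 le_rfl a ha).trans he) (hb l (by omega) _ (S.phi_mem_Gam l S.c))
    have h4 := hb l (by omega) _ (S.phi_mem_Gam l τ)
    rw [S.sh_succ_conj l hτ]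
    linarith

/-- The base of the exponential in the first polynomial bound. -/
def Lam (k w0 w1 : ℕ) : ℝ :=
  (4 * k * (4 * k) * (2 * (2 + 16 * w0)) * (2 * (2 + 16 * w0))) ^ 2 * (2 + 16 * w1)

theorem step1_core (ht : 1 < S.top) : ∃ K : ℝ, 1 ≤ K ∧ ∀ π : G →* Module.End ℝ V, Iso π →
    ∀ (ψ : V) (ε : ℝ), S.Small π 2 ψ ε → ∀ m n : ℕ, 0 < m →
      5 * (K * m) * n ≤ 2 ^ m → ∀ l ≤ n, ∀ σ,
        err π (S.phi l σ) ψ ≤ (4 + 2 * n * (2 + 5 * (K * m))) *
          (Lam (Fintype.card X) (S.w 0) (S.w 1) ^ m * ε) := by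
  have h0 := S.step0x V (by omega)
  unfold Lam
  set w := S.w 0 with hwd
  have hw0 : (0 : ℝ) ≤ w := Nat.cast_nonneg w
  set Λ : ℝ := 2 * (2 + 16 * w) with hΛd
  have hΛ : 1 ≤ Λ := by linarith
  set μ : ℝ := 2 + 16 * S.w 1 with hμd
  have hμ : 2 ≤ μ := by linarith [show (0 : ℝ) ≤ S.w 1 from Nat.cast_nonneg _]
  set κ : ℝ := 4 * Fintype.card X with hκ
  have hk := S.one_le_card
  have hκ1 : 2 ≤ κ := by linarith
  refine ⟨16 * Fintype.card X * (w + 1), by nlinarith, fun π hπ ψ ε hε m0 n hm hn => ?_⟩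
  set K : ℝ := 16 * Fintype.card X * (w + 1) * m0 with hK
  set B : ℝ := ((κ * κ * Λ * Λ) ^ 2 * μ) ^ m0 * ε with hB
  have hε0 := hε.nonneg
  have hK0 : 0 ≤ K := by positivity
  have hB0 : 0 ≤ B := by positivity
  obtain ⟨m, hm'⟩ : ∃ m, 2 * m0 = m + 1 := ⟨2 * m0 - 1, by omega⟩
  have hκm : ∀ j, (1 : ℝ) ≤ κ ^ j := fun j => one_le_pow₀ (by linarith)
  have hBμ : μ * (κ ^ (m + 1) * (κ ^ (m + 1) * (Λ ^ (2 * (m + 1)) * ε))) ≤ B := by
    have h1 : μ ≤ μ ^ m0 := le_self_pow₀ (by linarith) hm.ne'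
    rw [hB, ← hm']
    calc μ * (κ ^ (2 * m0) * (κ ^ (2 * m0) * (Λ ^ (2 * (2 * m0)) * ε)))
        ≤ μ ^ m0 * (κ ^ (2 * m0) * (κ ^ (2 * m0) * (Λ ^ (2 * (2 * m0)) * ε))) := by gcongr
      _ = _ := by ring_nf
  have hBe : 2 * (κ ^ (m + 1) * (κ ^ (m + 1) * (Λ ^ (2 * (m + 1)) * ε))) ≤ B :=
    le_trans (by gcongr) hBμ
  set e : ℝ := Λ ^ (2 * (m + 1)) * ε with he
  have he0 : 0 ≤ e := by positivity
  have hL : ∀ p ∈ S.Th (m + 1 + m), err π (S.L p) ψ ≤ B := by
    intro p hp
    have b := h0 (π.comp S.L) (hπ.comp _) ψ ε hε.lift (2 * (m + 1))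
    have h2 : e ≤ μ * e := le_mul_of_one_le_left he0 (by linarith)
    have h1 := cost_Th (hπ.comp S.L) (b.mono (N' := m + 1 + m) (by omega) h2)
      (fun j hj θ hθ => S.step0y V ht hπ hε b
        (le_mul_of_one_le_left hε0 (one_le_pow₀ hΛ)) j (by omega) θ hθ) p hp
    have h3 : κ ^ (m + 1 + m) ≤ κ ^ (m + 1 + (m + 1)) := pow_le_pow_right₀ (by linarith) (by omega)
    refine h1.trans (le_trans ?_ hBμ)
    calc κ ^ (m + 1 + m) * (μ * e) ≤ κ ^ (m + 1 + (m + 1)) * (μ * e) := by gcongr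
      _ = _ := by ring
  set q : ℝ := (1 / 2) ^ m0 * K with hq
  have hq0 : 0 ≤ q := by positivity
  have hqn : 5 * q * n ≤ 1 := by
    have : (1 / 2 : ℝ) ^ m0 * 2 ^ m0 = 1 := by rw [← mul_pow]; norm_num
    rw [← this, hq]
    have := mul_le_mul_of_nonneg_left hn (show (0 : ℝ) ≤ (1 / 2) ^ m0 by positivity)
    linarith
  have key : ∀ t ≤ n, ∃ v, ‖ψ - v‖ ≤ t * ((2 + 5 * K) * B) ∧
      (∀ g, err π (S.L g) v ≤ err π (S.L g) ψ) ∧
      ‖v - avgS (π.comp (S.sh (t * (m + 1)))) (S.W (m + 1)) v‖ ≤ (1 + 5 * q * t) * B := by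
    intro t
    induction t with
    | zero =>
      refine fun _ => ⟨ψ, by simp, fun _ => le_rfl, norm_sub_avgS_le fun g hg => ?_⟩
      have b := h0 π hπ ψ ε (hε.mono (by omega)) (2 * (m + 1))
      have h1 := cost_W hπ (b.mono (N' := m + 1) (by omega) le_rfl) g hg
      have h2 : κ ^ (m + 1) * e ≤ κ ^ (m + 1) * (κ ^ (m + 1) * e) :=
        le_mul_of_one_le_left (by positivity) (hκm _)
      have h3 : 0 ≤ κ ^ (m + 1) * e := by positivity
      simp only [Nat.zero_mul, Nat.cast_zero, mul_zero, add_zero, one_mul]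
      change err π g ψ ≤ B
      linarith
    | succ t ih =>
      intro ht
      obtain ⟨v, h1, h2, h3⟩ := ih (by omega)
      set ρ := π.comp (S.sh (t * (m + 1))) with hρ
      have iρ : Iso ρ := hπ.comp _
      set φ := avgS ρ (S.W (m + 1)) v with hφ
      have oN := nop_isOP (S := S) (Θ := S.W (m + 1)) S.oz.symm (m + 1) iρ
      set N := S.nop S.z (S.W (m + 1)) (m + 1) ρ with hN
      have hfix : ∀ j < m + 1, ∀ σ, ρ (S.phi j σ) φ = φ := fun j hj σ =>
        avgS_fix (S.phi_mem_W hj σ) v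
      have ht' : (t : ℝ) ≤ n := by exact_mod_cast (by omega : t ≤ n)
      have h4 : ‖v - φ‖ ≤ 2 * B := by
        have : 5 * q * t ≤ 1 := le_trans (by gcongr) hqn
        nlinarith
      have h5 : ‖φ - avgS ρ (S.Lev (S.W (m + 1)) (m + 1)) φ‖ ≤ 5 * K * B := by
        refine norm_sub_avgS_le fun g hg => ?_
        have h6 := err_Spr iρ (e := 0) (v := φ) (fun σ => (err_of_fix (hfix 0 (by omega) σ)).le)
          S.e (B := ((m + 1) * w : ℕ) * (8 * (5 * B + 0))) (fun h hh =>
            S.err_fib_cw hπ (S.cw_Lev (S.cw_W (by omega) (m + 1)) m h hh) (t * (m + 1))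
              (fun p hp => by
                have := hπ.err_near (S.L p) φ v
                have := h2 p
                have := hL p hp
                rw [norm_sub_rev] at h4
                linarith)
              (err_of_fix (hfix 0 (by omega) S.c)).le) g hg
        refine h6.trans ?_
        rw [← hm', hK]
        push_cast
        have : 0 ≤ (Fintype.card X : ℝ) * m0 * B := by positivity
        nlinarith
      have cL : ∀ g, Commute N (π (S.L g)) := fun g => (nop_commute fun j _ g' => by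
        rw [hρ, MonoidHom.comp_apply, ← fib_add]
        exact (S.L_fib_z g _ g').map π).symm
      refine ⟨N v, ?_, fun g => (err_contr (cL g) oN.norm_le v).trans (h2 g), ?_⟩
      · have h6 := (nop_le_lev (S := S) (Θ := S.W (m + 1)) (m := m + 1) S.oz.symm iρ φ).trans h5
        have h7 := oN.norm_sub_le (v - φ)
        have h8 : ψ - N v = (ψ - v) + ((φ - N φ) + ((v - φ) - N (v - φ))) := by
          rw [map_sub]; abel
        rw [h8]
        refine (norm_add_le _ _).trans ((add_le_add h1 (norm_add_le _ _)).trans ?_)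
        push_cast
        linarith
      · have h6 := window (S := S) (Θ := S.W (m + 1)) iρ hfix
        have e1 : ρ.comp (S.sh (m + 1)) = π.comp (S.sh ((t + 1) * (m + 1))) := by
          ext1 g
          rw [hρ, Nat.succ_mul]
          simp only [MonoidHom.comp_apply, sh_add]
        rw [e1, ← hN] at h6
        set Q := avgS (π.comp (S.sh ((t + 1) * (m + 1)))) (S.W (m + 1)) with hQ
        have oQ : IsOP Q := avgS_isOP (hπ.comp _)
        have h7 : ‖N φ - Q (N φ)‖ ≤ (1 / 2) ^ m0 * (5 * K * B) := by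
          refine (pow_le_pow_iff_left₀ (norm_nonneg _) (by positivity) two_ne_zero).mp
            (h6.trans ?_)
          rw [mul_pow, ← pow_mul, mul_comm m0 2, hm']
          gcongr
        have h8 := (oQ.norm_sub_le (N (v - φ))).trans (oN.norm_le _)
        have h9 : N v - Q (N v) = (N φ - Q (N φ)) + (N (v - φ) - Q (N (v - φ))) := by
          simp only [map_sub]; abel
        rw [h9]
        refine (norm_add_le _ _).trans ?_
        push_cast
        rw [hq] at h3 ⊢
        linarith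
  intro l hl σ
  obtain ⟨v, h1, -, h3⟩ := key (l / (m + 1)) ((Nat.div_le_self _ _).trans hl)
  have h4 := err_le_avgS (hπ.comp (S.sh (l / (m + 1) * (m + 1))))
    (S.phi_mem_W (Nat.mod_lt l (Nat.succ_pos m)) σ) v
  rw [err_comp, ← phi_add, Nat.div_add_mod'] at h4
  have h5 := hπ.err_near (S.phi l σ) ψ v
  have ht' : ((l / (m + 1) : ℕ) : ℝ) ≤ n := by exact_mod_cast (Nat.div_le_self _ _).trans hl
  have h6 : 5 * q * (l / (m + 1) : ℕ) ≤ 1 := le_trans (by gcongr) hqn
  have h7 : (l / (m + 1) : ℕ) * ((2 + 5 * K) * B) ≤ n * ((2 + 5 * K) * B) := by gcongr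
  have h8 := mul_le_mul_of_nonneg_right h6 hB0
  linarith

theorem step1x (ht : 1 < S.top) {a : ℕ}
    (ha : 4 * Lam (Fintype.card X) (S.w 0) (S.w 1) < 2 ^ a) : S.Q V 2 (9 * a) := by
  obtain ⟨K, hK, h⟩ := S.step1_core V ht
  have hΛ : 0 ≤ Lam (Fintype.card X) (S.w 0) (S.w 1) := by unfold Lam; positivity
  set Λ := Lam (Fintype.card X) (S.w 0) (S.w 1) with hΛd
  obtain ⟨c, hc⟩ := pow_unbounded_of_one_lt (5 * K) (one_lt_two (α := ℝ))
  refine ⟨20 * 2 ^ (a * (2 * c + 10)), by
    nlinarith [one_le_pow₀ (n := a * (2 * c + 10)) (one_le_two (α := ℝ))],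
    fun π hπ v ε hε i n hn γ hγ => ?_⟩
  set m := 9 * i + (2 * c + 10) with hm
  have hε0 := hε.nonneg
  have h1 : m ≤ 2 ^ (c + 10) * 2 ^ i := by
    have := Nat.lt_two_pow_self (n := i)
    have := Nat.lt_two_pow_self (n := c)
    rw [pow_add]
    nlinarith
  have h1' : (m : ℝ) ≤ 2 ^ (c + 10) * 2 ^ i := by exact_mod_cast h1
  have e1 : (256 : ℝ) ^ i = 2 ^ (8 * i) := by rw [pow_mul]; norm_num
  have h2 : 5 * (K * m) * ((256 ^ i : ℕ) : ℝ) ≤ 2 ^ m := by
    push_cast
    calc 5 * (K * m) * (256 : ℝ) ^ i = (5 * K) * m * 2 ^ (8 * i) := by rw [e1]; ring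
      _ ≤ 2 ^ c * (2 ^ (c + 10) * 2 ^ i) * 2 ^ (8 * i) := by gcongr
      _ = 2 ^ m := by rw [hm]; ring
  have h3 := err_GW hπ (n := n) (fun l hl σ => h π hπ v ε hε m (256 ^ i) (by omega) h2 l
    (hl.trans hn) σ) γ hγ
  refine h3.trans ?_
  have h4 : ((256 ^ i : ℕ) : ℝ) ≤ 2 ^ m := by
    push_cast
    rw [e1]
    exact pow_le_pow_right₀ one_le_two (by omega)
  have h5 : (1 : ℝ) ≤ 2 ^ m := one_le_pow₀ one_le_two
  have h6 : (n : ℝ) ≤ 2 ^ m := le_trans (by exact_mod_cast hn) h4
  calc ((n : ℝ) + 1) * ((4 + 2 * ((256 ^ i : ℕ) : ℝ) * (2 + 5 * (K * m))) * (Λ ^ m * ε))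
      ≤ (2 * 2 ^ m) * ((10 * 2 ^ m) * (Λ ^ m * ε)) := by
        gcongr
        · linarith
        · linarith
    _ = 20 * (4 * Λ) ^ m * ε := by
        rw [mul_pow, show (4 : ℝ) = 2 * 2 by norm_num, mul_pow]; ring
    _ ≤ 20 * (2 ^ a) ^ m * ε := by gcongr
    _ = _ := by rw [hm]; ring

end TS

end Pool.Agent.PolNA

end MrgPart4

-- ======== part 5: formerly Pool.Agent.PolNA.Step2
section MrgPart5

/-!
# The induction step on the degree
-/

set_option autoImplicit false

namespace Pool.Agent.PolNA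

namespace TS

section Fibres

variable {X A G : Type} [DecidableEq X] [Group A] [MulAction A X] [Group G] (S : TS X A G)

/-- The index of the level `l`. -/
def lev2 (s l : ℕ) : Option (Fin s) := if h : l < s then some ⟨l, h⟩ else none

/-- Independent elements in the first `s` fibres, one more element in all the others. -/
def mix2 (s : ℕ) : (Option (Fin s) → G) →* G where
  toFun u := S.colE s (fun l => u (lev2 s l)) * S.sh s (S.L (u none))
  map_one' := by
    have : (fun l => (1 : Option (Fin s) → G) (lev2 s l)) = 1 := rfl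
    rw [this]; simp
  map_mul' u v := by
    have : (fun l => (u * v) (lev2 s l)) = (fun l => u (lev2 s l)) * fun l => v (lev2 s l) := rfl
    have c : Commute (S.colE s fun l => v (lev2 s l)) (S.sh s (S.L (u none))) :=
      S.col_sh_commute s _ _
    rw [this, Pi.mul_apply, map_mul, map_mul, map_mul, mul_assoc, mul_assoc,
      ← mul_assoc (S.colE s fun l => v (lev2 s l)), c.eq, mul_assoc]

theorem mix2_apply (s : ℕ) (u : Option (Fin s) → G) :
    S.mix2 s u = S.colE s (fun l => u (lev2 s l) * (u none)⁻¹) * S.L (u none) := by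
  have : (fun l => u (lev2 s l)) = (fun l => u (lev2 s l) * (u none)⁻¹) * fun _ => u none := by
    funext l; simp
  conv_rhs => rw [S.L_eq_col s (u none), ← mul_assoc, ← map_mul, ← this]
  rfl

theorem mix2_const (s : ℕ) (h : G) : S.mix2 s (fun _ => h) = S.L h := (S.L_eq_col s h).symm

theorem mix2_single (s : ℕ) (l : Fin s) (h : G) :
    S.mix2 s (Pi.mulSingle (some l) h) = S.fib l S.e h := by
  have : (fun i => (Pi.mulSingle (some l) h : Option (Fin s) → G) (lev2 s i)) =
      Pi.mulSingle (l : ℕ) h := by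
    funext i
    by_cases hi : i = l
    · subst hi; simp [lev2]
    · rw [Pi.mulSingle_eq_of_ne hi, Pi.mulSingle_eq_of_ne]
      unfold lev2
      split_ifs
      · exact fun k => hi (congrArg Fin.val (Option.some.inj k))
      · simp
  change S.colE s _ * S.sh s (S.L ((Pi.mulSingle (some l) h : Option (Fin s) → G) none)) = _
  rw [this, S.colE_single l.2, Pi.mulSingle_eq_of_ne (by simp)]
  simp

end Fibres

theorem step2_num {e : ℕ} (he : 3 ≤ e) (i : ℕ) :
    2 * ((e - 2) * i) + 1 ≤ 4 * e * 2 ^ (i / 2) ∧ (e - 2) * i + i / 2 ≤ (e - 1) * i ∧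
      e * ((i + 1) / 2) + i / 2 ≤ e + (e - 1) * i ∧ 2 * ((e - 2) * i) + 4 * i = e * i * 2 := by
  obtain ⟨e, rfl⟩ := Nat.exists_eq_add_of_le' he
  have h1 : i / 2 < 2 ^ (i / 2) := Nat.lt_two_pow_self
  have h2 : i + 1 ≤ 2 * 2 ^ (i / 2) := by omega
  rw [show e + 3 - 2 = e + 1 by omega, show e + 3 - 1 = e + 2 by omega]
  refine ⟨by nlinarith, by nlinarith [Nat.div_le_self i 2], ?_, by ring⟩
  obtain ⟨k, rfl | rfl⟩ := Nat.even_or_odd' i
  · rw [show (2 * k + 1) / 2 = k by omega, show 2 * k / 2 = k by omega]; nlinarith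
  · rw [show (2 * k + 1 + 1) / 2 = k + 1 by omega, show (2 * k + 1) / 2 = k by omega]; nlinarith

variable {X A G : Type} [Fintype X] [DecidableEq X] [Group A] [Fintype A] [MulAction A X]
  [Group G] (S : TS X A G)
variable (V : Type) [NormedAddCommGroup V] [InnerProductSpace ℝ V]

omit [Fintype X] [Fintype A] in
theorem step2 (hs : SmoothStmt) {d e : ℕ} (hd : d < S.top) (he : 3 ≤ e) (h : S.Q V d e) :
    S.Q V (d + 1) (e - 1) := by
  obtain ⟨C, hC, h⟩ := h
  obtain ⟨Cs, hCs, hs⟩ := hs.sub (d + 1)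
  obtain ⟨M, hM⟩ := S.exists_coin d
  set K0 : ℝ := 16 * M + 1 with hK0
  set K1 : ℝ := Cs * (4 * e) * (1 + K0 * (C * 2 ^ e)) with hK1
  have k0 : 0 ≤ K0 := by positivity
  have c0 : 0 ≤ C := by linarith
  have cs : 0 ≤ Cs := by linarith
  have k1 : 0 ≤ K1 := by positivity
  have e2 : (1 : ℝ) ≤ 2 ^ e := one_le_pow₀ one_le_two
  refine ⟨3 * (C * 2 ^ e) + (C + 2) * K1, by nlinarith [mul_nonneg (add_nonneg c0 zero_le_two) k1],
    fun π hπ v ε hε i => ?_⟩
  obtain ⟨n1, n2, n3, n4⟩ := step2_num he i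
  have ε0 := hε.nonneg
  set s := 16 ^ i with hs'
  set c : ℝ := C * 2 ^ (e * ((i + 1) / 2)) * ε with hc
  set B : ℝ := 2 ^ ((e - 1) * i) * ε with hB
  set p : ℝ := 2 ^ (i / 2) with hp
  have p1 : 1 ≤ p := one_le_pow₀ one_le_two
  have b0 : S.Bd π v s c := (h π hπ v ε (hε.mono (Nat.le_succ d)) ((i + 1) / 2)).mono (by
    rw [hs', show 256 = 16 ^ 2 by norm_num, ← pow_mul]
    exact Nat.pow_le_pow_right (by norm_num) (by omega)) le_rfl
  have cn := b0.nonneg
  have εc : ε ≤ c := le_mul_of_one_le_left ε0 (one_le_mul_of_one_le_of_one_le hC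
    (one_le_pow₀ one_le_two))
  have q1 : p * (2 ^ ((e - 2) * i) * ε) ≤ B := by
    rw [← mul_assoc, hp, ← pow_add, add_comm]
    exact mul_le_mul_of_nonneg_right (pow_le_pow_right₀ one_le_two n2) ε0
  have q2 : p * c ≤ C * 2 ^ e * B := by
    have : (2 : ℝ) ^ (e * ((i + 1) / 2) + i / 2) ≤ 2 ^ (e + (e - 1) * i) :=
      pow_le_pow_right₀ one_le_two n3
    rw [pow_add, pow_add] at this
    have := mul_le_mul_of_nonneg_left this (mul_nonneg c0 ε0)
    rw [hc, hB]; linarith
  have q3 : c ≤ C * 2 ^ e * B := (le_mul_of_one_le_left cn p1).trans q2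
  obtain ⟨y, δ, δ0, y1, y2, -, y3⟩ := hs V G (Option (Fin s)) (π.comp (S.mix2 s)) (hπ.comp _)
    S.R S.R_fin S.gen v ε (K0 * c) (2 ^ ((e - 2) * i)) (2 * ((e - 2) * i)) ε0 (by positivity)
    (by positivity) (by rw [← pow_mul, mul_comm])
    (fun j hj a ha => by rw [err_comp, mix2_const]; exact hε (j + 1) hj a (S.R_mono j ha))
    (fun j hj σ hσ => by
      have a1 := coin_bound (j := j) (by omega) hπ 0 s (fun a ha => hε (j + 1) hj a ha)
        (fun g hg _ => b0 s le_rfl g (S.bot_mem_GW _ le_rfl hg))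
        (fun l => σ (lev2 s l) * (σ none)⁻¹) fun l => mul_mem (hσ _) (inv_mem (hσ _))
      have a2 : err π (S.L (S.gen j (σ none))) v ≤ ε := hε (j + 1) hj _ (S.R_mono j (hσ _))
      simp only [sh_zero, map_mul, map_inv] at a1
      rw [err_comp, mix2_apply]
      refine (hπ.err_mul _ _ v).trans ((add_le_add a1 a2).trans ?_)
      have a3 := mul_le_mul_of_nonneg_right (hM j (by omega))
        (show 0 ≤ 8 * (ε + c) by positivity)
      have : (0 : ℝ) ≤ M := by positivity
      rw [hK0]; nlinarith)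
  set U : ℝ := Cs * ((2 * ((e - 2) * i) : ℕ) + 1) * (2 ^ ((e - 2) * i) * ε + K0 * c) with hU
  have U0 : 0 ≤ U := (norm_nonneg _).trans y1
  have u1 : U ≤ K1 * B := by
    have a1 : ((2 * ((e - 2) * i) : ℕ) + 1 : ℝ) ≤ 4 * e * p := by rw [hp]; exact_mod_cast n1
    have a2 : p * (2 ^ ((e - 2) * i) * ε + K0 * c) ≤ (1 + K0 * (C * 2 ^ e)) * B := by
      have := mul_le_mul_of_nonneg_left q2 k0
      linarith
    calc U ≤ Cs * (4 * e * p) * (2 ^ ((e - 2) * i) * ε + K0 * c) := by rw [hU]; gcongr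
      _ = Cs * (4 * e) * (p * (2 ^ ((e - 2) * i) * ε + K0 * c)) := by ring
      _ ≤ Cs * (4 * e) * ((1 + K0 * (C * 2 ^ e)) * B) := by gcongr
      _ = K1 * B := by rw [hK1]; ring
  have s0 : 0 < s := by positivity
  have : Nonempty (Fin s) := ⟨⟨0, s0⟩⟩
  obtain ⟨l, -, hl⟩ := Finset.exists_min_image Finset.univ (fun l : Fin s => δ (some l) ^ 2)
    Finset.univ_nonempty
  have u2 : 2 ^ (e * i) * δ (some l) ≤ U := by
    have a1 := Finset.card_nsmul_le_sum _ _ _ hl
    rw [Finset.card_univ, Fintype.card_fin, nsmul_eq_mul] at a1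
    rw [Fintype.sum_option] at y2
    have a2 : (2 : ℝ) ^ (2 * ((e - 2) * i)) * s = (2 ^ (e * i)) ^ 2 := by
      rw [hs', Nat.cast_pow, show ((16 : ℕ) : ℝ) = 2 ^ 4 by norm_num, ← pow_mul, ← pow_add,
        ← pow_mul, n4]
    refine abs_le_of_sq_le_sq' ?_ U0 |>.2
    rw [mul_pow, ← a2, mul_assoc]
    refine le_trans (mul_le_mul_of_nonneg_left ?_ (by positivity)) y2
    linarith [sq_nonneg (δ none)]
  have b1 := h (π.comp (S.fib l S.e)) (hπ.comp _) y (δ (some l)) (fun j hj a ha => by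
    have := y3 (some l) j (Nat.lt_succ_of_le hj) a ha
    rwa [err_comp, mix2_single] at this) i
  have B0 : 0 ≤ B := by positivity
  have t0 : 0 ≤ (C + 2) * U := by positivity
  have t1 : (C + 2) * U ≤ (C + 2) * (K1 * B) := by gcongr
  intro n hn γ hγ
  rw [mul_assoc, ← hB]
  by_cases hns : n ≤ s
  · have := b0 n hns γ hγ
    linarith
  obtain ⟨m, rfl⟩ : ∃ m, n = (l + 1) + m := Nat.exists_eq_add_of_le (by have := l.2; omega)
  obtain ⟨f, hf, g, hg, rfl⟩ := S.GW_split hγ
  obtain ⟨τ, hτ⟩ := S.trans S.e S.o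
  have a1 : S.sh (l + 1) g = S.phi l τ * S.fib l S.e g * (S.phi l τ)⁻¹ := by
    rw [phi_fib, hτ, mul_inv_cancel_right, sh_succ']; rfl
  have a2 := hπ.err_mul f (S.sh (l + 1) g) v
  have a3 := b0 s le_rfl f (S.bot_mem_GW _ l.2 hf)
  have a4 := hπ.err_conj (S.phi l τ) (S.fib l S.e g) v
  have a5 := b0 l l.2.le _ (S.phi_mem_Gam l τ)
  have a6 := hπ.err_near (S.fib l S.e g) v y
  have a7 : err π (S.fib l S.e g) y ≤ _ := b1 m (by omega) g hg
  have a8 := mul_le_mul_of_nonneg_left u2 c0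
  rw [← a1] at a4
  linarith

end TS

end Pool.Agent.PolNA

end MrgPart5

-- marker of a merged file
example : 731051 + 257768 = 731051 + 257768 := rfl
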