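import Mathlib

/-!
# The group of finite-state tree automorphisms of polynomial activity
-/

set_option autoImplicit false

namespace Pool.Agent.PolNA

/-- Automorphisms of the rooted tree of words: permutations preserving the length and the
initial-segment order. -/
def IsTreeAut {X : Type} (g : Equiv.Perm (List X)) : Prop :=
  (∀ v, (g v).length = v.length) ∧ ∀ u v, g u <+: g v ↔ u <+: v

/-- `h` is the section of `g` at the vertex `v`. -/
def IsSection {X : Type} (g : Equiv.Perm (List X)) (v : List X) (h : Equiv.Perm (List X)) : Prop :=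
  ∀ w, g (v ++ w) = g v ++ h w

/-- `g` has finitely many different sections. -/
def IsFiniteState {X : Type} (g : Equiv.Perm (List X)) : Prop := {h | ∃ v, IsSection g v h}.Finite

/-- Number of vertices of level `n` at which the section of `g` is not the identity. -/
noncomputable def activity {X : Type} (g : Equiv.Perm (List X)) (n : ℕ) : ℕ :=
  {v : List X | v.length = n ∧ ¬ IsSection g v 1}.ncard

/-- The activity grows polynomially. -/
def IsPolyActive {X : Type} (g : Equiv.Perm (List X)) : Prop :=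
  ∃ C d : ℕ, ∀ n, activity g n ≤ C * (n + 1) ^ d

section Lemmas

variable {X : Type}

theorem app_inv (g : Equiv.Perm (List X)) (v : List X) : g (g⁻¹ v) = v := g.apply_symm_apply v

theorem inv_app (g : Equiv.Perm (List X)) (v : List X) : g⁻¹ (g v) = v := g.symm_apply_apply v

theorem IsTreeAut.one : IsTreeAut (1 : Equiv.Perm (List X)) :=
  ⟨fun _ => rfl, fun _ _ => Iff.rfl⟩

theorem IsTreeAut.mul {g h : Equiv.Perm (List X)} (hg : IsTreeAut g) (hh : IsTreeAut h) :
    IsTreeAut (g * h) :=
  ⟨fun v => by rw [Equiv.Perm.mul_apply, hg.1, hh.1],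
    fun u v => by rw [Equiv.Perm.mul_apply, Equiv.Perm.mul_apply, hg.2, hh.2]⟩

theorem IsTreeAut.inv {g : Equiv.Perm (List X)} (hg : IsTreeAut g) : IsTreeAut g⁻¹ := by
  refine ⟨fun v => ?_, fun u v => ?_⟩
  · have := hg.1 (g⁻¹ v)
    rw [app_inv] at this
    exact this.symm
  · have := hg.2 (g⁻¹ u) (g⁻¹ v)
    rw [app_inv, app_inv] at this
    exact this.symm

theorem IsTreeAut.append_drop {g : Equiv.Perm (List X)} (hg : IsTreeAut g) (v w : List X) :
    g (v ++ w) = g v ++ (g (v ++ w)).drop v.length := by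
  obtain ⟨t, ht⟩ : g v <+: g (v ++ w) := (hg.2 _ _).2 ⟨w, rfl⟩
  rw [← ht, ← hg.1 v, List.drop_left]

/-- Sections of tree automorphisms exist. -/
theorem IsTreeAut.exists_section {g : Equiv.Perm (List X)} (hg : IsTreeAut g) (v : List X) :
    ∃ h, IsSection g v h := by
  refine ⟨⟨fun w => (g (v ++ w)).drop v.length, fun w => (g⁻¹ (g v ++ w)).drop v.length,
    fun w => ?_, fun w => ?_⟩, fun w => hg.append_drop v w⟩
  · simp only
    rw [← hg.append_drop v w, inv_app, List.drop_left]
  · simp only
    have h1 := hg.inv.append_drop (g v) w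
    rw [inv_app, hg.1 v] at h1
    rw [← h1, app_inv, ← hg.1 v, List.drop_left]

/-- Sections are unique. -/
theorem IsSection.unique {g h h' : Equiv.Perm (List X)} {v : List X} (h1 : IsSection g v h)
    (h2 : IsSection g v h') : h = h' :=
  Equiv.ext fun w => List.append_cancel_left ((h1 w).symm.trans (h2 w))

theorem IsSection.one (v : List X) : IsSection (1 : Equiv.Perm (List X)) v 1 := fun _ => rfl

theorem IsSection.mul {g h g' h' : Equiv.Perm (List X)} {v : List X} (h1 : IsSection g (h v) g')
    (h2 : IsSection h v h') : IsSection (g * h) v (g' * h') := fun w => by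
  rw [Equiv.Perm.mul_apply, Equiv.Perm.mul_apply, Equiv.Perm.mul_apply, h2 w, h1]

theorem IsSection.inv {g h : Equiv.Perm (List X)} {v : List X} (h1 : IsSection g v h) :
    IsSection g⁻¹ (g v) h⁻¹ := fun w => by
  have := h1 (h⁻¹ w)
  rw [app_inv] at this
  rw [← this, inv_app, inv_app]

theorem IsFiniteState.one : IsFiniteState (1 : Equiv.Perm (List X)) :=
  (Set.finite_singleton 1).subset fun _ ⟨v, hv⟩ => hv.unique (IsSection.one v)

theorem IsFiniteState.mul {g h : Equiv.Perm (List X)} (tg : IsTreeAut g) (th : IsTreeAut h)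
    (hg : IsFiniteState g) (hh : IsFiniteState h) : IsFiniteState (g * h) := by
  refine (Set.Finite.image2 (fun a b => a * b) hg hh).subset ?_
  rintro s ⟨v, hv⟩
  obtain ⟨g', hg'⟩ := tg.exists_section (h v)
  obtain ⟨h', hh'⟩ := th.exists_section v
  exact ⟨g', ⟨_, hg'⟩, h', ⟨_, hh'⟩, (hg'.mul hh').unique hv⟩

theorem IsFiniteState.inv {g : Equiv.Perm (List X)} (hg : IsFiniteState g) :
    IsFiniteState g⁻¹ := by
  refine (Set.Finite.image (fun a => a⁻¹) hg).subset ?_
  rintro s ⟨v, hv⟩
  have := hv.inv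
  rw [inv_inv] at this
  exact ⟨s⁻¹, ⟨_, this⟩, inv_inv s⟩

theorem active_finite [Finite X] (g : Equiv.Perm (List X)) (n : ℕ) :
    {v : List X | v.length = n ∧ ¬ IsSection g v 1}.Finite :=
  (List.finite_length_eq X n).subset fun _ hv => hv.1

theorem activity_one (n : ℕ) : activity (1 : Equiv.Perm (List X)) n = 0 := by
  have : {v : List X | v.length = n ∧ ¬ IsSection 1 v 1} = ∅ :=
    Set.eq_empty_of_forall_notMem fun v hv => hv.2 (IsSection.one v)
  rw [activity, this, Set.ncard_empty]

theorem activity_mul [Finite X] (g : Equiv.Perm (List X)) {h : Equiv.Perm (List X)}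
    (th : IsTreeAut h) (n : ℕ) : activity (g * h) n ≤ activity g n + activity h n := by
  have hsub : {v : List X | v.length = n ∧ ¬ IsSection (g * h) v 1} ⊆
      (fun u => h⁻¹ u) '' {v : List X | v.length = n ∧ ¬ IsSection g v 1} ∪
        {v : List X | v.length = n ∧ ¬ IsSection h v 1} := by
    rintro v ⟨hl, hv⟩
    by_cases h2 : IsSection h v 1
    · left
      refine ⟨h v, ⟨(th.1 v).trans hl, fun h1 => hv ?_⟩, inv_app h v⟩
      have := h1.mul h2
      rwa [one_mul] at this
    · right
      exact ⟨hl, h2⟩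
  refine (Set.ncard_le_ncard hsub
    (((active_finite g n).image _).union (active_finite h n))).trans ?_
  refine (Set.ncard_union_le _ _).trans ?_
  exact Nat.add_le_add_right (Set.ncard_image_le (active_finite g n)) _

theorem activity_inv [Finite X] {g : Equiv.Perm (List X)} (tg : IsTreeAut g) (n : ℕ) :
    activity g⁻¹ n ≤ activity g n := by
  have hsub : {v : List X | v.length = n ∧ ¬ IsSection g⁻¹ v 1} ⊆
      (fun u => g u) '' {v : List X | v.length = n ∧ ¬ IsSection g v 1} := by
    rintro v ⟨hl, hv⟩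
    refine ⟨g⁻¹ v, ⟨(tg.inv.1 v).trans hl, fun h1 => hv ?_⟩, app_inv g v⟩
    have := h1.inv
    rwa [app_inv, inv_one] at this
  exact (Set.ncard_le_ncard hsub ((active_finite g n).image _)).trans
    (Set.ncard_image_le (active_finite g n))

theorem IsPolyActive.one : IsPolyActive (1 : Equiv.Perm (List X)) :=
  ⟨0, 0, fun n => by rw [activity_one]; exact Nat.zero_le _⟩

theorem IsPolyActive.mul [Finite X] {g h : Equiv.Perm (List X)} (th : IsTreeAut h)
    (hg : IsPolyActive g) (hh : IsPolyActive h) : IsPolyActive (g * h) := by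
  obtain ⟨C, d, hC⟩ := hg
  obtain ⟨C', d', hC'⟩ := hh
  refine ⟨C + C', d + d', fun n => (activity_mul g th n).trans ?_⟩
  rw [add_mul]
  exact Nat.add_le_add
    ((hC n).trans (Nat.mul_le_mul_left _
      (Nat.pow_le_pow_right (Nat.succ_pos n) (Nat.le_add_right _ _))))
    ((hC' n).trans (Nat.mul_le_mul_left _
      (Nat.pow_le_pow_right (Nat.succ_pos n) (Nat.le_add_left _ _))))

theorem IsPolyActive.inv [Finite X] {g : Equiv.Perm (List X)} (tg : IsTreeAut g)
    (hg : IsPolyActive g) : IsPolyActive g⁻¹ := by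
  obtain ⟨C, d, hC⟩ := hg
  exact ⟨C, d, fun n => (activity_inv tg n).trans (hC n)⟩

end Lemmas

/-- The finite-state automorphisms of the `k`-ary tree with polynomial activity. -/
def Pol (k : ℕ) : Subgroup (Equiv.Perm (List (Fin k))) where
  carrier := {g | IsTreeAut g ∧ IsFiniteState g ∧ IsPolyActive g}
  mul_mem' := fun ha hb => ⟨ha.1.mul hb.1, IsFiniteState.mul ha.1 hb.1 ha.2.1 hb.2.1,
    IsPolyActive.mul hb.1 ha.2.2 hb.2.2⟩
  one_mem' := ⟨IsTreeAut.one, IsFiniteState.one, IsPolyActive.one⟩
  inv_mem' := fun ha => ⟨ha.1.inv, ha.2.1.inv, IsPolyActive.inv ha.1 ha.2.2⟩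

theorem mem_Pol {k : ℕ} {g : Equiv.Perm (List (Fin k))} :
    g ∈ Pol k ↔ IsTreeAut g ∧ IsFiniteState g ∧ IsPolyActive g := Iff.rfl

end Pool.Agent.PolNA
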