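import Mathlib.Algebra.Order.Ring.Star
import Pool.Agent.PolNA.Folner

-- ======== part 0: formerly Pool.Agent.PolNA.Smooth1
section MrgPart0

/-!
# Words in orthogonal projections and positive contractions
-/

set_option autoImplicit false

namespace Pool.Agent.PolNA.Sm

variable {V : Type} [NormedAddCommGroup V] [InnerProductSpace ℝ V]

/-- Contraction. -/
def Con (T : Module.End ℝ V) : Prop := ∀ v, ‖T v‖ ≤ ‖v‖

theorem Con.mul {S T : Module.End ℝ V} (h : Con S) (h' : Con T) : Con (S * T) :=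
  fun v => (h (T v)).trans (h' v)

theorem Con.pow {T : Module.End ℝ V} (h : Con T) : ∀ n : ℕ, Con (T ^ n)
  | 0 => fun v => by simp
  | n + 1 => by rw [pow_succ]; exact (h.pow n).mul h

theorem capp {S T : Module.End ℝ V} (h : Commute S T) (v : V) : S (T v) = T (S v) := by
  rw [← Module.End.mul_apply, h.eq, Module.End.mul_apply]

theorem le_of_sq {a b : ℝ} (hb : 0 ≤ b) (h : a ^ 2 ≤ b ^ 2) : a ≤ b :=
  (abs_le_of_sq_le_sq' h hb).2

theorem orth {E : Module.End ℝ V} (h : IsOP E) (a b : V) :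
    ‖E a + (b - E b)‖ ^ 2 = ‖E a‖ ^ 2 + ‖b - E b‖ ^ 2 := by
  have h1 : E (E a + (b - E b)) = E a := by rw [map_add, map_sub, h.app, h.app]; abel
  rw [h.pyth (E a + (b - E b)), h1]
  congr 3
  abel

/-- Positive contraction. -/
structure Pos (P : Module.End ℝ V) : Prop where
  symm : ∀ x y, inner ℝ (P x) y = inner ℝ x (P y)
  sq : ∀ v, ‖P v‖ ^ 2 ≤ inner ℝ (P v) v

namespace Pos

variable {P : Module.End ℝ V} (h : Pos P)
include h

theorem con : Con P := fun v => by
  have h1 := (h.sq v).trans (real_inner_le_norm _ _)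
  by_contra hc
  push Not at hc
  nlinarith [norm_nonneg v]

theorem le (v : V) : inner ℝ (P v) v ≤ ‖v‖ ^ 2 := by
  have h1 := real_inner_le_norm (P v) v
  nlinarith [h.con v, norm_nonneg v]

theorem symm_pow : ∀ (n : ℕ) (x y : V), inner ℝ ((P ^ n) x) y = inner ℝ x ((P ^ n) y)
  | 0, x, y => by simp
  | n + 1, x, y => by
    rw [pow_succ, Module.End.mul_apply, symm_pow n, h.symm, ← Module.End.mul_apply, ← pow_succ',
      pow_succ]

theorem shift (n : ℕ) (v : V) :
    inner ℝ ((P ^ (n + 2)) v) v = inner ℝ ((P ^ n) (P v)) (P v) := by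
  rw [pow_succ', Module.End.mul_apply, h.symm, pow_succ, Module.End.mul_apply]

theorem two (v : V) : inner ℝ ((P ^ 2) v) v = ‖P v‖ ^ 2 := by
  rw [h.shift 0 v, pow_zero, Module.End.one_apply, real_inner_self_eq_norm_sq]

theorem anti : ∀ (n : ℕ) (v : V), inner ℝ ((P ^ (n + 1)) v) v ≤ inner ℝ ((P ^ n) v) v
  | 0, v => by simpa [real_inner_self_eq_norm_sq] using h.le v
  | 1, v => by rw [h.two, pow_one]; exact h.sq v
  | n + 2, v => by
    rw [show n + 2 + 1 = n + 1 + 2 by ring, h.shift, h.shift]; exact anti n (P v)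

theorem norm_pow (n : ℕ) (v : V) : ‖(P ^ n) v‖ ^ 2 = inner ℝ ((P ^ (2 * n)) v) v := by
  rw [two_mul, pow_add, Module.End.mul_apply, h.symm_pow, real_inner_self_eq_norm_sq]

theorem sq_pow (n : ℕ) (v : V) : ‖(P ^ n) v‖ ^ 2 ≤ inner ℝ ((P ^ n) v) v := by
  rw [h.norm_pow]
  exact antitone_nat_of_succ_le (f := fun k => inner ℝ ((P ^ k) v) v) (fun k => h.anti k v)
    (by omega)

theorem near (n : ℕ) (v : V) : ‖v - (P ^ n) v‖ ^ 2 ≤ ‖v‖ ^ 2 - inner ℝ ((P ^ n) v) v := by
  rw [norm_sub_sq_real, real_inner_comm]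
  linarith [h.sq_pow n v]

theorem near' (n : ℕ) (v : V) : ‖v - (P ^ n) v‖ ^ 2 ≤ ‖v‖ ^ 2 - ‖(P ^ n) v‖ ^ 2 := by
  linarith [h.near n v, h.sq_pow n v]

theorem q_le (v : V) :
    ‖P v‖ ^ 2 - inner ℝ (P (P v)) (P v) ≤ ‖v‖ ^ 2 - inner ℝ (P v) v := by
  have h1 := h.sq (v - P v)
  have h2 : inner ℝ (P (v - P v)) (v - P v) =
      inner ℝ (P v) v - 2 * ‖P v‖ ^ 2 + inner ℝ (P (P v)) (P v) := by
    rw [map_sub, inner_sub_left, inner_sub_right, inner_sub_right, h.symm (P v) v,
      real_inner_self_eq_norm_sq]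
    ring
  have h3 : ‖v - P v‖ ^ 2 = ‖v‖ ^ 2 - 2 * inner ℝ (P v) v + ‖P v‖ ^ 2 := by
    rw [norm_sub_sq_real, real_inner_comm]
  nlinarith [sq_nonneg ‖v - P v‖, sq_nonneg ‖P (v - P v)‖]

theorem step : ∀ (n : ℕ) (v : V), inner ℝ ((P ^ n) v) v - inner ℝ ((P ^ (n + 1)) v) v ≤
    ‖v‖ ^ 2 - inner ℝ (P v) v
  | 0, v => by simp
  | 1, v => by
    rw [h.two, pow_one]
    have h3 : ‖v - P v‖ ^ 2 = ‖v‖ ^ 2 - 2 * inner ℝ (P v) v + ‖P v‖ ^ 2 := by
      rw [norm_sub_sq_real, real_inner_comm]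
    nlinarith [sq_nonneg ‖v - P v‖]
  | n + 2, v => by
    rw [show n + 2 + 1 = n + 1 + 2 by ring, h.shift, h.shift]
    exact (step n (P v)).trans (h.q_le v)

theorem loss (v : V) : ∀ n : ℕ, ‖v‖ ^ 2 - inner ℝ ((P ^ n) v) v ≤
    n * (‖v‖ ^ 2 - inner ℝ (P v) v)
  | 0 => by simp
  | n + 1 => by
    have h1 := loss v n
    have h2 := h.step n v
    push_cast
    linarith

end Pos

/-- Product of the operators along a word. -/
def W (f : ℕ → Module.End ℝ V) (w : List ℕ) : Module.End ℝ V := (w.map f).prod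

/-- Norm loss along a word. -/
def dd (f : ℕ → Module.End ℝ V) (w : List ℕ) (y : V) : ℝ := ‖y‖ ^ 2 - ‖W f w y‖ ^ 2

variable {f : ℕ → Module.End ℝ V}

@[simp] theorem W_nil : W f [] = 1 := rfl

theorem W_cons (j : ℕ) (w : List ℕ) : W f (j :: w) = f j * W f w := by simp [W]

theorem W_cons' (j : ℕ) (w : List ℕ) (y : V) : W f (j :: w) y = f j (W f w y) := by
  rw [W_cons, Module.End.mul_apply]

theorem W_append (u w : List ℕ) : W f (u ++ w) = W f u * W f w := by simp [W]

theorem W_one (j : ℕ) : W f [j] = f j := by simp [W]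

theorem W_commute {T : Module.End ℝ V} (hT : ∀ j, Commute T (f j)) :
    ∀ w : List ℕ, Commute T (W f w)
  | [] => Commute.one_right T
  | j :: w => by rw [W_cons]; exact (hT j).mul_right (W_commute hT w)

variable (hf : ∀ j, IsOP (f j))
include hf

theorem W_con : ∀ w : List ℕ, Con (W f w)
  | [] => fun v => le_rfl
  | j :: w => by rw [W_cons]; exact Con.mul (hf j).norm_le (W_con w)

theorem W_adj : ∀ (w : List ℕ) (x y : V), inner ℝ (W f w x) y = inner ℝ x (W f w.reverse y)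
  | [], x, y => rfl
  | j :: w, x, y => by
    rw [W_cons', (hf j).symm, W_adj w, List.reverse_cons, W_append, W_one, Module.End.mul_apply]

theorem W_move {y : V} {a : ℝ} : ∀ w : List ℕ, (∀ j ∈ w, ‖y - f j y‖ ≤ a) →
    ‖y - W f w y‖ ≤ w.length * a
  | [], _ => by simp
  | j :: w, H => by
    have h1 := W_move w fun k hk => H k (List.mem_cons_of_mem _ hk)
    have h2 := H j List.mem_cons_self
    have h3 : y - W f (j :: w) y = (y - f j y) + f j (y - W f w y) := by
      rw [W_cons', map_sub]; abel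
    rw [h3, List.length_cons]
    have h4 := norm_add_le (y - f j y) (f j (y - W f w y))
    have h5 := (hf j).norm_le (y - W f w y)
    push_cast
    linarith

theorem sub_move (j : ℕ) (y z : V) : ‖z - f j z‖ ≤ ‖y - f j y‖ + ‖y - z‖ := by
  have h3 : z - f j z = (y - f j y) - ((y - z) - f j (y - z)) := by rw [map_sub]; abel
  rw [h3]
  exact (norm_sub_le _ _).trans (by linarith [(hf j).norm_sub_le (y - z)])

theorem dd_nonneg (w : List ℕ) (y : V) : 0 ≤ dd f w y := by
  have := W_con hf w y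
  unfold dd
  nlinarith [norm_nonneg (W f w y)]

theorem dd_cons (j : ℕ) (w : List ℕ) (y : V) :
    dd f (j :: w) y = dd f w y + ‖W f w y - f j (W f w y)‖ ^ 2 := by
  unfold dd
  rw [W_cons', (hf j).pyth (W f w y)]
  ring

theorem dd_contr {T : Module.End ℝ V} (hT : ∀ j, Commute T (f j)) (hc : Con T) (y : V) :
    ∀ w : List ℕ, dd f w (T y) ≤ dd f w y
  | [] => by simp [dd]
  | j :: w => by
    rw [dd_cons hf, dd_cons hf, ← capp (W_commute hT w), ← capp (hT j), ← map_sub]
    have h1 := dd_contr hT hc y w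
    have h2 := hc (W f w y - f j (W f w y))
    nlinarith [norm_nonneg (T (W f w y - f j (W f w y)))]

theorem dd_le {y : V} {a : ℝ} (ha : 0 ≤ a) : ∀ w : List ℕ, (∀ j ∈ w, ‖y - f j y‖ ≤ a) →
    dd f w y ≤ (w.length : ℝ) ^ 3 * a ^ 2
  | [], _ => by simp [dd]
  | j :: w, H => by
    have h0 : ∀ k ∈ w, ‖y - f k y‖ ≤ a := fun k hk => H k (List.mem_cons_of_mem _ hk)
    have h1 := dd_le ha w h0
    have h2 := W_move hf w h0
    have h3 := sub_move hf j y (W f w y)
    have h4 := H j List.mem_cons_self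
    have h5 : ‖W f w y - f j (W f w y)‖ ≤ (w.length + 1) * a := by linarith
    have h6 := pow_le_pow_left₀ (norm_nonneg _) h5 2
    rw [dd_cons hf, List.length_cons]
    have h7 : (0 : ℝ) ≤ w.length := Nat.cast_nonneg _
    push_cast
    nlinarith [mul_nonneg h7 (sq_nonneg a), mul_nonneg (mul_nonneg h7 h7) (sq_nonneg a)]

theorem le_dd {y : V} {s : ℝ} (hs : 0 ≤ s) : ∀ w : List ℕ, dd f w y ≤ s ^ 2 →
    ‖y - W f w y‖ ≤ w.length * s ∧ ∀ j ∈ w, ‖y - f j y‖ ≤ w.length * s
  | [], _ => by simp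
  | j :: w, H => by
    rw [dd_cons hf] at H
    have h0 := dd_nonneg hf w y
    obtain ⟨h1, h2⟩ := le_dd hs w (by nlinarith [sq_nonneg ‖W f w y - f j (W f w y)‖])
    have h3 : ‖W f w y - f j (W f w y)‖ ≤ s := le_of_sq hs (by linarith)
    rw [List.length_cons]
    push_cast
    refine ⟨?_, fun k hk => ?_⟩
    · have h4 : y - W f (j :: w) y = (y - W f w y) + (W f w y - f j (W f w y)) := by
        rw [W_cons']; abel
      rw [h4]
      exact (norm_add_le _ _).trans (by linarith)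
    · rcases List.mem_cons.mp hk with rfl | hk
      · have h4 := sub_move hf k (W f w y) y
        rw [norm_sub_rev (W f w y) y] at h4
        linarith
      · linarith [h2 k hk]

theorem inner_pal (w : List ℕ) (y : V) :
    inner ℝ (W f (w.reverse ++ w) y) y = ‖W f w y‖ ^ 2 := by
  rw [W_append, Module.End.mul_apply, W_adj hf, List.reverse_reverse, real_inner_self_eq_norm_sq]

theorem pos_pal (w : List ℕ) : Pos (W f (w.reverse ++ w)) := by
  refine ⟨fun x y => ?_, fun v => ?_⟩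
  · rw [W_adj hf, List.reverse_append, List.reverse_reverse]
  · rw [inner_pal hf, W_append, Module.End.mul_apply]
    exact pow_le_pow_left₀ (norm_nonneg _) (W_con hf _ _) 2

theorem dd_eq (w : List ℕ) (y : V) :
    dd f w y = ‖y‖ ^ 2 - inner ℝ (W f (w.reverse ++ w) y) y := by
  rw [inner_pal hf]; rfl

theorem dd_pal (w : List ℕ) (y : V) : dd f w (W f (w.reverse ++ w) y) ≤ dd f w y := by
  rw [dd_eq hf, dd_eq hf]; exact (pos_pal hf w).q_le y

theorem dd_le_loss (w : List ℕ) (y : V) :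
    dd f w y ≤ ‖y‖ ^ 2 - ‖W f (w.reverse ++ w) y‖ ^ 2 := by
  rw [dd_eq hf]; linarith [(pos_pal hf w).sq y]

/-- A projection of the family fails on a word applied to `y` by at most the loss of `y`. -/
theorem fail_le {w u : List ℕ} (hu : ∀ k ∈ u, k ∈ w) (hl : u.length ≤ 2 * w.length) {j : ℕ}
    (hj : j ∈ w) (y : V) : ‖W f u y - f j (W f u y)‖ ^ 2 ≤
      ((1 + 2 * w.length) * w.length) ^ 2 * dd f w y := by
  have h0 := dd_nonneg hf w y
  obtain ⟨-, h2⟩ := le_dd hf (Real.sqrt_nonneg (dd f w y)) w (Real.sq_sqrt h0).ge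
  have h3 := W_move hf u fun k hk => h2 k (hu k hk)
  have h4 := sub_move hf j y (W f u y)
  have h5 := h2 j hj
  have h6 : (u.length : ℝ) ≤ 2 * w.length := by exact_mod_cast hl
  have h7 : 0 ≤ (w.length : ℝ) * √(dd f w y) := by positivity
  have h8 : ‖W f u y - f j (W f u y)‖ ≤ (1 + 2 * w.length) * w.length * √(dd f w y) := by
    nlinarith
  have h9 := pow_le_pow_left₀ (norm_nonneg _) h8 2
  rwa [mul_pow, Real.sq_sqrt h0] at h9

/-- Telescoping the difference of two words. -/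
theorem tele {g : ℕ → Module.End ℝ V} {x : V} {K : ℝ} : ∀ (w : List ℕ) (z : V),
    (∀ u j u', w = u ++ j :: u' →
      inner ℝ (f j (W g u' x) - g j (W g u' x)) (W f u.reverse z) ≤ K) →
    inner ℝ (W f w x - W g w x) z ≤ w.length * K
  | [], z, _ => by simp
  | j :: w, z, H => by
    have h1 := tele w (f j z) fun u k u' e => by
      have := H (j :: u) k u' (by rw [e]; rfl)
      rwa [List.reverse_cons, W_append, W_one, Module.End.mul_apply] at this
    have h2 := H [] j w rfl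
    have h3 : W f (j :: w) x - W g (j :: w) x =
        f j (W f w x - W g w x) + (f j (W g w x) - g j (W g w x)) := by
      rw [W_cons', W_cons', map_sub]; abel
    rw [h3, inner_add_left, (hf j).symm, List.length_cons]
    simp only [List.reverse_nil, W_nil, Module.End.one_apply] at h2
    push_cast
    linarith

omit hf in
theorem tele_pow {S M : Module.End ℝ V} (hS : Pos S) {x : V} {K : ℝ} : ∀ (n : ℕ) (z : V),
    (∀ i m, i < n → inner ℝ (S ((M ^ m) x) - M ((M ^ m) x)) ((S ^ i) z) ≤ K) →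
    inner ℝ ((S ^ n) x - (M ^ n) x) z ≤ n * K
  | 0, z, _ => by simp
  | n + 1, z, H => by
    have h1 := tele_pow hS n (S z) fun i m hi => by
      have := H (i + 1) m (by omega)
      rwa [pow_succ S, Module.End.mul_apply] at this
    have h2 := H 0 n (by omega)
    have h3 : (S ^ (n + 1)) x - (M ^ (n + 1)) x =
        S ((S ^ n) x - (M ^ n) x) + (S ((M ^ n) x) - M ((M ^ n) x)) := by
      rw [pow_succ', pow_succ', Module.End.mul_apply, Module.End.mul_apply, map_sub]; abel
    rw [h3, inner_add_left, hS.symm]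
    simp only [pow_zero, Module.End.one_apply] at h2
    push_cast
    linarith

end Pool.Agent.PolNA.Sm

end MrgPart0

-- ======== part 1: formerly Pool.Agent.PolNA.Smooth2
section MrgPart1

/-!
# Independent walks on commuting fibres
-/

set_option autoImplicit false

namespace Pool.Agent.PolNA.Sm

open Finset

variable {V : Type} [NormedAddCommGroup V] [InnerProductSpace ℝ V] {ι : Type} [DecidableEq ι]

/-- Projections indexed by a set of fibres and a type, multiplicative in the set of fibres. -/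
structure Fam (F : Finset ι → ℕ → Module.End ℝ V) : Prop where
  op : ∀ T j, IsOP (F T j)
  empty : ∀ j, F ∅ j = 1
  union : ∀ T T' j, Disjoint T T' → F (T ∪ T') j = F T j * F T' j
  comm : ∀ T T' j k, Disjoint T T' → Commute (F T j) (F T' k)

/-- Projection onto the vectors failing in at least two fibres. -/
def T2 (F : Finset ι → ℕ → Module.End ℝ V) (j : ℕ) (S : Finset ι) : Module.End ℝ V :=
  1 - F S j - ∑ i ∈ S, (1 - F {i} j) * F (S.erase i) j

namespace Fam

variable {F : Finset ι → ℕ → Module.End ℝ V} (h : Fam F)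
include h

theorem ins {i : ι} {T : Finset ι} (hi : i ∉ T) (j : ℕ) : F (insert i T) j = F {i} j * F T j := by
  rw [insert_eq, h.union _ _ _ (disjoint_singleton_left.mpr hi)]

theorem cmF {T T' : Finset ι} (hd : Disjoint T T') (j : ℕ) (u : List ℕ) :
    Commute (F T j) (W (F T') u) := W_commute (fun k => h.comm T T' j k hd) u

theorem cm {T T' : Finset ι} (hd : Disjoint T T') (u u' : List ℕ) :
    Commute (W (F T) u) (W (F T') u') :=
  W_commute (fun k => (h.cmF hd.symm k u).symm) u'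

theorem W_union {T T' : Finset ι} (hd : Disjoint T T') :
    ∀ u : List ℕ, W (F (T ∪ T')) u = W (F T) u * W (F T') u
  | [] => by simp
  | j :: u => by
    rw [W_cons, W_cons, W_cons, W_union hd u, h.union _ _ _ hd, mul_assoc, mul_assoc,
      ← mul_assoc (F T' j), (h.cmF hd.symm j u).eq, mul_assoc]

theorem W_ins {i : ι} {T : Finset ι} (hi : i ∉ T) (u : List ℕ) :
    W (F (insert i T)) u = W (F {i}) u * W (F T) u := by
  rw [insert_eq, h.W_union (disjoint_singleton_left.mpr hi)]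

theorem W_erase {i : ι} {T : Finset ι} (hi : i ∈ T) (u : List ℕ) :
    W (F T) u = W (F {i}) u * W (F (T.erase i)) u := by
  rw [← h.W_ins (notMem_erase i T), insert_erase hi]

theorem W_empty : ∀ u : List ℕ, W (F ∅) u = 1
  | [] => rfl
  | j :: u => by rw [W_cons, W_empty u, h.empty, mul_one]

theorem d_out {i : ι} {T : Finset ι} (hi : i ∉ T) (w u : List ℕ) (y : V) :
    dd (F {i}) w (W (F T) u y) ≤ dd (F {i}) w y :=
  dd_contr (h.op _) (fun k => (h.cmF (disjoint_singleton_left.mpr hi) k u).symm)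
    (W_con (h.op _) u) y w

theorem d_M (i : ι) (T : Finset ι) (w : List ℕ) (y : V) :
    dd (F {i}) w (W (F T) (w.reverse ++ w) y) ≤ dd (F {i}) w y := by
  by_cases hi : i ∈ T
  · rw [h.W_erase hi, Module.End.mul_apply]
    exact (dd_pal (h.op _) w _).trans (h.d_out (notMem_erase i T) w _ y)
  · exact h.d_out hi w _ y

theorem d_Mpow (i : ι) (T : Finset ι) (w : List ℕ) (y : V) :
    ∀ n : ℕ, dd (F {i}) w ((W (F T) (w.reverse ++ w) ^ n) y) ≤ dd (F {i}) w y
  | 0 => by simp
  | n + 1 => by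
    rw [pow_succ', Module.End.mul_apply]
    exact (h.d_M i T w _).trans (d_Mpow i T w y n)

theorem sum_d (w : List ℕ) (y : V) (T : Finset ι) :
    ∑ i ∈ T, dd (F {i}) w (W (F T) (w.reverse ++ w) y) ≤
      ‖y‖ ^ 2 - ‖W (F T) (w.reverse ++ w) y‖ ^ 2 := by
  induction T using Finset.induction_on with
  | empty => simp [h.W_empty]
  | insert k T hk ih =>
    rw [sum_insert hk, h.W_ins hk, Module.End.mul_apply]
    have h1 := (dd_pal (h.op {k}) w (W (F T) (w.reverse ++ w) y)).trans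
      (dd_le_loss (h.op {k}) w (W (F T) (w.reverse ++ w) y))
    have h2 : ∑ i ∈ T, dd (F {i}) w (W (F {k}) (w.reverse ++ w) (W (F T) (w.reverse ++ w) y)) ≤
        ∑ i ∈ T, dd (F {i}) w (W (F T) (w.reverse ++ w) y) :=
      sum_le_sum fun i _ => h.d_M i {k} w _
    linarith

theorem sum_d_pow (w : List ℕ) (y : V) (T : Finset ι) : ∀ r : ℕ,
    r * ∑ i ∈ T, dd (F {i}) w ((W (F T) (w.reverse ++ w) ^ r) y) ≤
      ‖y‖ ^ 2 - ‖(W (F T) (w.reverse ++ w) ^ r) y‖ ^ 2
  | 0 => by simp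
  | r + 1 => by
    have h1 := sum_d_pow w y T r
    have h2 := h.sum_d w ((W (F T) (w.reverse ++ w) ^ r) y) T
    have h3 : ∑ i ∈ T, dd (F {i}) w (W (F T) (w.reverse ++ w) ((W (F T) (w.reverse ++ w) ^ r) y))
        ≤ ∑ i ∈ T, dd (F {i}) w ((W (F T) (w.reverse ++ w) ^ r) y) :=
      sum_le_sum fun i _ => h.d_M i T w _
    have h4 := mul_le_mul_of_nonneg_left h3 (Nat.cast_nonneg (α := ℝ) r)
    rw [pow_succ' _ r, Module.End.mul_apply]
    push_cast
    linarith

theorem union_bound (j : ℕ) (v : V) (S : Finset ι) :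
    ‖v - F S j v‖ ^ 2 ≤ ∑ i ∈ S, ‖v - F {i} j v‖ ^ 2 := by
  induction S using Finset.induction_on with
  | empty => simp [h.empty]
  | insert k S hk ih =>
    have h1 : v - F (insert k S) j v = F {k} j (v - F S j v) + (v - F {k} j v) := by
      rw [h.ins hk, Module.End.mul_apply, map_sub]; abel
    rw [sum_insert hk, h1, orth (h.op _ _)]
    have h2 := pow_le_pow_left₀ (norm_nonneg _) ((h.op {k} j).norm_le (v - F S j v)) 2
    linarith

theorem T2_insert (j : ℕ) {k : ι} {S : Finset ι} (hk : k ∉ S) :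
    T2 F j (insert k S) = F {k} j * T2 F j S + (1 - F {k} j) * (1 - F S j) := by
  have h1 : ∑ i ∈ S, (1 - F {i} j) * F ((insert k S).erase i) j =
      F {k} j * ∑ i ∈ S, (1 - F {i} j) * F (S.erase i) j := by
    rw [mul_sum]
    refine sum_congr rfl fun i hi => ?_
    have hik : k ≠ i := fun e => hk (e ▸ hi)
    have hc : Commute (F {k} j) (1 - F {i} j) :=
      (Commute.one_right _).sub_right (h.comm _ _ _ _ (disjoint_singleton.mpr hik))
    rw [erase_insert_of_ne hik, h.ins (fun hh => hk (mem_of_mem_erase hh)), ← mul_assoc,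
      ← hc.eq, mul_assoc]
  unfold T2
  rw [sum_insert hk, erase_insert hk, h1, h.ins hk]
  noncomm_ring

theorem T2_bound (j : ℕ) (v : V) (S : Finset ι) :
    ‖T2 F j S v‖ ^ 2 ≤
      ∑ k ∈ S, ∑ i ∈ S.erase k, ‖(v - F {k} j v) - F {i} j (v - F {k} j v)‖ ^ 2 := by
  induction S using Finset.induction_on with
  | empty => simp [T2, h.empty]
  | insert k S hk ih =>
    have hc := h.comm {k} S j j (disjoint_singleton_left.mpr hk)
    have h1 : T2 F j (insert k S) v =
        F {k} j (T2 F j S v) + ((v - F S j v) - F {k} j (v - F S j v)) := by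
      rw [h.T2_insert j hk]; rfl
    have h2 : (v - F S j v) - F {k} j (v - F S j v) =
        (v - F {k} j v) - F S j (v - F {k} j v) := by
      rw [map_sub, map_sub, capp hc]; abel
    rw [sum_insert hk, erase_insert hk, h1, orth (h.op _ _), h2]
    have h3 := pow_le_pow_left₀ (norm_nonneg _) ((h.op {k} j).norm_le (T2 F j S v)) 2
    have h4 := h.union_bound j (v - F {k} j v) S
    have h5 : ∑ l ∈ S, ∑ i ∈ S.erase l, ‖(v - F {l} j v) - F {i} j (v - F {l} j v)‖ ^ 2 ≤
        ∑ l ∈ S, ∑ i ∈ (insert k S).erase l, ‖(v - F {l} j v) - F {i} j (v - F {l} j v)‖ ^ 2 :=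
      sum_le_sum fun l _ => sum_le_sum_of_subset_of_nonneg
        (erase_subset_erase l (subset_insert k S)) fun _ _ _ => sq_nonneg _
    linarith

/-- Two-fibre estimate. -/
theorem two_fibre {w u : List ℕ} (hu : ∀ k ∈ u, k ∈ w) (hl : u.length ≤ 2 * w.length) {j : ℕ}
    (hj : j ∈ w) (S : Finset ι) (ξ : V) (r m : ℕ) :
    (r : ℝ) ^ 2 * ‖T2 F j S (W (F S) u ((W (F S) (w.reverse ++ w) ^ (2 * r + m)) ξ))‖ ^ 2 ≤
      (((1 + 2 * w.length) * w.length) ^ 2) ^ 2 *
        (‖ξ‖ ^ 2 - ‖(W (F S) (w.reverse ++ w) ^ r) ξ‖ ^ 2) := by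
  set C : ℝ := ((1 + 2 * w.length) * w.length) ^ 2 with hC
  have hC0 : 0 ≤ C := sq_nonneg _
  have hr : (0 : ℝ) ≤ r := Nat.cast_nonneg r
  set p := w.reverse ++ w with hp
  set v := W (F S) u ((W (F S) p ^ (2 * r + m)) ξ) with hv
  have key : ∀ k ∈ S, r * ∑ i ∈ S.erase k, ‖(v - F {k} j v) - F {i} j (v - F {k} j v)‖ ^ 2 ≤
      C * (C * dd (F {k}) w ((W (F S) p ^ r) ξ)) := by
    intro k hk
    have hd : Disjoint {k} (S.erase k) := disjoint_singleton_left.mpr (notMem_erase k S)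
    set x := (W (F {k}) p ^ r) ((W (F S) p ^ (r + m)) ξ) with hx
    set z := W (F {k}) u x - F {k} j (W (F {k}) u x) with hz
    have hz1 : ‖z‖ ^ 2 ≤ C * dd (F {k}) w ((W (F S) p ^ r) ξ) := by
      refine (fail_le (h.op _) hu hl hj x).trans (mul_le_mul_of_nonneg_left ?_ hC0)
      refine (h.d_Mpow k {k} w _ r).trans ?_
      rw [add_comm r m, pow_add, Module.End.mul_apply]
      exact h.d_Mpow k S w _ m
    have hy : (W (F S) p ^ (2 * r + m)) ξ = (W (F (S.erase k)) p ^ r) x := by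
      rw [hx, ← Module.End.mul_apply (W (F (S.erase k)) p ^ r), ← ((h.cm hd p p).pow_pow r r).eq,
        ← (h.cm hd p p).mul_pow, ← h.W_erase hk, ← Module.End.mul_apply, ← pow_add]
      congr 2
      ring
    have hv2 : v - F {k} j v = W (F (S.erase k)) u ((W (F (S.erase k)) p ^ r) z) := by
      rw [hv, hy, h.W_erase hk u, Module.End.mul_apply, capp (h.cm hd u u),
        capp ((h.cm hd u p).pow_right r), capp (h.cmF hd j u), capp ((h.cmF hd j p).pow_right r),
        hz, map_sub, map_sub]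
    have h3 : ∀ i ∈ S.erase k, ‖(v - F {k} j v) - F {i} j (v - F {k} j v)‖ ^ 2 ≤
        C * dd (F {i}) w ((W (F (S.erase k)) p ^ r) z) := by
      intro i hi
      have hd' : Disjoint {i} ((S.erase k).erase i) :=
        disjoint_singleton_left.mpr (notMem_erase i _)
      refine le_trans ?_ (fail_le (h.op _) hu hl hj _)
      rw [hv2, h.W_erase hi u, Module.End.mul_apply, capp (h.cm hd' u u), capp (h.cmF hd' j u),
        ← map_sub]
      exact pow_le_pow_left₀ (norm_nonneg _) (W_con (h.op _) u _) 2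
    have h4 := mul_le_mul_of_nonneg_left (sum_le_sum h3) hr
    have h5 := mul_le_mul_of_nonneg_left (h.sum_d_pow w z (S.erase k) r) hC0
    have h6 := mul_le_mul_of_nonneg_left hz1 hC0
    have h7 := mul_nonneg hC0 (sq_nonneg ‖(W (F (S.erase k)) p ^ r) z‖)
    rw [← mul_sum] at h4
    rw [← hp] at h5
    nlinarith
  have h1 := mul_le_mul_of_nonneg_left (h.T2_bound j v S) hr
  have h2 := sum_le_sum key
  rw [← mul_sum, ← mul_sum, ← mul_sum] at h2
  have h3 := mul_le_mul_of_nonneg_left (h1.trans h2) hr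
  have h4 := mul_le_mul_of_nonneg_left (h.sum_d_pow w ξ S r) (sq_nonneg C)
  rw [← hp] at h4
  nlinarith

/-- The difference between the synchronised and the independent projection. -/
theorem diff_le {S : Finset ι} {j : ℕ} {Q : Module.End ℝ V} (hQ : IsOP Q)
    (h1 : Q * F S j = F S j) (h2 : ∀ i ∈ S, Q * F (S.erase i) j = F S j) (x z : V) :
    inner ℝ (Q x - F S j x) z ≤ ‖T2 F j S x‖ * ‖z - F S j z‖ := by
  have hP := h.op S j
  have e1 : Q * T2 F j S = Q - F S j := by
    unfold T2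
    rw [mul_sub, mul_sub, mul_one, h1, mul_sum, sum_eq_zero, sub_zero]
    intro i hi
    have hc := h.comm {i} (S.erase i) j j (disjoint_singleton_left.mpr (notMem_erase i S))
    have e : F {i} j * F (S.erase i) j = F S j := by
      rw [← h.ins (notMem_erase i S), insert_erase hi]
    rw [sub_mul, one_mul, e, mul_sub, h1, h2 i hi, sub_self]
  have e2 : inner ℝ (Q x - F S j x) (F S j z) = 0 := by
    rw [inner_sub_left, hQ.symm, ← Module.End.mul_apply Q, h1, hP.symm, hP.app, sub_self]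
  have e3 : inner ℝ (Q x - F S j x) z = inner ℝ (Q (T2 F j S x)) (z - F S j z) := by
    rw [← Module.End.mul_apply Q, e1, LinearMap.sub_apply, inner_sub_right, e2, sub_zero]
  rw [e3]
  exact (real_inner_le_norm _ _).trans
    (mul_le_mul_of_nonneg_right (hQ.norm_le _) (norm_nonneg _))

end Fam

end Pool.Agent.PolNA.Sm

end MrgPart1

-- ======== part 2: formerly Pool.Agent.PolNA.Smooth
section MrgPart2

/-!
# Smoothing by independent walks
-/

set_option autoImplicit false

namespace Pool.Agent.PolNA.Sm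

open Finset

variable {V : Type} [NormedAddCommGroup V] [InnerProductSpace ℝ V] {ι : Type} [DecidableEq ι]

namespace Fam

variable {F : Finset ι → ℕ → Module.End ℝ V} (h : Fam F) {S : Finset ι}
  {Q : ℕ → Module.End ℝ V} (hQ : ∀ j, IsOP (Q j)) (h1 : ∀ j, Q j * F S j = F S j)
  (h2 : ∀ j, ∀ i ∈ S, Q j * F (S.erase i) j = F S j) (w : List ℕ) (ξ : V) {ε c : ℝ}
  (hε0 : 0 ≤ ε) (hc0 : 0 ≤ c) (hε : ∀ j ∈ w, ‖ξ - Q j ξ‖ ≤ ε) (hc : ∀ j ∈ w, ‖ξ - F S j ξ‖ ≤ c)
include h hQ h1 h2 hε0 hc0 hε hc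

theorem double {r : ℕ} (hr : 0 < r) {b u : ℝ} (hb0 : 0 ≤ b) (hu0 : 0 ≤ u)
    (hb : 2 * r * ((w.length : ℝ) ^ 3 * ε ^ 2) ≤ b ^ 2)
    (hu : ‖ξ‖ ^ 2 - ‖(W (F S) (w.reverse ++ w) ^ r) ξ‖ ^ 2 ≤ u ^ 2) :
    ‖ξ‖ ^ 2 - ‖(W (F S) (w.reverse ++ w) ^ (2 * r)) ξ‖ ^ 2 ≤
      (u + (b + 4 * w.length * ((1 + 2 * w.length) * w.length) ^ 2 *
        (c + b + 2 * w.length * ε))) ^ 2 := by
  set C : ℝ := ((1 + 2 * w.length) * w.length) ^ 2 with hC
  have hC0 : 0 ≤ C := sq_nonneg _
  have hr' : (0 : ℝ) < r := by exact_mod_cast hr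
  have hL : (0 : ℝ) ≤ w.length := Nat.cast_nonneg _
  set p := w.reverse ++ w with hp
  have hpl : p.length = 2 * w.length := by rw [hp, List.length_append, List.length_reverse]; ring
  have hpw : ∀ k ∈ p, k ∈ w := fun k hk => by
    rcases List.mem_append.mp hk with hk | hk
    exacts [List.mem_reverse.mp hk, hk]
  have hM : Pos (W (F S) p) := pos_pal (h.op S) w
  have hS : Pos (W Q p) := pos_pal hQ w
  set ζ := (W (F S) p ^ (2 * r)) ξ with hζ
  have hq : ∀ i ≤ 2 * r, ‖ξ‖ ^ 2 - inner ℝ ((W Q p ^ i) ξ) ξ ≤ b ^ 2 := by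
    intro i hi
    have e1 := hS.loss ξ i
    rw [← dd_eq hQ] at e1
    have e2 := dd_le hQ hε0 w hε
    have e3 : (i : ℝ) ≤ 2 * r := by exact_mod_cast hi
    have e4 := dd_nonneg hQ w ξ
    nlinarith
  have hnear : ∀ i ≤ 2 * r, ‖ξ - (W Q p ^ i) ξ‖ ≤ b := fun i hi =>
    le_of_sq hb0 ((hS.near i ξ).trans (hq i hi))
  set K : ℝ := C * u / r * (c + b + 2 * w.length * ε) with hK
  have t1 : inner ℝ ((W Q p ^ (2 * r)) ζ - (W (F S) p ^ (2 * r)) ζ) ξ ≤
      ((2 * r : ℕ) : ℝ) * (p.length * K) := by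
    refine tele_pow hS _ _ fun i m hi => tele hQ p _ fun a j a' e => ?_
    have ha : ∀ k ∈ a, k ∈ w := fun k hk => hpw k (by rw [e]; simp [hk])
    have ha' : ∀ k ∈ a', k ∈ w := fun k hk => hpw k (by rw [e]; simp [hk])
    have hj : j ∈ w := hpw j (by rw [e]; simp)
    have hlen := congrArg List.length e
    rw [hpl, List.length_append, List.length_cons] at hlen
    refine (h.diff_le (hQ j) (h1 j) (h2 j) _ _).trans (mul_le_mul ?_ ?_ (norm_nonneg _)
      (by positivity))
    · have e1 := h.two_fibre ha' (by omega) hj S ξ r m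
      rw [← hp, ← hC, add_comm (2 * r) m, pow_add, Module.End.mul_apply, ← hζ] at e1
      rw [le_div_iff₀ hr']
      refine le_of_sq (by positivity) ?_
      have e2 := mul_le_mul_of_nonneg_left hu (sq_nonneg C)
      rw [mul_pow, mul_pow]
      linarith
    · have e1 := sub_move (h.op S) j ξ (W Q a.reverse ((W Q p ^ i) ξ))
      have e2 := W_move hQ a.reverse fun k hk => hε k (ha k (List.mem_reverse.mp hk))
      have e3 := W_con hQ a.reverse (ξ - (W Q p ^ i) ξ)
      have e4 : ξ - W Q a.reverse ((W Q p ^ i) ξ) =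
          (ξ - W Q a.reverse ξ) + W Q a.reverse (ξ - (W Q p ^ i) ξ) := by rw [map_sub]; abel
      have e5 := norm_add_le (ξ - W Q a.reverse ξ) (W Q a.reverse (ξ - (W Q p ^ i) ξ))
      have e6 : (a.reverse.length : ℝ) ≤ 2 * w.length := by
        rw [List.length_reverse]; exact_mod_cast (by omega : a.length ≤ 2 * w.length)
      have e7 := mul_le_mul_of_nonneg_right e6 hε0
      rw [← e4] at e5
      linarith [hnear i hi.le, hc j hj]
  have t2 : ((2 * r : ℕ) : ℝ) * (p.length * K) =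
      u * (4 * w.length * C * (c + b + 2 * w.length * ε)) := by
    rw [hpl, hK]; push_cast; field_simp; ring
  have t3 : inner ℝ ((W (F S) p ^ (2 * r)) ζ) ξ = ‖ζ‖ ^ 2 := by
    rw [hM.symm_pow, real_inner_self_eq_norm_sq]
  have t4 : inner ℝ ζ ξ = ‖(W (F S) p ^ r) ξ‖ ^ 2 := (hM.norm_pow r ξ).symm
  have t5 : ‖ξ - ζ‖ ≤ u := le_of_sq hu0 ((hM.near _ ξ).trans (by rw [← hζ, t4]; exact hu))
  have t6 : inner ℝ ((W Q p ^ (2 * r)) ζ) ξ = inner ℝ ζ ξ -
      (‖ξ‖ ^ 2 - inner ℝ ((W Q p ^ (2 * r)) ξ) ξ) +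
        inner ℝ (ξ - ζ) (ξ - (W Q p ^ (2 * r)) ξ) := by
    rw [hS.symm_pow, inner_sub_left, inner_sub_right, inner_sub_right,
      real_inner_self_eq_norm_sq, real_inner_comm ξ ((W Q p ^ (2 * r)) ξ)]
    ring
  have t7 : -(u * b) ≤ inner ℝ (ξ - ζ) (ξ - (W Q p ^ (2 * r)) ξ) := by
    have e1 := (abs_le.mp (abs_real_inner_le_norm (ξ - ζ) (ξ - (W Q p ^ (2 * r)) ξ))).1
    have e2 := mul_le_mul t5 (hnear _ le_rfl) (norm_nonneg _) hu0
    linarith
  have t8 := hq _ le_rfl
  rw [t2, inner_sub_left, t3, t6, t4] at t1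
  have t9 : 0 ≤ 4 * w.length * C * (c + b + 2 * w.length * ε) := by positivity
  nlinarith [mul_nonneg hu0 hb0, mul_nonneg hu0 t9, mul_nonneg hb0 t9, sq_nonneg
    (4 * w.length * C * (c + b + 2 * w.length * ε))]

theorem iter {ρ : ℝ} (hρ : 0 ≤ ρ) : ∀ t : ℕ, (2 : ℝ) ^ t ≤ ρ ^ 2 →
    ‖ξ‖ ^ 2 - ‖(W (F S) (w.reverse ++ w) ^ (2 ^ t)) ξ‖ ^ 2 ≤
      ((t + 1) * ((2 * (w.length : ℝ) ^ 2 + 4 * w.length * ((1 + 2 * w.length) * w.length) ^ 2 *
        (1 + w.length ^ 2 + 2 * w.length)) * (ρ * ε + c))) ^ 2 := by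
  have hL : (0 : ℝ) ≤ w.length := Nat.cast_nonneg _
  have hL3 : (w.length : ℝ) ^ 3 ≤ w.length ^ 4 := by
    rcases Nat.eq_zero_or_pos w.length with h0 | h0
    · simp [h0]
    · exact_mod_cast Nat.pow_le_pow_right h0 (by norm_num)
  have hρε := mul_nonneg hρ hε0
  set C : ℝ := 4 * w.length * ((1 + 2 * w.length) * w.length) ^ 2 with hC
  have hC0 : 0 ≤ C := by positivity
  intro t
  induction t with
  | zero =>
    intro _
    have hM := pos_pal (h.op S) w
    have e1 := hM.loss ξ 2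
    rw [← dd_eq (h.op S), hM.two] at e1
    have e2 := dd_le (h.op S) hc0 w hc
    have e3 : 2 * (w.length : ℝ) ^ 2 * c ≤ ((0 : ℕ) + 1) *
        ((2 * (w.length : ℝ) ^ 2 + C * (1 + w.length ^ 2 + 2 * w.length)) * (ρ * ε + c)) := by
      have := mul_nonneg (mul_nonneg hC0 (by positivity : (0 : ℝ) ≤
        1 + w.length ^ 2 + 2 * w.length)) (add_nonneg hρε hc0)
      have := mul_nonneg (sq_nonneg (w.length : ℝ)) hρε
      push_cast
      nlinarith
    refine le_trans ?_ (pow_le_pow_left₀ (by positivity) e3 2)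
    rw [pow_zero, pow_one]
    have e4 := mul_le_mul_of_nonneg_right hL3 (sq_nonneg c)
    have e5 : 0 ≤ (w.length : ℝ) ^ 4 * c ^ 2 := by positivity
    push_cast at e1
    nlinarith
  | succ t ih =>
    intro ht
    have h2t : (1 : ℝ) ≤ 2 ^ t := one_le_pow₀ (by norm_num)
    rw [pow_succ] at ht
    have hρ1 : 1 ≤ ρ := le_of_sq hρ (by linarith)
    have e0 : ε ≤ ρ * ε := le_mul_of_one_le_left hε0 hρ1
    have e1 := h.double hQ h1 h2 w ξ hε0 hc0 hε hc (r := 2 ^ t) (by positivity)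
      (b := (w.length : ℝ) ^ 2 * (ρ * ε)) (by positivity) (by positivity) (by
        have a1 := mul_le_mul ht (mul_le_mul_of_nonneg_right hL3 (sq_nonneg ε)) (by positivity)
          (sq_nonneg ρ)
        push_cast
        nlinarith) (ih (by linarith))
    rw [← pow_succ', ← hC] at e1
    refine e1.trans (pow_le_pow_left₀ (by positivity) ?_ 2)
    have e2 : c + (w.length : ℝ) ^ 2 * (ρ * ε) + 2 * w.length * ε ≤
        (1 + w.length ^ 2 + 2 * w.length) * (ρ * ε + c) := by
      have a1 := mul_le_mul_of_nonneg_left e0 hL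
      have a2 := mul_nonneg (sq_nonneg (w.length : ℝ)) hc0
      have a3 := mul_nonneg hL hc0
      nlinarith
    have e3 := mul_le_mul_of_nonneg_left e2 hC0
    have e4 := mul_nonneg (sq_nonneg (w.length : ℝ)) hρε
    have e5 := mul_nonneg (sq_nonneg (w.length : ℝ)) hc0
    push_cast
    nlinarith

end Fam

section Concrete

variable {A G : Type} [Group A] [Group G]

/-- Functions supported in `T`, pushed into the product group. -/
def emb (g : A →* G) (T : Finset ι) : (ι → A) →* (ι → G) where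
  toFun s i := if i ∈ T then g (s i) else 1
  map_one' := by ext i; simp
  map_mul' s s' := by ext i; by_cases hi : i ∈ T <;> simp [hi]

theorem emb_commute (g g' : A →* G) {T T' : Finset ι} (hd : Disjoint T T') (s s' : ι → A) :
    Commute (emb g T s) (emb g' T' s') := by
  ext i
  by_cases hi : i ∈ T
  · simp [emb, hi, disjoint_left.mp hd hi]
  · simp [emb, hi]

theorem emb_union (g : A →* G) {T T' : Finset ι} (hd : Disjoint T T') (s : ι → A) :
    emb g (T ∪ T') s = emb g T s * emb g T' s := by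
  ext i
  by_cases hi : i ∈ T
  · simp [emb, hi, disjoint_left.mp hd hi]
  · simp [emb, hi]

theorem emb_mono (g : A →* G) {T T' : Finset ι} (hs : T ⊆ T') (s : ι → A) :
    emb g T s = emb g T' fun i => if i ∈ T then s i else 1 := by
  ext i
  by_cases hi : i ∈ T
  · simp [emb, hi, hs hi]
  · simp [emb, hi]

variable [Finite A] [Fintype ι] {Ψ : (ι → G) →* Module.End ℝ V} (hΨ : Iso Ψ) (gen : ℕ → A →* G)
include hΨ

theorem fam : Fam fun T j => avg (Ψ.comp (emb (gen j) T)) := by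
  refine ⟨fun T j => avg_isOP (hΨ.comp _), fun j => LinearMap.ext fun v => avg_eq_self _ _ fun s =>
    ?_, fun T T' j hd => avg_eq_mul (hΨ.comp _) (hΨ.comp _) (hΨ.comp _)
      (fun a b => (emb_commute _ _ hd a b).map Ψ) fun v => ⟨fun H => ⟨fun s => ?_, fun s => ?_⟩,
      fun H s => ?_⟩, fun T T' j k hd => avg_commute fun b =>
        (avg_commute fun a => ((emb_commute _ _ hd a b).map Ψ).symm).symm⟩
  · have : emb (gen j) (∅ : Finset ι) s = 1 := by ext i; simp [emb]
    rw [MonoidHom.comp_apply, this, map_one, Module.End.one_apply]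
  · rw [MonoidHom.comp_apply, emb_mono _ (subset_union_left (s₂ := T'))]; exact H _
  · rw [MonoidHom.comp_apply, emb_mono _ (subset_union_right (s₁ := T))]; exact H _
  · rw [MonoidHom.comp_apply, emb_union _ hd, rep_mul]
    exact (congrArg _ (H.2 s)).trans (H.1 s)

end Concrete

end Pool.Agent.PolNA.Sm

namespace Pool.Agent.PolNA

open Finset Sm

theorem smooth : SmoothStmt := by
  intro J
  set K : ℝ := 2 * (J : ℝ) ^ 2 + 4 * J * ((1 + 2 * J) * J) ^ 2 * (1 + J ^ 2 + 2 * J) with hK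
  have hK0 : 0 ≤ K := by positivity
  have hJ : (0 : ℝ) ≤ J := Nat.cast_nonneg J
  refine ⟨(2 * J + 1) * K + 4 * J ^ 2 + 1, by
    have : 0 ≤ (2 * J + 1) * K + 4 * J ^ 2 := by positivity
    linarith, ?_⟩
  intro V _ _ A G ι _ _ _ _ _ Ψ hΨ gen ξ ε c ρ t hε0 hc0 hρ ht hε hc
  have h := fam hΨ gen
  set F : Finset ι → ℕ → Module.End ℝ V := fun T j => avg (Ψ.comp (emb (gen j) T)) with hF
  let Δ : A →* (ι → A) := Pi.constMonoidHom ι A
  have hΔ : ∀ j a, emb (gen j) univ (Δ a) = fun _ => gen j a := fun j a => by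
    ext i; simp [emb, Δ]
  let Q : ℕ → Module.End ℝ V := fun j => avg ((Ψ.comp (emb (gen j) univ)).comp Δ)
  have hQ : ∀ j, IsOP (Q j) := fun j => avg_isOP ((hΨ.comp _).comp _)
  have hsing : ∀ i j, F {i} j = avg ((Ψ.comp (emb (gen j) {i})).comp Δ) := fun i j =>
    avg_congr (hΨ.comp _) ((hΨ.comp _).comp _) fun v => ⟨fun H a => H (Δ a), fun H s => by
      have : emb (gen j) {i} s = emb (gen j) {i} (Δ (s i)) := by
        ext k; by_cases hk : k = i <;> simp [emb, Δ, hk]
      rw [MonoidHom.comp_apply, this]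
      exact H (s i)⟩
  have h1 : ∀ j, Q j * F univ j = F univ j := fun j => LinearMap.ext fun v =>
    avg_eq_self _ _ fun a => avg_fix (Ψ.comp (emb (gen j) univ)) (Δ a) v
  have h2 : ∀ j, ∀ i ∈ (univ : Finset ι), Q j * F (univ.erase i) j = F univ j := by
    intro j i hi
    have hd : Disjoint {i} (univ.erase i) := disjoint_singleton_left.mpr (notMem_erase i _)
    have hu : {i} ∪ univ.erase i = univ := by rw [← insert_eq, insert_erase hi]
    refine LinearMap.ext fun v => ?_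
    conv_rhs => rw [← hu, h.union _ _ _ hd, hsing]
    refine avg_apply_congr fun a => ?_
    change Ψ (emb (gen j) univ (Δ a)) _ = Ψ (emb (gen j) {i} (Δ a)) _
    conv_lhs => rw [← hu, emb_union _ hd, rep_mul]
    rw [hu]
    exact congrArg _ (avg_fix (Ψ.comp (emb (gen j) (univ.erase i))) (Δ a) v)
  have hw : ∀ j ∈ List.range J, j < J := fun j hj => List.mem_range.mp hj
  have e1 := h.iter hQ h1 h2 (List.range J) ξ hε0 hc0
    (fun j hj => norm_sub_avg_le _ _ _ fun a => by
      rw [err_comp, err_comp, hΔ]; exact hε j (hw j hj) a)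
    (fun j hj => norm_sub_avg_le _ _ _ fun s => by
      have : emb (gen j) univ s = fun i => gen j (s i) := by ext i; simp [emb]
      rw [err_comp, this]; exact hc j (hw j hj) s) hρ t ht
  rw [List.length_range, ← hK] at e1
  have e2 := h.sum_d_pow (List.range J) ξ univ (2 ^ t)
  have e3 := (pos_pal (h.op univ) (List.range J)).near' (2 ^ t) ξ
  set y := (W (F univ) ((List.range J).reverse ++ List.range J) ^ 2 ^ t) ξ with hy
  have d0 : ∀ i, 0 ≤ dd (F {i}) (List.range J) y := fun i => dd_nonneg (h.op _) _ _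
  have e4 : (2 : ℝ) ^ t * ∑ i, (2 * J * √(dd (F {i}) (List.range J) y)) ^ 2 ≤
      4 * J ^ 2 * (‖ξ‖ ^ 2 - ‖y‖ ^ 2) := by
    simp only [mul_pow, Real.sq_sqrt (d0 _), ← mul_sum]
    have := mul_le_mul_of_nonneg_left e2 (by positivity : (0 : ℝ) ≤ 4 * J ^ 2)
    push_cast at this
    nlinarith
  have hX : 0 ≤ (t + 1 : ℝ) * (ρ * ε + c) := by positivity
  have hXK := mul_nonneg hX hK0
  have hXJ := mul_nonneg hX (sq_nonneg (J : ℝ))
  refine ⟨y, fun i => 2 * J * √(dd (F {i}) (List.range J) y), fun i => by positivity, ?_, ?_, ?_,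
    fun i j hj a => ?_⟩
  · refine (le_of_sq (by positivity) (e3.trans e1)).trans ?_
    nlinarith [mul_nonneg hJ hXK]
  · refine e4.trans ((mul_le_mul_of_nonneg_left e1 (by positivity)).trans ?_)
    rw [show 4 * (J : ℝ) ^ 2 = (2 * J) ^ 2 by ring, ← mul_pow]
    refine pow_le_pow_left₀ (by positivity) ?_ 2
    nlinarith
  · refine e4.trans ?_
    have a1 : 0 ≤ (2 * J + 1) * K := by positivity
    nlinarith [mul_nonneg (sq_nonneg (J : ℝ)) (sq_nonneg ‖y‖), mul_nonneg a1 (sq_nonneg ‖ξ‖),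
      sq_nonneg ‖ξ‖]
  · have a1 : (Pi.mulSingle i (gen j a) : ι → G) = emb (gen j) {i} (Δ a) := by
      ext k; by_cases hk : k = i
      · subst hk; simp [emb, Δ]
      · simp [emb, hk]
    have a2 := err_le_avg (hΨ.comp (emb (gen j) {i})) (Δ a) y
    have a3 := (le_dd (h.op {i}) (Real.sqrt_nonneg _) (List.range J) (Real.sq_sqrt (d0 i)).ge).2 j
      (List.mem_range.mpr hj)
    rw [List.length_range] at a3
    rw [a1]
    exact a2.trans ((mul_le_mul_of_nonneg_left a3 (by norm_num)).trans_eq (mul_assoc _ _ _).symm)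

end Pool.Agent.PolNA

end MrgPart2

-- marker of a merged file
example : 731051 + 724452 = 731051 + 724452 := rfl
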