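import Pool.Agent.PolNA.Step2

-- ======== part 0: formerly Pool.Agent.PolNA.Step3a
section MrgPart0

/-!
# Preparations for the bounded step
-/

set_option autoImplicit false
set_option linter.unusedSectionVars false

namespace Pool.Agent.PolNA

/-- Extension by `1`. -/
def extFin (G : Type) [Group G] (q : ℕ) : (Fin q → G) →* (ℕ → G) where
  toFun u l := if h : l < q then u ⟨l, h⟩ else 1
  map_one' := by funext l; simp
  map_mul' u v := by funext l; by_cases h : l < q <;> simp [h]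

theorem sum_blocks (f : ℕ → ℝ) (i m : ℕ) :
    ∑ j ∈ Finset.range i, ∑ l ∈ Finset.range m, f (j * m + l) = ∑ l ∈ Finset.range (i * m), f l := by
  induction i with
  | zero => simp
  | succ i ih => rw [Finset.sum_range_succ, ih, Nat.succ_mul, Finset.sum_range_add]

namespace TS

variable {X A G : Type} [DecidableEq X] [Group A] [Fintype A] [MulAction A X]
  [Group G] (S : TS X A G)
variable {V : Type} [NormedAddCommGroup V] [InnerProductSpace ℝ V]

theorem smooth_col (hs : SmoothStmt) {d : ℕ} (hd : d < S.top) : ∃ C : ℝ, 1 ≤ C ∧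
    ∀ π : G →* Module.End ℝ V, Iso π → ∀ (a q : ℕ) (ξ : V) (ε c : ℝ), 0 ≤ ε → 0 ≤ c →
      (∀ j ≤ d, ∀ σ ∈ S.R (j + 1), err π (S.L (S.gen j σ)) ξ ≤ ε) →
      (∀ g ∈ S.GW ⊥ q, (∀ l h, Commute (S.sh a g) (S.fib l S.z h)) → err π (S.sh a g) ξ ≤ c) →
      ∃ (y : V) (δ : ℕ → ℝ), ‖ξ - y‖ ≤ C * (ε + c) ∧
        ∑ l ∈ Finset.range q, δ l ^ 2 ≤ C * ‖ξ‖ ^ 2 ∧
        ∀ l < q, S.Small (π.comp (S.fib (a + l) S.e)) d y (δ l) := by
  obtain ⟨C, hC, hs⟩ := hs.sub (d + 1)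
  obtain ⟨M, hM⟩ := S.exists_coin d
  set C0 : ℝ := M * 8 with hC0
  have hC00 : 0 ≤ C0 := by positivity
  refine ⟨C * (2 * C0 + 1), by nlinarith, fun π hπ a q ξ ε c hε hc h1 h2 => ?_⟩
  let F : (Fin q → G) →* G := (S.sh a).comp ((S.colE q).comp (extFin G q))
  have key : ∀ j < d + 1, ∀ s : Fin q → G, (∀ i, s i ∈ S.R j) →
      err (π.comp F) (fun i => S.gen j (s i)) ξ ≤ C0 * (ε + c) := by
    intro j hj s hs
    have := coin_bound (j := j) (by omega) hπ a q (h1 j (by omega)) h2 (extFin G q s) fun l => by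
      by_cases h : l < q <;> simp [extFin, h, hs]
    have e : extFin G q (fun i => S.gen j (s i)) = fun l => S.gen j (extFin G q s l) := by
      funext l; by_cases h : l < q <;> simp [extFin, h]
    have a3 := mul_le_mul_of_nonneg_right (hM j (by omega))
      (show 0 ≤ 8 * (ε + c) by positivity)
    change err π (S.sh a (S.colE q (extFin G q fun i => S.gen j (s i)))) ξ ≤ _
    rw [e, hC0]; linarith
  have hp : 0 ≤ C0 * (ε + c) := by positivity
  obtain ⟨y, δ, -, k1, -, k2, k3⟩ := hs V G (Fin q) (π.comp F) (hπ.comp F) S.R S.R_fin S.gen ξ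
    (C0 * (ε + c)) (C0 * (ε + c)) 1 0 hp hp zero_le_one (by norm_num)
    (fun j hj σ hσ => key j hj (fun _ => σ) fun _ => hσ) key
  refine ⟨y, fun l => if h : l < q then δ ⟨l, h⟩ else 0, ?_, ?_, fun l hl j hj σ hσ => ?_⟩
  · have : 0 ≤ C * (ε + c) := by positivity
    push_cast at k1; nlinarith
  · rw [Finset.sum_range fun l => (if h : l < q then δ ⟨l, h⟩ else 0) ^ 2]
    simp only [Fin.is_lt, dif_pos, Fin.eta]
    have : 0 ≤ C * C0 * ‖ξ‖ ^ 2 := by positivity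
    rw [pow_zero, one_mul] at k2; nlinarith
  · have := k3 ⟨l, hl⟩ j (by omega) σ hσ
    have e : extFin G q (Pi.mulSingle ⟨l, hl⟩ (S.gen j σ)) = Pi.mulSingle l (S.gen j σ) := by
      funext i
      by_cases h : i < q
      · simp [extFin, h, Pi.mulSingle_apply, Fin.ext_iff]
      · have : i ≠ l := by omega
        simp [extFin, h, this]
    change err π (S.sh a (S.colE q (extFin G q _))) y ≤ _ at this
    rw [e, S.colE_single hl, ← fib_add] at this
    simpa [hl] using this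

/-- `U` lies in the bicommutant of the dead fibres of the levels below `a`. -/
def Dead (π : G →* Module.End ℝ V) (a : ℕ) (U : Module.End ℝ V) : Prop :=
  ∀ T : Module.End ℝ V, (∀ l < a, ∀ h, Commute T (π (S.fib l S.z h))) → Commute T U

open Classical in
/-- The finite set of the lifted generators. -/
noncomputable def gset (d : ℕ) : Finset G :=
  (Finset.range (d + 1)).biUnion fun j =>
    (Set.Finite.image (S.gen j) (s := (S.R (j + 1) : Set G)) (S.R_fin (j + 1))).toFinset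

theorem mem_gset {d : ℕ} {x : G} :
    x ∈ S.gset d ↔ ∃ j ≤ d, ∃ σ ∈ S.R (j + 1), S.gen j σ = x := by
  simp [gset]

/-- Energy of the lifted generators. -/
noncomputable def En (π : G →* Module.End ℝ V) (d : ℕ) (v : V) : ℝ :=
  ∑ x ∈ S.gset d, err π (S.L x) v ^ 2

/-- Distance to the vectors invariant at scale `a`. -/
noncomputable def eta (π : G →* Module.End ℝ V) (a m δ : ℕ) (v : V) : ℝ :=
  ‖v - avgS (π.comp (S.sh a)) (S.GW (S.W m) δ) v‖

variable {S}
variable {π : G →* Module.End ℝ V}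

theorem Dead.mono {a b : ℕ} {U : Module.End ℝ V} (h : S.Dead π a U) (hab : a ≤ b) :
    S.Dead π b U := fun T hT => h T fun l hl => hT l (by omega)

theorem Dead.L {a : ℕ} {U : Module.End ℝ V} (h : S.Dead π a U) (g : G) : Commute U (π (S.L g)) :=
  (h _ fun l _ g' => (S.L_fib_z g l g').map π).symm

theorem Dead.fib {a : ℕ} {U : Module.End ℝ V} (h : S.Dead π a U) {l : ℕ} (hl : a ≤ l) (g : G) :
    Commute U (π (S.fib l S.z g)) :=
  (h _ fun l' hl' g' => (S.fib_commute S.oz.symm S.oz.symm (Or.inl (by omega)) g g').map π).symm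

theorem Dead.sh {a : ℕ} {U : Module.End ℝ V} (h : S.Dead π a U) (g : G) :
    Commute U (π (S.sh a g)) :=
  (h _ fun _ hl' g' => ((S.fib_sh_commute S.oz.symm hl' g' g).map π).symm).symm

theorem En_nonneg (d : ℕ) (v : V) : 0 ≤ S.En π d v :=
  Finset.sum_nonneg fun _ _ => sq_nonneg _

theorem En_pyth {T : Module.End ℝ V} (hT : IsOP T) (hc : ∀ g, Commute T (π (S.L g))) (d : ℕ)
    (v : V) : S.En π d v = S.En π d (T v) + S.En π d (v - T v) := by
  simp only [En, ← Finset.sum_add_distrib]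
  exact Finset.sum_congr rfl fun σ _ => err_pyth (hc _) hT v

theorem err_le_En {d j : ℕ} (hj : j ≤ d) {σ : G} (hσ : σ ∈ S.R (j + 1)) (v : V) :
    err π (S.L (S.gen j σ)) v ≤ Real.sqrt (S.En π d v) :=
  Real.le_sqrt_of_sq_le (Finset.single_le_sum (f := fun x => err π (S.L x) v ^ 2)
    (fun _ _ => sq_nonneg _) (S.mem_gset.mpr ⟨j, hj, σ, hσ, rfl⟩))

theorem En_le {d : ℕ} {v : V} {ε : ℝ} (h : S.Small π (d + 1) v ε) :
    S.En π d v ≤ (S.gset d).card * ε ^ 2 := by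
  have := Finset.sum_le_sum (s := S.gset d) (g := fun _ => ε ^ 2)
    (f := fun x => err π (S.L x) v ^ 2) fun x hx => by
      obtain ⟨j, hj, σ, hσ, rfl⟩ := S.mem_gset.mp hx
      exact pow_le_pow_left₀ (err_nonneg _ _ _) (h (j + 1) (by omega) σ hσ) 2
  simpa [En] using this

section Win

variable [Finite X] {Θ : Subgroup G} [Finite Θ]

theorem win_commute {x : X} {p m : ℕ} {T : Module.End ℝ V}
    (h : ∀ l, p ≤ l → l < p + m → ∀ g, Commute T (π (S.fib l x g))) :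
    Commute T (S.nop x Θ m (π.comp (S.sh p))) :=
  nop_commute fun j hj g => by
    have := h (p + j) (by omega) (by omega) g
    rwa [fib_add] at this

theorem win_win {x y : X} (hx : x ≠ S.o) (hy : y ≠ S.o) {Θ' : Subgroup G} [Finite Θ']
    {p p' m : ℕ} (h : p + m ≤ p' ∨ p' + m ≤ p ∨ x ≠ y) :
    Commute (S.nop x Θ m (π.comp (S.sh p))) (S.nop y Θ' m (π.comp (S.sh p'))) :=
  win_commute fun l h1 h2 g => (win_commute fun l' h3 h4 g' =>
    (S.fib_commute hy hx (by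
      rcases h with h | h | h
      · exact Or.inl (by omega)
      · exact Or.inl (by omega)
      · exact Or.inr h.symm) g g').map π).symm

/-- The column of `g` over a window exchanges the fibres `z` and `e` of that window. -/
theorem win_swap {x : X} (hx : x ≠ S.o) (p m : ℕ) :
    π (S.sh p (S.colR m (fun _ => S.g) fun _ => S.g_o)) * S.nop x Θ m (π.comp (S.sh p)) =
      S.nop (S.g • x) Θ m (π.comp (S.sh p)) *
        π (S.sh p (S.colR m (fun _ => S.g) fun _ => S.g_o)) :=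
  nop_intertwine fun j hj g => by
    simp only [MonoidHom.comp_apply, ← map_mul]
    rw [S.colR_fib m _ _ hx, if_pos hj]

theorem win_swap_other {x : X} (hx : x ≠ S.o) {p p' m : ℕ} (h : p + m ≤ p' ∨ p' + m ≤ p) :
    Commute (π (S.sh p (S.colR m (fun _ => S.g) fun _ => S.g_o)))
      (S.nop x Θ m (π.comp (S.sh p'))) :=
  win_commute fun l h1 h2 g => by
    have := S.sh_colR_fib p m (fun _ => S.g) (fun _ => S.g_o) hx l g
    rw [if_neg (by omega)] at this
    exact (show Commute _ _ from this).map π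

end Win

end TS

end Pool.Agent.PolNA

end MrgPart0

-- ======== part 1: formerly Pool.Agent.PolNA.Step3b
section MrgPart1

/-!
# One scale of the bounded step
-/

set_option autoImplicit false
set_option linter.unusedSectionVars false

namespace Pool.Agent.PolNA

theorem num_H {x L h s θ C : ℝ} (hC : 1 ≤ C) (hx : 0 ≤ x) (hL0 : 0 ≤ L) (hh : 0 ≤ h) (hs : 0 ≤ s)
    (hθ : L ^ 2 ≤ θ) (h1 : x ≤ (L + h) + x / 2 + C * (s + 2 * h)) :
    x ^ 2 ≤ 108 * C ^ 2 * (θ + s ^ 2 + h ^ 2) := by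
  have h2 : x ≤ 6 * C * (L + s + h) := by nlinarith
  have h3 : x ^ 2 ≤ (6 * C * (L + s + h)) ^ 2 := pow_le_pow_left₀ hx h2 2
  have h4 : (L + s + h) ^ 2 ≤ 3 * (θ + s ^ 2 + h ^ 2) := by
    nlinarith [sq_nonneg (L - s), sq_nonneg (L - h), sq_nonneg (s - h)]
  have h5 : 0 ≤ C ^ 2 := sq_nonneg C
  nlinarith

theorem half_pos_aux {V : Type} [NormedAddCommGroup V] (v : V) : 0 ≤ ‖v‖ / 2 := by positivity

theorem blk {i j : ℕ} (h : j < i) (m : ℕ) : j * m + m ≤ i * m := by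
  rw [← Nat.succ_mul]; exact Nat.mul_le_mul_right m h

theorem num_r1 {x y p D n : ℝ} (h1 : n * y ≤ 4 * D * p) (h2 : x ≤ y) (h3 : p ≤ 1) (h4 : 0 ≤ D)
    (h5 : 0 ≤ n) : x * n ≤ 4 * D := by nlinarith

theorem num_k6 {D x s y m C : ℝ} (hD : 0 < D) (k5 : D * x ≤ m * s) (k2 : s ≤ C * y ^ 2)
    (hm : 0 ≤ m) (hDA : 4 * m * C ≤ D) : x ≤ (y / 2) ^ 2 := by
  refine le_of_mul_le_mul_left ?_ hD
  have h2 := mul_le_mul_of_nonneg_left k2 hm
  nlinarith [sq_nonneg y]

theorem num_p10 {x τ a b c : ℝ} (h : x ≤ (τ + a) ^ 2) (h0 : 0 ≤ τ) (h1 : τ ≤ 1) (h2 : a ≤ 1)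
    (h3 : b = c + a ^ 2) : x ≤ b - c + 3 * τ := by nlinarith

namespace TS

variable {X A G : Type} [Fintype X] [DecidableEq X] [Group A] [Fintype A] [MulAction A X]
  [Group G] (S : TS X A G)
variable {V : Type} [NormedAddCommGroup V] [InnerProductSpace ℝ V]

/-- The potential which almost decreases from one scale to the next. -/
noncomputable def pot (π : G →* Module.End ℝ V) (d : ℕ) (C : ℝ) (a m δ : ℕ) (v : V) : ℝ :=
  -‖v‖ ^ 2 + C * S.En π d v + C * S.eta π a m δ v ^ 2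

theorem one_step (hs : SmoothStmt) (hp : PvmStmt) {d : ℕ} (hd : d < S.top) :
    ∃ C2 C4 : ℝ, 1 ≤ C2 ∧ 1 ≤ C4 ∧
    ∀ π : G →* Module.End ℝ V, Iso π → ∀ ψ : V, ‖ψ‖ ≤ 1 →
    ∀ (a m n D a' m' δ' : ℕ) (Ae τ : ℝ), 0 < n → 0 < D → a + n * m ≤ a' → 0 ≤ Ae →
      (∀ ρ : G →* Module.End ℝ V, Iso ρ → ∀ (y : V) (ε : ℝ), S.Small ρ d y ε → ∀ j < m, ∀ g ≤ a',
        ∀ h ∈ S.Lev ((S.GW (S.W m') δ').map (S.sh g)) j, err ρ h y ≤ Ae * ε) →
      4 * m * Ae ^ 2 * C2 ≤ D → 0 ≤ τ → τ ≤ 1 → (1 / 2 : ℝ) ^ m ≤ τ ^ 2 →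
      ∃ i < n, ∀ U0 : Module.End ℝ V, IsOP U0 → S.Dead π a U0 →
        ∃ U1 : Module.End ℝ V, IsOP U1 ∧ S.Dead π a' U1 ∧
          S.pot π d C4 a' m' δ' (U1 ψ) ≤ S.pot π d C4 a m (i * m) (U0 ψ) +
            (C4 * ((1 / 2 : ℝ) ^ D + 3 * τ) + 4 * D / n) := by
  obtain ⟨C, hC, hsm⟩ := S.smooth_col (V := V) hs hd
  refine ⟨C, 108 * C ^ 2, hC, by nlinarith, ?_⟩
  intro π hπ ψ hψ a m n D a' m' δ' Ae τ hn hD ha hAe hA hDA hτ0 hτ1 hτ
  have zo : S.z ≠ S.o := S.oz.symm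
  have eo : S.e ≠ S.o := S.oe.symm
  let Θ : ℕ → Subgroup G := fun i => (S.GW (S.W m') δ').map (S.sh (a' - a - (i + 1) * m))
  let N : X → ℕ → Module.End ℝ V := fun x i => S.nop x (Θ i) m (π.comp (S.sh (a + i * m)))
  have oN : ∀ x, x ≠ S.o → ∀ i, IsOP (N x i) := fun x hx i => nop_isOP hx m (hπ.comp _)
  have sep : ∀ i j : ℕ, i ≠ j → a + i * m + m ≤ a + j * m ∨ a + j * m + m ≤ a + i * m := by
    intro i j hij
    rcases lt_or_gt_of_ne hij with h | h
    · left; have := blk h m; omega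
    · right; have := blk h m; omega
  have cN : ∀ x y, x ≠ S.o → y ≠ S.o → ∀ i j, Commute (N x i) (N y j) := by
    intro x y hx hy i j
    by_cases h : x = y ∧ i = j
    · rw [h.1, h.2]
    · refine win_win hx hy ?_
      by_cases hij : i = j
      · exact Or.inr (Or.inr fun e => h ⟨e, hij⟩)
      · exact (sep i j hij).imp_right Or.inl
  have cs : ∀ {T U : Module.End ℝ V}, Commute T U → Commute T (1 - U) :=
    fun h => (Commute.one_right _).sub_right h
  obtain ⟨i, hi, H, Lo, oH, oL, cH, pig, mark, theta⟩ := hp V n D hn (fun i => 1 - N S.z i)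
    (fun i => 1 - N S.e i) (fun i => (oN _ zo i).one_sub) (fun i => (oN _ eo i).one_sub)
    (fun i j => cs (cs (cN _ _ zo zo j i)).symm) (fun i j => cs (cs (cN _ _ eo eo j i)).symm)
    (fun i j => cs (cs (cN _ _ eo zo j i)).symm) ψ
  refine ⟨i, hi, fun U0 oU dU => ?_⟩
  have hpm : a + i * m + m ≤ a' := by have := blk hi m; omega
  have dH : S.Dead π (a + i * m) H := fun T hT => cH T fun j hj =>
    cs (win_commute fun l _ h2 g => hT l (by have := blk hj m; omega) g)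
  have dN : S.Dead π (a + i * m + m) (N S.z i) := fun T hT => win_commute fun l _ h2 g => hT l h2 g
  have cUH : Commute U0 H := cH _ fun j _ =>
    cs (win_commute fun l h1 _ g => dU.fib (by omega) g)
  have cUN : Commute U0 (N S.z i) := win_commute fun l h1 _ g => dU.fib (by omega) g
  have cNH : Commute (N S.z i) H := cH _ fun j _ => cs (cN _ _ zo zo i j)
  have oNz := oN _ zo i
  refine ⟨N S.z i * (1 - H) * U0, (oNz.mul oH.one_sub (cs cNH)).mul oU
    (cUN.mul_right (cs cUH)).symm, fun T hT => ((dN.mono hpm T hT).mul_right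
      (cs (dH.mono (by omega) T hT))).mul_right (dU.mono (by omega) T hT), ?_⟩
  set v := U0 ψ with hv
  have hv1 : ‖v‖ ≤ 1 := (oU.norm_le ψ).trans hψ
  set E0 := avgS (π.comp (S.sh a)) (S.GW (S.W m) (i * m)) with hE0
  have oE : IsOP E0 := avgS_isOP (hπ.comp _)
  set φ0 := E0 v with hφ0
  set φ1 := v - φ0 with hφ1
  have hφ01 : ‖φ0‖ ≤ 1 := (oE.norm_le v).trans hv1
  have hφ11 : ‖φ1‖ ≤ 1 := (oE.norm_sub_le v).trans hv1
  have hfix : ∀ g ∈ S.GW (S.W m) (i * m), π (S.sh a g) φ0 = φ0 := fun g hg =>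
    avgS_fix (π := π.comp (S.sh a)) hg v
  have hsplit : v = φ0 + φ1 := by rw [hφ1]; abel
  have e1 : (N S.z i * (1 - H) * U0) ψ = N S.z i (v - H v) := rfl
  rw [e1]
  -- the removal of the witness
  have r1 : ‖(v - H v) - N S.z i (v - H v)‖ ^ 2 ≤ 4 * D / n := by
    have : (v - H v) - N S.z i (v - H v) = U0 ((1 - N S.z i) (ψ - H ψ)) := by
      have h1 := ((cs cUN).mul_right (cs cUH)).eq
      exact (LinearMap.congr_fun h1 ψ).symm
    rw [this, le_div_iff₀ (by exact_mod_cast hn)]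
    have h2 := pow_le_pow_left₀ (norm_nonneg _) (oU.norm_le ((1 - N S.z i) (ψ - H ψ))) 2
    have h3 : ‖ψ‖ ^ 2 ≤ 1 := pow_le_one₀ (norm_nonneg _) hψ
    exact num_r1 pig h2 h3 (Nat.cast_nonneg D) (Nat.cast_nonneg n)
  -- the new distance to the invariant vectors
  have r2 : S.eta π a' m' δ' (N S.z i (v - H v)) ≤ τ + ‖φ1 - H φ1‖ := by
    have hQ : avgS ((π.comp (S.sh (a + i * m))).comp (S.sh m)) (Θ i) =
        avgS (π.comp (S.sh a')) (S.GW (S.W m') δ') := by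
      rw [avgS_map _ ((hπ.comp _).comp _)]
      congr 1
      ext1 g
      simp only [MonoidHom.comp_apply, ← sh_add]
      congr 3
      rw [Nat.succ_mul]; omega
    have hw := window (S := S) (Θ := Θ i) (m := m) (hπ.comp (S.sh (a + i * m)))
      (φ := φ0 - H φ0) fun j hj σ => by
        have h1 : π (S.sh (a + i * m) (S.phi j σ)) φ0 = φ0 := by
          rw [sh_add]
          exact hfix _ (S.sh_mem_GW (m := 0) (S.phi_mem_W hj σ) (i * m))
        rw [MonoidHom.comp_apply, map_sub, ← Module.End.mul_apply _ H, ← (dH.sh _).eq,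
          Module.End.mul_apply, h1]
    rw [hQ] at hw
    set Q := avgS (π.comp (S.sh a')) (S.GW (S.W m') δ') with hQ'
    have oQ : IsOP Q := avgS_isOP (hπ.comp _)
    have h2 := ((avgS_isOP (Θ := S.Lev (Θ i) m) (hπ.comp (S.sh (a + i * m)))).norm_sub_le
      (φ0 - H φ0)).trans ((oH.norm_sub_le φ0).trans hφ01)
    have h3 : ‖N S.z i (φ0 - H φ0) - Q (N S.z i (φ0 - H φ0))‖ ≤ τ := by
      refine (pow_le_pow_iff_left₀ (norm_nonneg _) hτ0 two_ne_zero).mp ?_
      refine hw.trans (le_trans ?_ hτ)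
      exact mul_le_of_le_one_right (by positivity) (pow_le_one₀ (norm_nonneg _) h2)
    have h4 := (oQ.norm_sub_le (N S.z i (φ1 - H φ1))).trans (oNz.norm_le _)
    have h5 : N S.z i (v - H v) - Q (N S.z i (v - H v)) =
        (N S.z i (φ0 - H φ0) - Q (N S.z i (φ0 - H φ0))) +
          (N S.z i (φ1 - H φ1) - Q (N S.z i (φ1 - H φ1))) := by
      rw [hsplit]; simp only [map_add, map_sub]; abel
    unfold eta
    rw [← hQ', h5]
    exact (norm_add_le _ _).trans (add_le_add h3 h4)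
  -- the component with many witnesses
  have r3 : ‖H v‖ ^ 2 ≤ 108 * C ^ 2 * ((1 / 2 : ℝ) ^ D + S.En π d (H v) + ‖H φ1‖ ^ 2) := by
    obtain ⟨y, δ, k1, k2, k3⟩ := hsm π hπ a (i * m) (H v) (Real.sqrt (S.En π d (H v)))
      (2 * ‖H φ1‖) (Real.sqrt_nonneg _) (by positivity) (fun j hj σ hσ => err_le_En hj hσ _)
      fun g hg hc => by
        have c1 : Commute (π (S.sh a g)) H := dH _ fun l _ h => (hc l h).map π
        have h1 := hπ.err_near (S.sh a g) (H v) (H φ0)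
        rw [err_of_fix (v := H φ0), ← map_sub, zero_add] at h1
        · exact h1
        · rw [← Module.End.mul_apply, c1.eq, Module.End.mul_apply,
            hfix g (S.bot_mem_GW _ le_rfl hg)]
    have k4 : ∀ j ∈ Finset.range i, ‖(1 - N S.e j) y‖ ^ 2 ≤
        m * Ae ^ 2 * ∑ l ∈ Finset.range m, δ (j * m + l) ^ 2 := by
      intro j hj
      have hj' := Finset.mem_range.mp hj
      have h1 := nop_sub_le (S := S) (Θ := Θ j) (x := S.e) (m := m)
        (hπ.comp (S.sh (a + j * m))) (v := y) (fun l => Ae * δ (j * m + l))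
        fun l r e g hg => by
          have := hA _ (hπ.comp _) y _ (k3 (j * m + l) (by have := blk hj' m; omega)) r (by omega) _
            (by omega) g hg
          rwa [err_comp, ← add_assoc, fib_add] at this
      have h2 := pow_le_pow_left₀ (norm_nonneg _) h1 2
      refine le_trans h2 ?_
      rw [← Finset.mul_sum, mul_pow]
      have h3 := sq_sum_le_card_mul_sum_sq (s := Finset.range m) (f := fun l => δ (j * m + l))
      rw [Finset.card_range] at h3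
      rw [mul_comm (m : ℝ), mul_assoc]
      exact mul_le_mul_of_nonneg_left h3 (sq_nonneg Ae)
    have k5 := (mark y).trans (Finset.sum_le_sum k4)
    rw [← Finset.mul_sum, sum_blocks (fun l => δ l ^ 2)] at k5
    have k6 : ‖y - Lo y‖ ≤ ‖H v‖ / 2 := by
      refine (pow_le_pow_iff_left₀ (norm_nonneg _) (half_pos_aux _) two_ne_zero).mp ?_
      exact num_k6 (Nat.cast_pos.mpr hD) k5 k2 (mul_nonneg (Nat.cast_nonneg m) (sq_nonneg Ae))
        (by rw [← mul_assoc]; exact hDA)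
    have k7 := theta φ0 (fun j => π (S.sh (a + j * m) (S.colR m (fun _ => S.g) fun _ => S.g_o)))
      fun j hj => by
        refine ⟨hπ _, ?_, ?_, ?_, fun l hl => ⟨cs (win_swap_other zo (sep j l hl.symm)),
          cs (win_swap_other eo (sep j l hl.symm))⟩⟩
        · rw [sh_add]
          exact hfix _ (S.bot_mem_GW _ (blk hj m)
            (S.sh_mem_GW (S.colR_mem _ _ _) _))
        · rw [mul_sub, sub_mul, win_swap zo, S.g_z, mul_one, one_mul]
        · rw [mul_sub, sub_mul, win_swap eo, S.g_e, mul_one, one_mul]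
    have k8 : ‖Lo (H φ0)‖ ^ 2 ≤ (1 / 2 : ℝ) ^ D :=
      k7.trans (mul_le_of_le_one_right (by positivity) (pow_le_one₀ (norm_nonneg _) hφ01))
    have k9 : H v = (Lo (H φ0) + Lo (H φ1)) + (y - Lo y) + ((H v - y) - Lo (H v - y)) := by
      rw [← map_add, ← map_add, ← hsplit, map_sub]; abel
    have k10 : ‖H v‖ ≤ (‖Lo (H φ0)‖ + ‖H φ1‖) + ‖H v‖ / 2 +
        C * (Real.sqrt (S.En π d (H v)) + 2 * ‖H φ1‖) := by
      conv_lhs => rw [k9]
      refine (norm_add_le _ _).trans (add_le_add ((norm_add_le _ _).trans (add_le_add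
        ((norm_add_le _ _).trans (add_le_add le_rfl (oL.norm_le _))) k6))
        ((oL.norm_sub_le _).trans k1))
    have := num_H hC (norm_nonneg _) (norm_nonneg _) (norm_nonneg _) (Real.sqrt_nonneg _) k8 k10
    rwa [Real.sq_sqrt (En_nonneg d _)] at this
  have p1 := oH.pyth v
  have p2 := oNz.pyth (v - H v)
  have p3 := En_pyth oH dH.L d v
  have p4 := En_pyth oNz dN.L d (v - H v)
  have p5 := En_nonneg (S := S) (π := π) d (v - H v - N S.z i (v - H v))
  have p6 := oH.pyth φ1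
  have p7 : S.eta π a m (i * m) v = ‖φ1‖ := rfl
  have p8 := pow_le_pow_left₀ (norm_nonneg _) r2 2
  have p9 := (oH.norm_sub_le φ1).trans hφ11
  have p10 : S.eta π a' m' δ' (N S.z i (v - H v)) ^ 2 ≤ ‖φ1‖ ^ 2 - ‖H φ1‖ ^ 2 + 3 * τ :=
    num_p10 p8 hτ0 hτ1 p9 p6
  have hC4 : 0 ≤ 108 * C ^ 2 := by positivity
  have q1 := mul_le_mul_of_nonneg_left p10 hC4
  have q2 := mul_le_mul_of_nonneg_left p5 hC4
  unfold pot
  rw [p7, p3, p4]
  linarith

end TS

end Pool.Agent.PolNA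

end MrgPart1

-- ======== part 2: formerly Pool.Agent.PolNA.Step3c
section MrgPart2

/-!
# The bounded step: relative property (T) of the rooted permutations along the ray
-/

set_option autoImplicit false
set_option linter.unusedSectionVars false

namespace Pool.Agent.PolNA

theorem six_le {β : ℕ} (hβ : 4 ≤ β) (u : ℕ) : 6 * u ≤ β ^ (2 * u) := by
  have h1 : 6 * u ≤ 16 ^ u := by
    induction u with
    | zero => simp
    | succ u ih => have : 1 ≤ 16 ^ u := Nat.one_le_pow _ _ (by norm_num); rw [pow_succ]; omega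
  refine h1.trans ?_
  rw [pow_mul]
  exact Nat.pow_le_pow_left (by nlinarith) u

theorem scale_le {β : ℕ} (hβ : 4 ≤ β) (u : ℕ) :
    2 * u + β ^ (8 * u) + β ^ (6 * u) * (2 * u) + 2 * u ≤ β ^ (8 * (u + 1)) := by
  have h1 := six_le hβ u
  have h2 : 1 ≤ β ^ (6 * u) := Nat.one_le_pow _ _ (by omega)
  have h3 : β ^ (8 * u) = β ^ (6 * u) * β ^ (2 * u) := by rw [← pow_add]; congr 1; omega
  have h4 : β ^ (8 * (u + 1)) = β ^ (8 * u) * β ^ 8 := by rw [← pow_add]; congr 1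
  have h5 : 2 ≤ β ^ 8 := le_trans (by omega) (Nat.le_self_pow (by norm_num) β)
  have h6 : β ^ (6 * u) * (6 * u) ≤ β ^ (8 * u) := h3 ▸ Nat.mul_le_mul_left _ h1
  have h7 : β ^ (8 * u) * 2 ≤ β ^ (8 * (u + 1)) := h4 ▸ Nat.mul_le_mul_left _ h5
  nlinarith

namespace TS

variable {X A G : Type} [Fintype X] [DecidableEq X] [Group A] [Fintype A] [MulAction A X]
  [Group G] (S : TS X A G)
variable {V : Type} [NormedAddCommGroup V] [InnerProductSpace ℝ V]

theorem cost_all {ρ : G →* Module.End ℝ V} (hρ : Iso ρ) {y : V} {N m m' δ' j g : ℕ} {e : ℝ}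
    (h : S.Bd ρ y N e) (hj : j ≤ m) (hN : j + g + (δ' + m') ≤ N) :
    ∀ x ∈ S.Lev ((S.GW (S.W m') δ').map (S.sh g)) j,
      err ρ x y ≤ 3 * (4 * Fintype.card X) ^ (m + m') * e := by
  intro x hx
  have hk := S.one_le_card
  have he := h.nonneg
  have h1 := cost_Lev hρ (h.mono (N' := j) (by omega) le_rfl)
    (B := 2 * (4 * Fintype.card X) ^ m' * e) (Θ := (S.GW (S.W m') δ').map (S.sh g)) (by
      rintro _ ⟨γ, hγ, rfl⟩
      rw [← sh_add]
      exact cost_GW (hρ.comp (S.sh (j + g))) (Bd.shift _ (h.mono hN le_rfl)) γ hγ) x hx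
  have h2 : (1 : ℝ) ≤ (4 * Fintype.card X) ^ m' := one_le_pow₀ (by linarith)
  have h3 : (4 * Fintype.card X : ℝ) ^ j ≤ (4 * Fintype.card X) ^ m :=
    pow_le_pow_right₀ (by linarith) hj
  have h4 : e ≤ (4 * Fintype.card X) ^ m' * e := le_mul_of_one_le_left he h2
  refine h1.trans ?_
  rw [pow_add]
  calc _ ≤ (4 * Fintype.card X : ℝ) ^ m * (3 * ((4 * Fintype.card X) ^ m' * e)) :=
        mul_le_mul h3 (by linarith) (by positivity) (by positivity)
    _ = _ := by ring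

theorem scale_step (hs : SmoothStmt) (hp : PvmStmt) {d : ℕ} (hd : d < S.top) (hQ : S.Q V d 2) :
    ∃ (a n : ℕ → ℕ) (C4 C5 : ℝ), 1 ≤ C4 ∧ 0 ≤ C5 ∧ (∀ u, u ≤ a u) ∧
      ∀ π : G →* Module.End ℝ V, Iso π → ∀ ψ : V, ‖ψ‖ ≤ 1 → ∀ u δ' : ℕ,
        δ' ≤ n (u + 1) * (2 * (u + 1)) → ∃ δ ≤ n u * (2 * u), ∀ U0 : Module.End ℝ V, IsOP U0 →
          S.Dead π (a u) U0 → ∃ U1 : Module.End ℝ V, IsOP U1 ∧ S.Dead π (a (u + 1)) U1 ∧
            S.pot π d C4 (a (u + 1)) (2 * (u + 1)) δ' (U1 ψ) ≤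
              S.pot π d C4 (a u) (2 * u) δ (U0 ψ) + C5 * (1 / 2) ^ u := by
  obtain ⟨C2, C4, hC2, hC4, one⟩ := S.one_step (V := V) hs hp hd
  obtain ⟨C, hC, hQ⟩ := hQ
  set κ : ℝ := 4 * Fintype.card X with hκ
  have hκ1 : 2 ≤ κ := by have := S.one_le_card; linarith
  obtain ⟨lam, hlam⟩ := pow_unbounded_of_one_lt (2 * κ ^ 8) (one_lt_two (α := ℝ))
  set β : ℕ := 2 ^ lam with hβ
  have hβr : (β : ℝ) = 2 ^ lam := by rw [hβ]; push_cast; rfl
  have hκ8 : (2 : ℝ) ≤ κ ^ 8 := hκ1.trans (le_self_pow₀ (by linarith) (by norm_num))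
  have hβ4 : 4 ≤ β := by
    have : (4 : ℝ) ≤ β := by rw [hβr]; linarith
    exact_mod_cast this
  have hβ2 : (2 : ℝ) ≤ β := by exact_mod_cast (by omega : 2 ≤ β)
  obtain ⟨C6, hC6⟩ := exists_nat_ge (72 * C ^ 2 * C2 * κ ^ 4 * (β : ℝ) ^ 8)
  have hpw : ∀ u k : ℕ, u ≤ β ^ ((k + 1) * u) := fun u k =>
    (Nat.lt_pow_self (by omega : 1 < β)).le.trans
      (Nat.pow_le_pow_right (by omega) (by nlinarith))
  refine ⟨fun u => β ^ (8 * u), fun u => β ^ (6 * u), C4, 4 * C4 + 4 * (C6 + 1), hC4,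
    by positivity, fun u => hpw u 7, fun π hπ ψ hψ u δ' hδ' => ?_⟩
  have s1 := scale_le hβ4 u
  have s2 := scale_le hβ4 (u + 1)
  have hu : (u : ℝ) * κ ^ (8 * u) ≤ (β : ℝ) ^ u := by
    have h1 : (u : ℝ) ≤ 2 ^ u := by exact_mod_cast (Nat.lt_two_pow_self (n := u)).le
    calc (u : ℝ) * κ ^ (8 * u) ≤ 2 ^ u * κ ^ (8 * u) := by gcongr
      _ = (2 * κ ^ 8) ^ u := by rw [mul_pow 2 (κ ^ 8), ← pow_mul]
      _ ≤ (β : ℝ) ^ u := by rw [hβr]; gcongr
  obtain ⟨i, hi, H⟩ := one π hπ ψ hψ (β ^ (8 * u)) (2 * u) (β ^ (6 * u)) ((C6 + 1) * β ^ (5 * u))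
    (β ^ (8 * (u + 1))) (2 * (u + 1)) δ' (3 * κ ^ (4 * u + 2) * (C * (β : ℝ) ^ (2 * (u + 2))))
    ((1 / 2) ^ u) (by positivity) (by positivity) (by omega) (by positivity)
    (fun ρ hρ y ε hε j hj g hg h hh => by
      have h1 := hQ ρ hρ y ε hε (lam * (u + 2))
      have e1 : 256 ^ (lam * (u + 2)) = β ^ (8 * (u + 1 + 1)) := by
        rw [hβ, ← pow_mul, show 256 = 2 ^ 8 by norm_num, ← pow_mul]; congr 1; ring
      have e2 : (2 : ℝ) ^ (2 * (lam * (u + 2))) = (β : ℝ) ^ (2 * (u + 2)) := by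
        rw [hβr, ← pow_mul]; congr 1; ring
      rw [e1, e2] at h1
      have h2 := S.cost_all hρ h1 hj.le (by dsimp only at hδ'; omega) h hh
      rw [show 2 * u + 2 * (u + 1) = 4 * u + 2 by ring] at h2
      linarith)
    (by
      push_cast
      calc 4 * (2 * (u : ℝ)) * (3 * κ ^ (4 * u + 2) * (C * (β : ℝ) ^ (2 * (u + 2)))) ^ 2 * C2
          = (72 * C ^ 2 * C2 * κ ^ 4 * (β : ℝ) ^ 8) * (u * κ ^ (8 * u)) * (β : ℝ) ^ (4 * u) := by
            ring
        _ ≤ (C6 + 1) * (β : ℝ) ^ u * (β : ℝ) ^ (4 * u) := by gcongr; linarith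
        _ = _ := by ring)
    (by positivity) (pow_le_one₀ (by norm_num) (by norm_num)) (by rw [← pow_mul, mul_comm])
  refine ⟨i * (2 * u), Nat.mul_le_mul_right _ hi.le, fun U0 o0 d0 => ?_⟩
  obtain ⟨U1, o1, d1, h⟩ := H U0 o0 d0
  refine ⟨U1, o1, d1, h.trans (add_le_add le_rfl ?_)⟩
  have h1 : (1 / 2 : ℝ) ^ ((C6 + 1) * β ^ (5 * u)) ≤ (1 / 2) ^ u :=
    pow_le_pow_of_le_one (by norm_num) (by norm_num)
      ((hpw u 4).trans (Nat.le_mul_of_pos_left _ (by omega)))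
  have h2 : 4 * (((C6 + 1) * β ^ (5 * u) : ℕ) : ℝ) / ((β ^ (6 * u) : ℕ) : ℝ) ≤
      4 * (C6 + 1) * (1 / 2) ^ u := by
    push_cast
    rw [div_le_iff₀ (by positivity)]
    have h3 : (1 : ℝ) ≤ (1 / 2) ^ u * (β : ℝ) ^ u := by
      rw [← mul_pow]; exact one_le_pow₀ (by linarith)
    calc 4 * (((C6 : ℝ) + 1) * (β : ℝ) ^ (5 * u)) = 4 * (C6 + 1) * (β : ℝ) ^ (5 * u) * 1 := by ring
      _ ≤ 4 * (C6 + 1) * (β : ℝ) ^ (5 * u) * ((1 / 2) ^ u * (β : ℝ) ^ u) := by gcongr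
      _ = _ := by ring
  have h4 := mul_le_mul_of_nonneg_left h1 (by linarith : 0 ≤ C4)
  linarith

theorem step3 (hs : SmoothStmt) (hp : PvmStmt) {d : ℕ} (hd : d < S.top) (hQ : S.Q V d 2) :
    ∃ ε : ℝ, 0 < ε ∧ ∀ π : G →* Module.End ℝ V, Iso π → ∀ ψ : V, ‖ψ‖ = 1 →
      S.Small π (d + 1) ψ ε → ∀ N : ℕ, ∃ n, N ≤ n ∧ ∀ σ, err π (S.phi n σ) ψ ≤ 1 := by
  obtain ⟨a, n, C4, C5, hC4, hC5, ha, step⟩ := S.scale_step hs hp hd hQ
  obtain ⟨C, hC, hQ⟩ := hQ
  obtain ⟨u0, hu0⟩ := exists_pow_lt_of_lt_one (show 0 < 1 / (200 * (C5 + 1)) by positivity)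
    (show (1 / 2 : ℝ) < 1 by norm_num)
  set u := u0 + 1 with hu
  have hsm : 2 * C5 * (1 / 2) ^ u ≤ 1 / 100 := by
    have h1 : (1 / 2 : ℝ) ^ u ≤ (1 / 2) ^ u0 :=
      pow_le_pow_of_le_one (by norm_num) (by norm_num) (by omega)
    have h2 := h1.trans hu0.le
    rw [le_div_iff₀ (by positivity)] at h2
    have : (0 : ℝ) ≤ (1 / 2) ^ u := by positivity
    nlinarith
  set i := a u + (n u * (2 * u) + 2 * u) with hi
  set Ce : ℝ := 2 * (4 * Fintype.card X) ^ (2 * u) * (C * 2 ^ (2 * i)) with hCe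
  set M : ℝ := C4 * ((S.gset d).card + Ce ^ 2) + 1 with hM
  have hM1 : 1 ≤ M := by
    have : 0 ≤ C4 * ((S.gset d).card + Ce ^ 2) := by positivity
    linarith
  refine ⟨1 / (10 * M), by positivity, fun π hπ ψ hψ hε N => ?_⟩
  set ε := 1 / (10 * M) with hεd
  have hMε : M * ε ^ 2 ≤ 1 / 100 := by
    have e : M * ε ^ 2 = 1 / (100 * M) := by rw [hεd]; field_simp; norm_num
    rw [e]
    exact one_div_le_one_div_of_le (by norm_num) (by linarith)
  have iter : ∀ T u : ℕ, ∃ δ ≤ n u * (2 * u), ∀ U0 : Module.End ℝ V, IsOP U0 →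
      S.Dead π (a u) U0 → ∃ U1 : Module.End ℝ V, IsOP U1 ∧
        S.pot π d C4 (a (u + T)) (2 * (u + T)) 0 (U1 ψ) ≤
          S.pot π d C4 (a u) (2 * u) δ (U0 ψ) + 2 * C5 * (1 / 2) ^ u := by
    intro T
    induction T with
    | zero =>
      exact fun u => ⟨0, Nat.zero_le _, fun U0 o0 _ =>
        ⟨U0, o0, le_add_of_nonneg_right (by positivity)⟩⟩
    | succ T ih =>
      intro u
      obtain ⟨δ', hδ', H'⟩ := ih (u + 1)
      obtain ⟨δ, hδ, H⟩ := step π hπ ψ hψ.le u δ' hδ'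
      refine ⟨δ, hδ, fun U0 o0 d0 => ?_⟩
      obtain ⟨U1, o1, d1, h1⟩ := H U0 o0 d0
      obtain ⟨U2, o2, h2⟩ := H' U1 o1 d1
      refine ⟨U2, o2, ?_⟩
      rw [show u + (T + 1) = u + 1 + T by omega]
      rw [pow_succ] at h2
      linarith
  obtain ⟨δ, hδ, H⟩ := iter N u
  obtain ⟨U, oU, h⟩ := H 1 IsOP.one fun T _ => Commute.one_right T
  refine ⟨a (u + N), le_trans (by omega) (ha _), fun σ => ?_⟩
  have b1 := hQ π hπ ψ ε (hε.mono (Nat.le_succ d)) i
  have b2 : S.eta π (a u) (2 * u) δ ψ ≤ Ce * ε := by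
    refine norm_sub_avgS_le fun g hg => ?_
    have := cost_GW (hπ.comp (S.sh (a u))) (Bd.shift _ (b1.mono (N' := a u + (δ + 2 * u))
      (le_trans (by omega) (Nat.lt_pow_self (n := i) (by norm_num : 1 < 256)).le) le_rfl)) g hg
    rw [hCe]; linarith
  have b3 := En_le hε
  have b4 := pow_le_pow_left₀ (norm_nonneg _) b2 2
  have b5 : S.pot π d C4 (a u) (2 * u) δ ψ ≤ -1 + 1 / 100 := by
    have h0 : 0 ≤ C4 := by linarith
    have h1 := mul_le_mul_of_nonneg_left b3 h0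
    have h2 : C4 * S.eta π (a u) (2 * u) δ ψ ^ 2 ≤ C4 * (Ce * ε) ^ 2 :=
      mul_le_mul_of_nonneg_left b4 h0
    have h3 := sq_nonneg ε
    unfold pot
    rw [hψ]
    rw [hM] at hMε
    linarith
  rw [Module.End.one_apply] at h
  have b6 := oU.pyth ψ
  have b7 := En_nonneg (S := S) (π := π) d (U ψ)
  set η := S.eta π (a (u + N)) (2 * (u + N)) 0 (U ψ) with hη
  have b8 : err π (S.phi (a (u + N)) σ) (U ψ) ≤ 2 * η :=
    err_le_avgS (Θ := S.GW (S.W (2 * (u + N))) 0) (hπ.comp (S.sh (a (u + N))))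
      (S.phi_mem_W (j := 0) (by omega) σ) (U ψ)
  have b9 := hπ.err_near (S.phi (a (u + N)) σ) ψ (U ψ)
  have b10 : ‖ψ - U ψ‖ ^ 2 + η ^ 2 ≤ 1 / 50 := by
    unfold pot at h
    rw [← hη] at h
    rw [hψ] at b6
    have h1 : η ^ 2 ≤ C4 * η ^ 2 := le_mul_of_one_le_left (sq_nonneg _) hC4
    have h2 : 0 ≤ C4 * S.En π d (U ψ) := by positivity
    unfold pot at b5
    linarith
  have b11 : ‖ψ - U ψ‖ ≤ 1 / 7 := by nlinarith [sq_nonneg η, norm_nonneg (ψ - U ψ)]
  have b12 : η ≤ 1 / 7 := by nlinarith [sq_nonneg ‖ψ - U ψ‖]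
  linarith

end TS

end Pool.Agent.PolNA

end MrgPart2

-- marker of a merged file
example : 731051 + 880133 = 731051 + 880133 := rfl
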