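import Pool.Agent.PolNA.Step2
import Pool.Agent.PolNA.Step3c
import Pool.Agent.PolNA.Smooth
import Pool.Agent.PolNA.Folner

/-!
# Non-amenability in the abstract self-similar structure
-/

set_option autoImplicit false
set_option linter.unusedSectionVars false

namespace Pool.Agent.PolNA

namespace TS

variable {X A G : Type} [Fintype X] [DecidableEq X] [Group A] [Fintype A] [MulAction A X]
  [Group G] (S : TS X A G)

theorem Q_two (V : Type) [NormedAddCommGroup V] [InnerProductSpace ℝ V] (e : ℕ) :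
    ∀ d, d + e < S.top → S.Q V d (e + 2) → S.Q V (d + e) 2 := by
  induction e with
  | zero => exact fun _ _ => id
  | succ e ih =>
    intro d hd h
    rw [show d + (e + 1) = d + 1 + e by omega]
    exact ih (d + 1) (by omega) (S.step2 V smooth (by omega) (by omega) h)

theorem Q.succ {V : Type} [NormedAddCommGroup V] [InnerProductSpace ℝ V] {d e : ℕ}
    (h : S.Q V d e) : S.Q V d (e + 2) := by
  obtain ⟨C, hC, he⟩ := h
  refine ⟨C, hC, fun π hπ v ε hε i => (he π hπ v ε hε i).mono le_rfl ?_⟩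
  have := hε.nonneg
  gcongr
  · norm_num
  · omega

theorem not_amen {a : ℕ} (ha : 4 * Lam (Fintype.card X) (S.w 0) (S.w 1) < 2 ^ a)
    (ht : 2 + 9 * a < S.top) (P : Subgroup G) (hP : ∀ j, ∀ x ∈ S.R j, S.gen j x ∈ P) (σ : A)
    (hσ : Function.Injective fun n => S.phi n σ) : ¬ Amen P := by
  intro hA
  obtain ⟨V, _, _, π, hπ, H⟩ := folner G
  have hd := S.Q_two V (9 * a) 2 ht (Q.succ S (S.step1x V (by omega) ha))
  obtain ⟨ε, hε, h3⟩ := S.step3 smooth pvm ht hd
  obtain ⟨ψ, hψ, h1, h2⟩ := H P hA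
    (⋃ j ≤ 2 + 9 * a + 1, S.gen j '' (S.R j : Set G))
    ((Set.finite_le_nat _).biUnion fun j _ => Set.Finite.image _ (S.R_fin j))
    (by
      intro x hx
      simp only [Set.mem_iUnion] at hx
      obtain ⟨j, -, y, hy, rfl⟩ := hx
      exact hP j y hy) ε hε
  obtain ⟨N, hN⟩ := (h2.preimage hσ.injOn).bddAbove
  obtain ⟨n, hn, h⟩ := h3 π hπ ψ hψ
    (fun j hj τ hτ => h1 _ (Set.mem_biUnion hj ⟨τ, hτ, rfl⟩)) (N + 1)
  have : n ≤ N := hN (h σ)
  omega

end TS

end Pool.Agent.PolNA
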