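import Pool.Agent.PolNA.Step2

/-!
# The binary model: blocks of letters and a chain of finite groups
-/

set_option autoImplicit false

namespace Pool.Agent.PolNA

open scoped commutatorElement

theorem TS.phi_injective {X A G : Type} [DecidableEq X] [Group A] [MulAction A X] [Group G]
    (S : TS X A G) (h1 : Function.Injective (S.atx S.o)) (h : G)
    (h2 : S.atx S.e h ≠ S.atx (S.c • S.e) h) : Function.Injective fun n => S.phi n S.c := by
  have hs : ∀ n, Function.Injective (S.sh n) := by
    intro n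
    induction n with
    | zero => exact fun _ _ => id
    | succ n ih => exact h1.comp ih
  have key : ∀ m n, m < n → S.phi m S.c ≠ S.phi n S.c := by
    intro m n hmn heq
    have e1 := S.phi_fib m S.c S.e h
    rw [heq, S.phi_apply, ← (S.fib_sh_commute S.oe.symm hmn h _).eq, mul_left_inj] at e1
    exact h2 (hs m e1)
  intro m n hmn
  rcases lt_trichotomy m n with h | h | h
  · exact absurd hmn (key m n h)
  · exact h
  · exact absurd hmn.symm (key n m h)

section Bin

variable {X : Type} [DecidableEq X] {a b : X}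

/-- The rooted exchange of the two letters. -/
def sw (a b : X) : Equiv.Perm (List X) := rootH (Equiv.swap a b)

theorem comm_sw (w : List X) (h : Equiv.Perm (List X)) :
    ⁅aw (a :: w) h, sw a b⁆ = aw (a :: w) h * (aw (b :: w) h)⁻¹ := by
  have := conj_aw (rootH_tree (Equiv.swap a b)) (w := a :: w) (fun _ => rfl) h
  rw [rootH_cons, Equiv.swap_apply_left] at this
  rw [← this, commutatorElement_def, sw]
  group

/-- The chain of finite groups. -/
def KK (X : Type) (j : ℕ) : Subgroup (Equiv.Perm (List X)) := ⁅Fn X (2 * j + 5), Fn X (2 * j + 5)⁆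

omit [DecidableEq X] in
theorem KK_le (j : ℕ) : KK X j ≤ Fn X (2 * j + 5) := Subgroup.commutator_le_self _

instance finite_KK [Finite X] (j : ℕ) : Finite (KK X j) :=
  Finite.of_injective _ (Subgroup.inclusion_injective (KK_le j))

theorem aw_one_mem (x : X) {n : ℕ} {h : Equiv.Perm (List X)} (hh : h ∈ Fn X n) :
    aw [x] h ∈ Fn X (n + 1) := by
  have := aw_mem_Fn [x] hh
  rwa [List.length_singleton, add_comm] at this

theorem comm_diag (hab : a ≠ b) (p q : Equiv.Perm (List X)) :
    ⁅aw [a] p, ⁅aw [a] q, sw a b⁆⁆ = aw [a] ⁅p, q⁆ ∧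
      ⁅⁅aw [a] p, sw a b⁆, aw [a] q⁆ = aw [a] ⁅p, q⁆ := by
  have hc : ∀ g h, Commute (aw [a] g) (aw [b] h) := aw_commute rfl (by simpa using hab)
  rw [comm_sw, comm_sw, map_commutatorElement, ← map_inv, ← map_inv]
  constructor
  · have : ∀ x y z : Equiv.Perm (List X), Commute x z → ⁅x, y * z⁆ = ⁅x, y⁆ := by
      intro x y z h1
      simp only [commutatorElement_def, mul_inv_rev]
      rw [mul_assoc x, mul_assoc y, ← h1.inv_left.eq]; group
    exact this _ _ _ (hc _ _)
  · have : ∀ x y z : Equiv.Perm (List X), Commute y z → ⁅x * z, y⁆ = ⁅x, y⁆ := by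
      intro x y z h1
      simp only [commutatorElement_def, mul_inv_rev]
      rw [mul_assoc x, ← h1.eq]; group
    exact this _ _ _ (hc _ _)

theorem KK_chain (hab : a ≠ b) (j : ℕ) :
    (KK X j).map (aw [a, a]) ≤ ⁅KK X (j + 1), KK X (j + 1)⁆ := by
  rw [KK, Subgroup.map_commutator, Subgroup.commutator_le]
  rintro _ ⟨p, hp, rfl⟩ _ ⟨q, hq, rfl⟩
  have e : ∀ h, aw [a, a] h = aw [a] (aw [a] h) := fun h => aw_append [a] [a] h
  rw [← map_commutatorElement, e, ← (comm_diag hab p q).1, ← (comm_diag hab _ _).2]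
  refine Subgroup.commutator_mem_commutator (Subgroup.commutator_mem_commutator
    (aw_one_mem a (aw_one_mem a hp)) (rootH_mem_Fn _ _)) ?_
  rw [map_commutatorElement]
  exact Subgroup.commutator_mem_commutator (aw_one_mem a (aw_one_mem a hq))
    (aw_one_mem a (rootH_mem_Fn _ _))

/-- The block letters. -/
abbrev YY : Type := Bool × Bool × Bool × Bool

/-- The word of a block letter. -/
def code (a b : X) (y : YY) : List X :=
  [a, cond y.1 b a, cond y.2.1 b a, cond y.2.2.1 b a, cond y.2.2.2 b a]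

omit [DecidableEq X] in
theorem code_injective (hab : a ≠ b) : Function.Injective (code a b) := by
  have h : ∀ s t : Bool, cond s b a = cond t b a → s = t := by
    intro s t
    cases s <;> cases t <;> simp [hab, hab.symm]
  rintro ⟨y1, y2, y3, y4⟩ ⟨z1, z2, z3, z4⟩ e
  simp only [code, List.cons.injEq, and_true, true_and] at e
  rw [h _ _ e.1, h _ _ e.2.1, h _ _ e.2.2.1, h _ _ e.2.2.2]

/-- Elements of the first group of the chain with the permutation of the blocks they induce. -/
def AA (a b : X) : Subgroup (Equiv.Perm (List X) × Equiv.Perm YY) where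
  carrier := {p | p.1 ∈ KK X 0 ∧ ∀ y, p.1 (code a b y) = code a b (p.2 y)}
  mul_mem' := fun {p q} hp hq => ⟨mul_mem hp.1 hq.1, fun y => by
    rw [Prod.fst_mul, Prod.snd_mul, Equiv.Perm.mul_apply, Equiv.Perm.mul_apply, hq.2, hp.2]⟩
  one_mem' := ⟨one_mem _, fun _ => rfl⟩
  inv_mem' := fun {p} hp => ⟨inv_mem hp.1, fun y => by
    rw [Prod.fst_inv, Prod.snd_inv, Equiv.Perm.inv_eq_iff_eq, hp.2]; simp⟩

instance finite_AA [Finite X] : Finite (AA a b) :=
  Finite.of_injective (fun p : AA a b => ((⟨p.1.1, p.2.1⟩ : KK X 0), p.1.2)) fun _ _ e =>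
    Subtype.ext (Prod.ext (congrArg Subtype.val (Prod.ext_iff.mp e).1) (Prod.ext_iff.mp e).2)

instance actAA : MulAction (AA a b) YY :=
  MulAction.compHom YY ((MonoidHom.snd _ _).comp (AA a b).subtype)

theorem exists_flip (hab : a ≠ b) (i : ℕ) (hi : i < 4) (f : YY → YY)
    (hf : ∀ y, aw (a :: List.replicate i a) (sw a b) (code a b y) = code a b (f y)) :
    ∃ σ : AA a b, ∀ y, σ • y = f y := by
  have hinj : Function.Injective f := fun y z e => code_injective hab
    ((aw (a :: List.replicate i a) (sw a b)).injective (by rw [hf, hf, e]))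
  refine ⟨⟨(⁅aw (a :: List.replicate i a) (sw a b), sw a b⁆,
    Equiv.ofBijective f (Finite.injective_iff_bijective.mp hinj)), ?_, fun y => ?_⟩, fun _ => rfl⟩
  · refine Subgroup.commutator_mem_commutator ?_ (rootH_mem_Fn _ _)
    have := aw_mem_Fn (a :: List.replicate i a) (rootH_mem_Fn (Equiv.swap a b) (3 - i))
    rwa [List.length_cons, List.length_replicate, show i + 1 + (3 - i + 1) = 2 * 0 + 5 by omega]
      at this
  · change (⁅aw (a :: List.replicate i a) (sw a b), sw a b⁆ : Equiv.Perm (List X)) (code a b y) =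
      code a b (f y)
    rw [comm_sw, Equiv.Perm.mul_apply, ← map_inv, aw_not (w := b :: _), hf]
    exact fun h => hab.symm (List.cons_prefix_cons.mp h).1

theorem exists_flips (hab : a ≠ b) : ∃ s0 s1 s2 s3 : AA a b,
    (∀ y : YY, s0 • y = (!y.1, y.2)) ∧
    (∀ y : YY, s1 • y = (y.1, xor y.2.1 (!y.1), y.2.2)) ∧
    (∀ y : YY, s2 • y = (y.1, y.2.1, xor y.2.2.1 (!y.1 && !y.2.1), y.2.2.2)) ∧
    (∀ y : YY, s3 • y = (y.1, y.2.1, y.2.2.1, xor y.2.2.2 (!y.1 && !y.2.1 && !y.2.2.1))) := by
  have h1 : ∀ (w v : List X) h, aw (a :: w) h (a :: v) = a :: aw w h v := fun w v h => by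
    rw [aw_cons, spreadH_cons, Pi.mulSingle_eq_same]
  have h2 : ∀ (w v : List X) h, aw (a :: w) h (b :: v) = b :: v := fun w v h =>
    aw_not (fun h => hab (List.cons_prefix_cons.mp h).1) h
  have h3 : ∀ (v : List X) h, aw [] h v = h v := fun _ _ => rfl
  have h4 : ∀ v : List X, sw a b (a :: v) = b :: v := fun v => by simp [sw, rootH_cons]
  have h5 : ∀ v : List X, sw a b (b :: v) = a :: v := fun v => by simp [sw, rootH_cons]
  obtain ⟨s0, e0⟩ := exists_flip hab 0 (by omega) (fun y => (!y.1, y.2)) (by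
    rintro ⟨_ | _, y2, y3, y4⟩ <;> simp [code, h1, h3, h4, h5])
  obtain ⟨s1, e1⟩ := exists_flip hab 1 (by omega) (fun y => (y.1, xor y.2.1 (!y.1), y.2.2)) (by
    rintro ⟨_ | _, _ | _, y3, y4⟩ <;> simp [code, h1, h2, h3, h4, h5])
  obtain ⟨s2, e2⟩ := exists_flip hab 2 (by omega)
    (fun y => (y.1, y.2.1, xor y.2.2.1 (!y.1 && !y.2.1), y.2.2.2)) (by
      rintro ⟨_ | _, _ | _, _ | _, y4⟩ <;> simp [code, h1, h2, h3, h4, h5])
  obtain ⟨s3, e3⟩ := exists_flip hab 3 (by omega)
    (fun y => (y.1, y.2.1, y.2.2.1, xor y.2.2.2 (!y.1 && !y.2.1 && !y.2.2.1))) (by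
      rintro ⟨_ | _, _ | _, _ | _, _ | _⟩ <;> simp [code, h1, h2, h3, h4, h5])
  exact ⟨s0, s1, s2, s3, e0, e1, e2, e3⟩

theorem AA_trans (hab : a ≠ b) (x y : YY) : ∃ τ : AA a b, τ • x = y := by
  obtain ⟨s0, s1, s2, s3, e0, e1, e2, e3⟩ := exists_flips hab
  have key : ∀ y : YY, ∃ τ : AA a b, τ • ((false, false, false, false) : YY) = y := by
    rintro ⟨y1, y2, y3, y4⟩
    refine ⟨cond y1 s0 1 * cond y2 s1 1 * cond y3 s2 1 * cond y4 s3 1, ?_⟩
    cases y1 <;> cases y2 <;> cases y3 <;> cases y4 <;> simp [mul_smul, e0, e1, e2, e3]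
  obtain ⟨σ, rfl⟩ := key x
  obtain ⟨τ, rfl⟩ := key y
  exact ⟨τ * σ⁻¹, by rw [mul_smul, inv_smul_smul]⟩

/-- One element below each block. -/
noncomputable def spr (hab : a ≠ b) : (YY → Equiv.Perm (List X)) →* Equiv.Perm (List X) :=
  MonoidHom.noncommPiCoprod (fun y => aw (code a b y)) fun _ _ h =>
    aw_commute rfl ((code_injective hab).ne h)

theorem spr_single (hab : a ≠ b) (y : YY) (h : Equiv.Perm (List X)) :
    spr hab (Pi.mulSingle y h) = aw (code a b y) h :=
  MonoidHom.noncommPiCoprod_mulSingle (fun y => aw (code a b y)) y h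

theorem spr_conj (hab : a ≠ b) (σ : AA a b) (u : YY → Equiv.Perm (List X)) :
    σ.1.1 * spr hab u * σ.1.1⁻¹ = spr hab fun x => u (σ⁻¹ • x) := by
  let P : (YY → Equiv.Perm (List X)) →* (YY → Equiv.Perm (List X)) :=
    { toFun := fun u x => u (σ⁻¹ • x), map_one' := rfl, map_mul' := fun _ _ => rfl }
  have : (MulAut.conj σ.1.1).toMonoidHom.comp (spr hab) = (spr hab).comp P := by
    refine MonoidHom.pi_ext fun y h => ?_
    have e : P (Pi.mulSingle y h) = Pi.mulSingle (σ • y) h := by
      funext x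
      change (Pi.mulSingle y h : YY → _) (σ⁻¹ • x) = _
      simp only [Pi.mulSingle_apply, inv_smul_eq_iff]
    have hσ := KK_le 0 σ.2.1
    rw [MonoidHom.comp_apply, MonoidHom.comp_apply, e, spr_single, spr_single,
      MulEquiv.coe_toMonoidHom, MulAut.conj_apply, conj_aw hσ.1 (hσ.2 _ rfl), σ.2.2]
    rfl
  exact DFunLike.congr_fun this u

/-- The padding word. -/
def pad (a : X) : ℕ → List X
  | 0 => []
  | n + 1 => pad a n ++ [a, a]

end Bin

theorem model (k : ℕ) (hk : 2 ≤ k) : ∃ (A : Type) (_ : Group A) (_ : Fintype A)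
    (_ : MulAction A YY) (w : ℕ → ℕ), ∀ D : ℕ,
    ∃ S : TS YY A (Equiv.Perm (List (Fin k))), S.w = w ∧ S.top = D ∧
      (∀ j, ∀ x ∈ S.R j, S.gen j x ∈ Pol k) ∧ Function.Injective (fun n => S.phi n S.c) := by
  obtain ⟨a, b, hab⟩ : ∃ a b : Fin k, a ≠ b := ⟨⟨0, by omega⟩, ⟨1, by omega⟩, by simp⟩
  choose w hw using fun j => exists_cw (H := KK (Fin k) j) (K := KK (Fin k) (j + 1)) (aw [a, a])
    fun x hx => KK_chain hab j ⟨x, hx, rfl⟩
  obtain ⟨s0, s1, s2, s3, e0, e1, e2, e3⟩ := exists_flips hab
  refine ⟨AA a b, inferInstance, Fintype.ofFinite _, inferInstance, w, fun D => ?_⟩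
  let o : YY := (true, false, false, false)
  let e : YY := (false, false, false, false)
  have ho : pad a D ++ code a b o ≠ [] := by simp [code]
  have hl : (pad a D ++ code a b o).length = (pad a D ++ code a b e).length := by simp [code]
  have hoe : pad a D ++ code a b o ≠ pad a D ++ code a b e := fun h =>
    absurd (code_injective hab (List.append_cancel_left h)) (by decide)
  let R : ℕ → Subgroup (Equiv.Perm (List (Fin k))) := fun j =>
    (KK (Fin k) (min j D)).map (aw (pad a (D - j)))
  have hcw : ∀ j < D, ∀ x ∈ R j, Cw (R (j + 1) : Set _) (w j) x := by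
    rintro j hj _ ⟨x, hx, rfl⟩
    rw [min_eq_left hj.le] at hx
    rw [show D - j = D - (j + 1) + 1 by omega, pad, aw_append]
    exact (hw j x hx).map _ fun p hp =>
      Subgroup.mem_map_of_mem _ (by rwa [min_eq_left (Nat.succ_le_of_lt hj)])
  let S : TS YY (AA a b) (Equiv.Perm (List (Fin k))) :=
    { root := (aw (pad a D)).comp ((MonoidHom.fst _ _).comp (AA a b).subtype)
      spread := (aw (pad a D)).comp (spr hab)
      L := liftH ho hl hoe
      o := o
      e := e
      z := (false, true, false, false)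
      c := s2 * s3
      g := s1
      conj := fun σ u => by
        simp only [MonoidHom.comp_apply]
        rw [← map_inv, ← map_mul, ← map_mul]
        exact congrArg _ (spr_conj hab σ u)
      lift := fun h => by
        simp only [MonoidHom.comp_apply, spr_single, ← aw_append]
        exact liftH_eq ho hl hoe h
      R := R
      top := D
      w := w
      R_fin := fun j => finite_map _
      R_mono := fun j => by
        by_cases hj : j < D
        · rintro _ ⟨x, hx, rfl⟩
          rw [min_eq_left hj.le] at hx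
          rw [show D - j = D - (j + 1) + 1 by omega, pad, aw_append]
          exact ⟨_, by
            rw [min_eq_left hj]
            exact Subgroup.commutator_le_self _ (KK_chain hab j ⟨x, hx, rfl⟩), rfl⟩
        · simp only [R]
          rw [min_eq_right (by omega), min_eq_right (by omega), show D - j = D - (j + 1) by omega]
      root_R := fun σ => ⟨σ.1.1, by rw [Nat.zero_min]; exact σ.2.1, rfl⟩
      cw := hcw
      trans := AA_trans hab
      oe := by decide
      oz := by decide
      ez := by decide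
      c_o := by simp [mul_smul, e2, e3, o]
      c_z := by simp [mul_smul, e2, e3]
      c_e := by simp [mul_smul, e2, e3, e]
      c_ee := by simp [mul_smul, e2, e3, e]
      g_o := by simp [e1, o]
      g_e := by simp [e1, e]
      g_z := by simp [e1, e] }
  have hat : ∀ y h, S.atx y h = aw (pad a D ++ code a b y) h := fun y h => by
    rw [aw_append, ← spr_single hab]; rfl
  refine ⟨S, rfl, rfl, fun j x hx => ?_, S.phi_injective (fun g h e => ?_) (sw a b) fun h => ?_⟩
  · have h0 : x ∈ Pol k := by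
      obtain ⟨x, hx, rfl⟩ := hx
      exact Fn_le_Pol a _ (aw_mem_Fn _ (KK_le _ hx))
    clear hx
    induction j with
    | zero => exact h0
    | succ j ih => exact lift_mem_Pol ho hl hoe ih
  · rw [hat, hat] at e
    exact aw_injective _ e
  · rw [hat, hat] at h
    have h1 := DFunLike.congr_fun h (pad a D ++ code a b S.e ++ [a])
    rw [aw_pre, aw_not (not_pre_ne (by simp [code]) (fun h' =>
      S.c_e (code_injective hab (List.append_cancel_left h'))) _)] at h1
    have h2 := List.append_cancel_left h1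
    simp [sw, rootH_cons, hab.symm] at h2

end Pool.Agent.PolNA
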